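import Pool.Agent.Lib_helper40.NLN.Defs

/-!
# The regularisation error tends to zero locally in `L²` (module NLN_ERR)
-/

namespace Pool.Agent.Lib_helper40.NLN

open MeasureTheory Set Filter Topology

noncomputable section

namespace ErrM

variable {n : ℕ}

/-- continuous probability weights of compact support -/
structure W (w : E n → ℝ) : Prop where
  cont : Continuous w
  cs : HasCompactSupport w
  nn : ∀ y, 0 ≤ w y
  int : ∫ y, w y = 1

lemma W.of_avg {k : E n → ℝ} {ε : ℝ} (hk : Avg k ε) (x : E n) : W (fun y => k (x - y)) where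
  cont := hk.ker.1.continuous.comp (by fun_prop)
  cs := hk.ker.2.comp_homeomorph (Homeomorph.subLeft x)
  nn := fun y => hk.nn _
  int := by
    rw [integral_sub_left_eq_self (fun y => k y) volume x]
    exact hk.int

lemma W.integrable {w : E n → ℝ} (hw : W w) : Integrable w :=
  hw.cont.integrable_of_hasCompactSupport hw.cs

lemma W.smul_int {w : E n → ℝ} (hw : W w) {g : E n → ℂ} (hg : LocallyIntegrable g volume) :
    Integrable (fun y => w y • g y) :=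
  hg.integrable_smul_left_of_hasCompactSupport hw.cont hw.cs

lemma W.mul_int {w : E n → ℝ} (hw : W w) {g : E n → ℝ} (hg : Integrable g) :
    Integrable (fun y => w y * g y) := by
  obtain ⟨K, hK⟩ := hw.cont.bounded_above_of_compact_support hw.cs
  exact hg.bdd_mul (c := K) hw.cont.aestronglyMeasurable (ae_of_all _ hK)

lemma W.j2 {w : E n → ℝ} (hw : W w) {d : E n → ℂ} (h1 : Integrable fun y => w y • d y)
    (h2 : Integrable fun y => w y * ‖d y‖ ^ 2) :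
    ‖∫ y, w y • d y‖ ^ 2 ≤ ∫ y, w y * ‖d y‖ ^ 2 := by
  set m := ∫ y, w y • d y with hm
  have h0 : 0 ≤ ∫ y, w y * ‖d y - m‖ ^ 2 :=
    integral_nonneg fun y => mul_nonneg (hw.nn _) (by positivity)
  have e1 : ∀ y, w y * ‖d y - m‖ ^ 2 =
      w y * ‖d y‖ ^ 2 - 2 * (inner ℝ m (w y • d y)) + w y * ‖m‖ ^ 2 := by
    intro y
    rw [norm_sub_sq_real, inner_smul_right, real_inner_comm]
    ring
  have i3 : Integrable fun y => inner ℝ m (w y • d y) := h1.const_inner m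
  simp only [e1] at h0
  have i4 : Integrable fun y => w y * ‖d y‖ ^ 2 - 2 * (inner ℝ m (w y • d y)) :=
    h2.sub (i3.const_mul 2)
  rw [MeasureTheory.integral_add i4 (hw.integrable.mul_const _),
    MeasureTheory.integral_sub h2 (i3.const_mul 2),
    MeasureTheory.integral_const_mul, MeasureTheory.integral_mul_const, hw.int,
    integral_inner h1 m, ← hm, real_inner_self_eq_norm_sq] at h0
  linarith

lemma W.j3 {w : E n → ℝ} (hw : W w) {u : E n → ℝ} (hu : ∀ y, 0 ≤ u y)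
    (h1 : Integrable fun y => w y * u y) (h3 : Integrable fun y => w y * u y ^ 3) :
    (∫ y, w y * u y) ^ 3 ≤ ∫ y, w y * u y ^ 3 := by
  set a := ∫ y, w y * u y with ha
  have ha0 : 0 ≤ a := integral_nonneg fun y => mul_nonneg (hw.nn y) (hu y)
  have i1 : Integrable fun y => 3 * a ^ 2 * (w y * u y) - w y * (2 * a ^ 3) :=
    (h1.const_mul _).sub (hw.integrable.mul_const _)
  have h := integral_mono i1 h3 fun y => ?_
  · rw [MeasureTheory.integral_sub (h1.const_mul _) (hw.integrable.mul_const _),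
      MeasureTheory.integral_const_mul, MeasureTheory.integral_mul_const, hw.int, ← ha] at h
    nlinarith
  · have h2 : 0 ≤ w y * ((u y - a) ^ 2 * (u y + 2 * a)) :=
      mul_nonneg (hw.nn y) (mul_nonneg (sq_nonneg _) (by linarith [hu y]))
    show 3 * a ^ 2 * (w y * u y) - w y * (2 * a ^ 3) ≤ w y * u y ^ 3
    nlinarith

lemma W.j6 {w : E n → ℝ} (hw : W w) {d : E n → ℂ} (h1 : Integrable fun y => w y • d y)
    (h2 : Integrable fun y => w y * ‖d y‖ ^ 2) (h6 : Integrable fun y => w y * ‖d y‖ ^ 6) :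
    ‖∫ y, w y • d y‖ ^ 6 ≤ ∫ y, w y * ‖d y‖ ^ 6 := by
  have e : ∀ y, w y * ‖d y‖ ^ 6 = w y * (‖d y‖ ^ 2) ^ 3 := fun y => by ring
  simp only [e] at h6 ⊢
  have hj := hw.j3 (fun y => by positivity) h2 h6
  refine le_trans ?_ hj
  calc ‖∫ y, w y • d y‖ ^ 6 = (‖∫ y, w y • d y‖ ^ 2) ^ 3 := by ring
    _ ≤ _ := by
        gcongr
        exact hw.j2 h1 h2

/-- real convolution -/
def cv (k g : E n → ℝ) (x : E n) : ℝ := ∫ y, k (x - y) * g y

lemma cv_int {k : E n → ℝ} {ε : ℝ} (hk : Avg k ε) {g : E n → ℝ} (hg : Integrable g) :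
    Integrable (cv k g) ∧ ∫ x, cv k g x = ∫ y, g y := by
  have hki : Integrable k := hk.ker.1.continuous.integrable_of_hasCompactSupport hk.ker.2
  have e : MeasureTheory.convolution k g (ContinuousLinearMap.lsmul ℝ ℝ) volume = cv k g := by
    funext x
    rw [convolution_lsmul_swap]; rfl
  rw [← e]
  refine ⟨hki.integrable_convolution _ hg, ?_⟩
  rw [integral_convolution _ hki hg, hk.int]
  simp

lemma cv_nonneg {k : E n → ℝ} {ε : ℝ} (hk : Avg k ε) {g : E n → ℝ} (hg : ∀ y, 0 ≤ g y)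
    (x : E n) : 0 ≤ cv k g x := integral_nonneg fun y => mul_nonneg (hk.nn _) (hg y)

lemma mo_eq (k : E n → ℝ) (f : E n → ℂ) (x : E n) : mo k f x = ∫ y, k (x - y) • f y := by
  unfold mo
  rw [convolution_lsmul_swap]

/-- the cubic term -/
def G (z : ℂ) : ℂ := ‖z‖ ^ 2 • z

lemma G_cont : Continuous G := by
  unfold G
  fun_prop

lemma cubic (z w : ℂ) : ‖G z - G w‖ ≤ 5 * (‖w‖ ^ 2 * ‖z - w‖ + ‖z - w‖ ^ 3) := by
  have e : G z - G w = ‖z‖ ^ 2 • (z - w) + (‖z‖ ^ 2 - ‖w‖ ^ 2) • w := by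
    unfold G
    rw [smul_sub, sub_smul]
    abel
  rw [e]
  refine (norm_add_le _ _).trans ?_
  rw [norm_smul, norm_smul, Real.norm_eq_abs, Real.norm_eq_abs, abs_of_nonneg (sq_nonneg ‖z‖)]
  have h1 : ‖z‖ ≤ ‖w‖ + ‖z - w‖ := by
    calc ‖z‖ = ‖w + (z - w)‖ := by congr 1; ring
      _ ≤ _ := norm_add_le _ _
  have h2 : ‖w‖ ≤ ‖z‖ + ‖z - w‖ := by
    calc ‖w‖ = ‖z - (z - w)‖ := by congr 1; ring
      _ ≤ _ := norm_sub_le _ _
  have hz := norm_nonneg z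
  have hw := norm_nonneg w
  have he := norm_nonneg (z - w)
  set a := ‖z‖
  set b := ‖w‖
  set c := ‖z - w‖
  have h3 : |a ^ 2 - b ^ 2| ≤ c * (2 * b + c) := by
    rw [abs_le]
    constructor <;> nlinarith
  have h4 : a ^ 2 ≤ 2 * (b ^ 2 + c ^ 2) := by nlinarith [sq_nonneg (b - c)]
  have h5 : |a ^ 2 - b ^ 2| * b ≤ c * (2 * b + c) * b := mul_le_mul_of_nonneg_right h3 hw
  have h6 : a ^ 2 * c ≤ 2 * (b ^ 2 + c ^ 2) * c := mul_le_mul_of_nonneg_right h4 he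
  nlinarith [mul_nonneg he (sq_nonneg (b - c))]

/-- Young -/
lemma young {a b τ : ℝ} (hτ : 0 < τ) :
    a ^ 4 * b ^ 2 ≤ τ * a ^ 6 + (τ ^ 2)⁻¹ * b ^ 6 := by
  by_cases h : b ^ 2 ≤ τ * a ^ 2
  · have h1 : a ^ 4 * b ^ 2 ≤ a ^ 4 * (τ * a ^ 2) := mul_le_mul_of_nonneg_left h (by positivity)
    have h2 : 0 ≤ (τ ^ 2)⁻¹ * b ^ 6 := by positivity
    nlinarith
  · push Not at h
    have h1 : a ^ 2 ≤ τ⁻¹ * b ^ 2 := by
      rw [← div_eq_inv_mul, le_div_iff₀ hτ]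
      linarith
    have h2 : (a ^ 2) ^ 2 ≤ (τ⁻¹ * b ^ 2) ^ 2 := by gcongr
    have h3 : 0 ≤ τ * a ^ 6 := by positivity
    calc a ^ 4 * b ^ 2 = (a ^ 2) ^ 2 * b ^ 2 := by ring
      _ ≤ (τ⁻¹ * b ^ 2) ^ 2 * b ^ 2 := by gcongr
      _ = (τ ^ 2)⁻¹ * b ^ 6 := by
          rw [← inv_pow]
          ring
      _ ≤ _ := by linarith

lemma young2 {b τ : ℝ} (hτ : 0 < τ) : b ^ 2 ≤ τ + (τ ^ 2)⁻¹ * b ^ 6 := by
  have := young (a := 1) (b := b) hτ
  simpa using this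

lemma cubic_sq (z w : ℂ) {τ : ℝ} (hτ : 0 < τ) :
    ‖G z - G w‖ ^ 2 ≤ 50 * (τ * ‖w‖ ^ 6 + ((τ ^ 2)⁻¹ + 1) * ‖z - w‖ ^ 6) := by
  have h1 := cubic z w
  have h2 := young (a := ‖w‖) (b := ‖z - w‖) hτ
  have h3 : ‖G z - G w‖ ^ 2 ≤ (5 * (‖w‖ ^ 2 * ‖z - w‖ + ‖z - w‖ ^ 3)) ^ 2 := by
    gcongr
  refine h3.trans ?_
  nlinarith [sq_nonneg (‖w‖ ^ 2 * ‖z - w‖ - ‖z - w‖ ^ 3)]

lemma five {F : Type*} [SeminormedAddCommGroup F] (a b c d e : F) :
    ‖a + b + c + d + e‖ ^ 2 ≤ 5 * (‖a‖ ^ 2 + ‖b‖ ^ 2 + ‖c‖ ^ 2 + ‖d‖ ^ 2 + ‖e‖ ^ 2) := by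
  have h : ‖a + b + c + d + e‖ ≤ ‖a‖ + ‖b‖ + ‖c‖ + ‖d‖ + ‖e‖ := by
    have h1 := norm_add_le (a + b + c + d) e
    have h2 := norm_add_le (a + b + c) d
    have h3 := norm_add_le (a + b) c
    have h4 := norm_add_le a b
    linarith
  have h2 : ‖a + b + c + d + e‖ ^ 2 ≤ (‖a‖ + ‖b‖ + ‖c‖ + ‖d‖ + ‖e‖) ^ 2 := by gcongr
  refine h2.trans ?_
  nlinarith [sq_nonneg (‖a‖ - ‖b‖), sq_nonneg (‖a‖ - ‖c‖), sq_nonneg (‖a‖ - ‖d‖),
    sq_nonneg (‖a‖ - ‖e‖), sq_nonneg (‖b‖ - ‖c‖), sq_nonneg (‖b‖ - ‖d‖), sq_nonneg (‖b‖ - ‖e‖),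
    sq_nonneg (‖c‖ - ‖d‖), sq_nonneg (‖c‖ - ‖e‖), sq_nonneg (‖d‖ - ‖e‖)]

lemma three {F : Type*} [SeminormedAddCommGroup F] (a b c : F) :
    ‖a + b - c‖ ^ 2 ≤ 3 * (‖a‖ ^ 2 + ‖b‖ ^ 2 + ‖c‖ ^ 2) := by
  have h : ‖a + b - c‖ ≤ ‖a‖ + ‖b‖ + ‖c‖ := by
    have h3 := norm_sub_le (a + b) c
    have h4 := norm_add_le a b
    linarith
  have h2 : ‖a + b - c‖ ^ 2 ≤ (‖a‖ + ‖b‖ + ‖c‖) ^ 2 := by gcongr
  refine h2.trans ?_
  nlinarith [sq_nonneg (‖a‖ - ‖b‖), sq_nonneg (‖a‖ - ‖c‖), sq_nonneg (‖b‖ - ‖c‖)]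

/-- the data of one comparison -/
structure Dat (V : E n → ℝ) (ψ f : E n → ℂ) : Prop where
  cV : Continuous V
  p2 : MemLp ψ 2 volume
  p6 : MemLp ψ 6 volume
  cf : Continuous f
  fs : HasCompactSupport f

namespace Dat

variable {V : E n → ℝ} {ψ f : E n → ℂ} (h : Dat V ψ f)

include h

lemma f2 : MemLp f 2 volume := h.cf.memLp_of_hasCompactSupport h.fs
lemma f6 : MemLp f 6 volume := h.cf.memLp_of_hasCompactSupport h.fs
lemma d2 : MemLp (fun x => ψ x - f x) 2 volume := h.p2.sub h.f2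
lemma d6 : MemLp (fun x => ψ x - f x) 6 volume := h.p6.sub h.f6
lemma iψ2 : Integrable (fun x => ‖ψ x‖ ^ 2) := h.p2.integrable_norm_pow (by norm_num)
lemma iψ6 : Integrable (fun x => ‖ψ x‖ ^ 6) := h.p6.integrable_norm_pow (by norm_num)
lemma if6 : Integrable (fun x => ‖f x‖ ^ 6) := h.f6.integrable_norm_pow (by norm_num)
lemma if2 : Integrable (fun x => ‖f x‖ ^ 2) := h.f2.integrable_norm_pow (by norm_num)
lemma id2 : Integrable (fun x => ‖ψ x - f x‖ ^ 2) := h.d2.integrable_norm_pow (by norm_num)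
lemma id6 : Integrable (fun x => ‖ψ x - f x‖ ^ 6) := h.d6.integrable_norm_pow (by norm_num)
lemma lψ : LocallyIntegrable ψ volume := h.p2.locallyIntegrable (by norm_num)
lemma lf : LocallyIntegrable f volume := h.cf.locallyIntegrable
lemma ld : LocallyIntegrable (fun x => ψ x - f x) volume := h.d2.locallyIntegrable (by norm_num)

lemma iG : Integrable (fun x => G (ψ x)) := by
  refine (h.iψ2.add h.iψ6).mono' (G_cont.comp_aestronglyMeasurable h.p2.1)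
    (ae_of_all _ fun x => ?_)
  show ‖G (ψ x)‖ ≤ ‖ψ x‖ ^ 2 + ‖ψ x‖ ^ 6
  unfold G
  rw [norm_smul, Real.norm_eq_abs, abs_of_nonneg (sq_nonneg ‖ψ x‖)]
  have h0 := norm_nonneg (ψ x)
  rcases le_total ‖ψ x‖ 1 with h1 | h1
  · have : ‖ψ x‖ ^ 2 * ‖ψ x‖ ≤ ‖ψ x‖ ^ 2 * 1 := mul_le_mul_of_nonneg_left h1 (sq_nonneg _)
    have h2 : 0 ≤ ‖ψ x‖ ^ 6 := by positivity
    linarith
  · have h3 : ‖ψ x‖ ^ 3 ≤ ‖ψ x‖ ^ 6 := pow_le_pow_right₀ h1 (by norm_num)
    have h2 : 0 ≤ ‖ψ x‖ ^ 2 := by positivity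
    calc ‖ψ x‖ ^ 2 * ‖ψ x‖ = ‖ψ x‖ ^ 3 := by ring
      _ ≤ _ := by linarith

lemma cGf : Continuous (fun x => G (f x)) := G_cont.comp h.cf

lemma sGf : HasCompactSupport (fun x => G (f x)) := by
  have : (fun x => G (f x)) = G ∘ f := rfl
  rw [this]
  exact h.fs.comp_left (by simp [G])

lemma iGf : Integrable (fun x => G (f x)) := h.cGf.integrable_of_hasCompactSupport h.sGf

/-- first pointwise estimate -/
lemma pt1 {k : E n → ℝ} {ε : ℝ} (hk : Avg k ε) {τ ω : ℝ} (hτ : 0 < τ) (x : E n)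
    (hω : ‖mo k f x - f x‖ ≤ ω) :
    ‖mo k ψ x - ψ x‖ ^ 2 ≤ 3 * (τ + (τ ^ 2)⁻¹ * cv k (fun y => ‖ψ y - f y‖ ^ 6) x + ω ^ 2 +
      (τ + (τ ^ 2)⁻¹ * ‖ψ x - f x‖ ^ 6)) := by
  have hw := W.of_avg hk x
  have e1 : mo k (fun y => ψ y - f y) x = mo k ψ x - mo k f x := by
    rw [mo_eq, mo_eq, mo_eq, ← integral_sub (hw.smul_int h.lψ) (hw.smul_int h.lf)]
    congr 1
    funext y
    rw [smul_sub]
  have e2 : mo k ψ x - ψ x = mo k (fun y => ψ y - f y) x + (mo k f x - f x) - (ψ x - f x) := by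
    rw [e1]
    ring
  rw [e2]
  refine (three _ _ _).trans ?_
  have h1 : ‖mo k (fun y => ψ y - f y) x‖ ^ 6 ≤ cv k (fun y => ‖ψ y - f y‖ ^ 6) x := by
    rw [mo_eq]
    exact hw.j6 (hw.smul_int h.ld) (hw.mul_int h.id2) (hw.mul_int h.id6)
  have h2 := young2 (b := ‖mo k (fun y => ψ y - f y) x‖) hτ
  have h3 : (τ ^ 2)⁻¹ * ‖mo k (fun y => ψ y - f y) x‖ ^ 6 ≤
      (τ ^ 2)⁻¹ * cv k (fun y => ‖ψ y - f y‖ ^ 6) x :=
    mul_le_mul_of_nonneg_left h1 (by positivity)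
  have h4 := young2 (b := ‖ψ x - f x‖) hτ
  have h5 : ‖mo k f x - f x‖ ^ 2 ≤ ω ^ 2 := by gcongr
  linarith

/-- second pointwise estimate -/
lemma pt2 {k : E n → ℝ} {ε : ℝ} (hk : Avg k ε) {τ ω ν : ℝ} (hτ : 0 < τ) (x : E n)
    (hω1 : ‖mo k (fun y => G (f y)) x - G (f x)‖ ≤ ω)
    (hω2 : ‖G (f x) - G (mo k f x)‖ ≤ ω)
    (hν : ∀ y, ‖x - y‖ < ε → |V y - V x| ≤ ν) :
    ‖mo k (nl V ψ) x - (V x + ‖mo k ψ x‖ ^ 2) • mo k ψ x‖ ^ 2 ≤
      5 * (ν ^ 2 * cv k (fun y => ‖ψ y‖ ^ 2) x + 100 * (τ * cv k (fun y => ‖f y‖ ^ 6) x +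
        ((τ ^ 2)⁻¹ + 1) * cv k (fun y => ‖ψ y - f y‖ ^ 6) x) + 2 * ω ^ 2) := by
  have hw := W.of_avg hk x
  have iψ := hw.smul_int h.lψ
  have iV : Integrable (fun y => k (x - y) • (V y • ψ y)) := by
    have := h.lψ.integrable_smul_left_of_hasCompactSupport (g := fun y => k (x - y) * V y)
      (hw.cont.mul h.cV) (hw.cs.mul_right)
    refine this.congr (ae_of_all _ fun y => ?_)
    show (k (x - y) * V y) • ψ y = k (x - y) • (V y • ψ y)
    rw [mul_smul]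
  have iG' : Integrable (fun y => k (x - y) • G (ψ y)) := hw.smul_int h.iG.locallyIntegrable
  have iGf' : Integrable (fun y => k (x - y) • G (f y)) := hw.smul_int h.iGf.locallyIntegrable
  -- the linear part
  set T1 : ℂ := ∫ y, k (x - y) • ((V y - V x) • ψ y) with hT1
  have eT1 : T1 = (∫ y, k (x - y) • (V y • ψ y)) - V x • mo k ψ x := by
    have iVx : Integrable (fun y => V x • (k (x - y) • ψ y)) := iψ.smul (V x)
    rw [mo_eq, ← integral_smul, hT1, ← integral_sub iV iVx]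
    congr 1
    funext y
    rw [sub_smul, smul_sub, smul_comm (V x)]
  set T2 : ℂ := ∫ y, k (x - y) • (G (ψ y) - G (f y)) with hT2
  have eT2 : T2 = (∫ y, k (x - y) • G (ψ y)) - mo k (fun y => G (f y)) x := by
    rw [mo_eq, hT2, ← integral_sub iG' iGf']
    congr 1
    funext y
    rw [smul_sub]
  have eN : mo k (nl V ψ) x = (∫ y, k (x - y) • (V y • ψ y)) + ∫ y, k (x - y) • G (ψ y) := by
    rw [mo_eq, ← integral_add iV iG']
    congr 1
    funext y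
    unfold nl G
    rw [add_smul, smul_add]
  have eS : mo k (nl V ψ) x - (V x + ‖mo k ψ x‖ ^ 2) • mo k ψ x =
      T1 + T2 + (mo k (fun y => G (f y)) x - G (f x)) + (G (f x) - G (mo k f x)) +
        (G (mo k f x) - G (mo k ψ x)) := by
    rw [eN, eT1, eT2, add_smul]
    show _ = _ + (G (mo k f x) - ‖mo k ψ x‖ ^ 2 • mo k ψ x)
    ring
  rw [eS]
  refine (five _ _ _ _ _).trans ?_
  -- T1
  have hptV : ∀ y, k (x - y) * ‖(V y - V x) • ψ y‖ ^ 2 ≤ ν ^ 2 * (k (x - y) * ‖ψ y‖ ^ 2) := by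
    intro y
    by_cases hy : ‖x - y‖ < ε
    · have h1 := hν y hy
      rw [norm_smul, Real.norm_eq_abs, mul_pow]
      have h2 : |V y - V x| ^ 2 ≤ ν ^ 2 := by gcongr
      have h3 : |V y - V x| ^ 2 * (k (x - y) * ‖ψ y‖ ^ 2) ≤ ν ^ 2 * (k (x - y) * ‖ψ y‖ ^ 2) :=
        mul_le_mul_of_nonneg_right h2 (mul_nonneg (hk.nn _) (sq_nonneg _))
      calc k (x - y) * (|V y - V x| ^ 2 * ‖ψ y‖ ^ 2)
          = |V y - V x| ^ 2 * (k (x - y) * ‖ψ y‖ ^ 2) := by ring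
        _ ≤ _ := h3
    · rw [hk.supp (x - y) (not_lt.1 hy)]
      simp
  have iT1 : Integrable (fun y => k (x - y) * ‖(V y - V x) • ψ y‖ ^ 2) := by
    refine ((hw.mul_int h.iψ2).const_mul (ν ^ 2)).mono' ?_ (ae_of_all _ fun y => ?_)
    · have c1 : Continuous fun y => k (x - y) := hw.cont
      have c2 : Continuous fun y => V y - V x := h.cV.sub continuous_const
      exact c1.aestronglyMeasurable.mul
        ((c2.aestronglyMeasurable.smul h.p2.1).norm.pow 2)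
    · rw [Real.norm_eq_abs, abs_of_nonneg (mul_nonneg (hk.nn _) (sq_nonneg _))]
      exact hptV y
  have bT1 : ‖T1‖ ^ 2 ≤ ν ^ 2 * cv k (fun y => ‖ψ y‖ ^ 2) x := by
    have i0 : Integrable (fun y => k (x - y) • ((V y - V x) • ψ y)) := by
      refine (iV.sub (iψ.smul (V x))).congr (ae_of_all _ fun y => ?_)
      show k (x - y) • (V y • ψ y) - V x • (k (x - y) • ψ y) = k (x - y) • ((V y - V x) • ψ y)
      rw [sub_smul, smul_sub, smul_comm (V x)]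
    refine (hw.j2 i0 iT1).trans ?_
    unfold cv
    rw [← MeasureTheory.integral_const_mul]
    exact integral_mono iT1 ((hw.mul_int h.iψ2).const_mul _) hptV
  -- T2
  have hptG : ∀ y, ‖G (ψ y) - G (f y)‖ ^ 2 ≤
      50 * (τ * ‖f y‖ ^ 6 + ((τ ^ 2)⁻¹ + 1) * ‖ψ y - f y‖ ^ 6) := fun y => cubic_sq _ _ hτ
  have iR : Integrable fun y => 50 * (τ * ‖f y‖ ^ 6 + ((τ ^ 2)⁻¹ + 1) * ‖ψ y - f y‖ ^ 6) :=
    ((h.if6.const_mul τ).add (h.id6.const_mul ((τ ^ 2)⁻¹ + 1))).const_mul 50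
  have iH : Integrable fun y => ‖G (ψ y) - G (f y)‖ ^ 2 := by
    refine iR.mono' ((h.iG.1.sub h.iGf.1).norm.pow 2) (ae_of_all _ fun y => ?_)
    rw [Real.norm_eq_abs, abs_of_nonneg (sq_nonneg _)]
    exact hptG y
  have ecv : (∫ y, k (x - y) * (50 * (τ * ‖f y‖ ^ 6 + ((τ ^ 2)⁻¹ + 1) * ‖ψ y - f y‖ ^ 6))) =
      50 * (τ * cv k (fun y => ‖f y‖ ^ 6) x +
        ((τ ^ 2)⁻¹ + 1) * cv k (fun y => ‖ψ y - f y‖ ^ 6) x) := by
    unfold cv
    rw [← MeasureTheory.integral_const_mul, ← MeasureTheory.integral_const_mul,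
      ← MeasureTheory.integral_add ((hw.mul_int h.if6).const_mul _)
        ((hw.mul_int h.id6).const_mul _), ← MeasureTheory.integral_const_mul]
    congr 1
    funext y
    ring
  have bT2 : ‖T2‖ ^ 2 ≤ 50 * (τ * cv k (fun y => ‖f y‖ ^ 6) x +
        ((τ ^ 2)⁻¹ + 1) * cv k (fun y => ‖ψ y - f y‖ ^ 6) x) := by
    have i0 : Integrable (fun y => k (x - y) • (G (ψ y) - G (f y))) := by
      refine (iG'.sub iGf').congr (ae_of_all _ fun y => ?_)
      show k (x - y) • G (ψ y) - k (x - y) • G (f y) = k (x - y) • (G (ψ y) - G (f y))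
      rw [smul_sub]
    refine (hw.j2 i0 (hw.mul_int iH)).trans ?_
    rw [← ecv]
    exact integral_mono (hw.mul_int iH) (hw.mul_int iR)
      fun y => mul_le_mul_of_nonneg_left (hptG y) (hk.nn _)
  -- T5
  have e1 : mo k (fun y => ψ y - f y) x = mo k ψ x - mo k f x := by
    rw [mo_eq, mo_eq, mo_eq, ← integral_sub (hw.smul_int h.lψ) (hw.smul_int h.lf)]
    congr 1
    funext y
    rw [smul_sub]
  have hd6 : ‖mo k ψ x - mo k f x‖ ^ 6 ≤ cv k (fun y => ‖ψ y - f y‖ ^ 6) x := by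
    rw [← e1, mo_eq]
    exact hw.j6 (hw.smul_int h.ld) (hw.mul_int h.id2) (hw.mul_int h.id6)
  have hf6 : ‖mo k f x‖ ^ 6 ≤ cv k (fun y => ‖f y‖ ^ 6) x := by
    rw [mo_eq]
    exact hw.j6 (hw.smul_int h.lf) (hw.mul_int h.if2) (hw.mul_int h.if6)
  have bT5 : ‖G (mo k f x) - G (mo k ψ x)‖ ^ 2 ≤ 50 * (τ * cv k (fun y => ‖f y‖ ^ 6) x +
        ((τ ^ 2)⁻¹ + 1) * cv k (fun y => ‖ψ y - f y‖ ^ 6) x) := by
    rw [norm_sub_rev]
    refine (cubic_sq (mo k ψ x) (mo k f x) hτ).trans ?_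
    gcongr
  have b3 : ‖mo k (fun y => G (f y)) x - G (f x)‖ ^ 2 ≤ ω ^ 2 := by gcongr
  have b4 : ‖G (f x) - G (mo k f x)‖ ^ 2 ≤ ω ^ 2 := by gcongr
  linarith

end Dat

/-- integration of a pointwise bound over a ball -/
lemma ball_le {u P : E n → ℝ} {c0 c1 L : ℝ} (hc1 : 0 ≤ c1) (hP : Integrable P)
    (hP0 : ∀ x, 0 ≤ P x) (hu0 : ∀ x, 0 ≤ u x)
    (hu : ∀ x ∈ Metric.closedBall (0 : E n) L, u x ≤ c0 + c1 * P x) :
    ∫ x in Metric.closedBall (0 : E n) L, u x ≤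
      c0 * volume.real (Metric.closedBall (0 : E n) L) + c1 * ∫ x, P x := by
  have hB : volume (Metric.closedBall (0 : E n) L) < ⊤ := measure_closedBall_lt_top
  have ic : IntegrableOn (fun _ : E n => c0) (Metric.closedBall (0 : E n) L) :=
    integrableOn_const hB.ne
  have iR : IntegrableOn (fun x => c0 + c1 * P x) (Metric.closedBall (0 : E n) L) :=
    ic.add (hP.integrableOn.const_mul c1)
  have h1 : ∫ x in Metric.closedBall (0 : E n) L, u x ≤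
      ∫ x in Metric.closedBall (0 : E n) L, (c0 + c1 * P x) := by
    refine integral_mono_of_nonneg (ae_of_all _ hu0) iR ?_
    exact (ae_restrict_iff' measurableSet_closedBall).2 (ae_of_all _ hu)
  refine h1.trans ?_
  rw [MeasureTheory.integral_add ic (hP.integrableOn.const_mul c1),
    MeasureTheory.setIntegral_const, MeasureTheory.integral_const_mul, smul_eq_mul, mul_comm c0]
  have h2 : ∫ x in Metric.closedBall (0 : E n) L, P x ≤ ∫ x, P x :=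
    setIntegral_le_integral hP (ae_of_all _ hP0)
  have h3 := mul_le_mul_of_nonneg_left h2 hc1
  linarith

/-- averages of a function with small oscillation -/
lemma mo_close {k : E n → ℝ} {ε δ ω : ℝ} (hk : Avg k ε) (hεδ : ε ≤ δ) {g : E n → ℂ}
    (hg : Continuous g) (x : E n) (hω : ∀ y, ‖x - y‖ < δ → ‖g y - g x‖ ≤ ω) :
    ‖mo k g x - g x‖ ≤ ω := by
  have hw := W.of_avg hk x
  have ig := hw.smul_int hg.locallyIntegrable
  have ic : Integrable (fun y => k (x - y) • g x) := hw.integrable.smul_const (g x)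
  have e : mo k g x - g x = ∫ y, k (x - y) • (g y - g x) := by
    have e1 : ∫ y, k (x - y) • g x = g x := by
      rw [integral_smul_const, hw.int, one_smul]
    calc mo k g x - g x = (∫ y, k (x - y) • g y) - ∫ y, k (x - y) • g x := by
          rw [mo_eq, e1]
      _ = ∫ y, (k (x - y) • g y - k (x - y) • g x) := (integral_sub ig ic).symm
      _ = _ := by
          congr 1
          funext y
          rw [smul_sub]
  rw [e]
  have h1 : ‖∫ y, k (x - y) • (g y - g x)‖ ≤ ∫ y, k (x - y) * ω := by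
    refine norm_integral_le_of_norm_le (hw.integrable.mul_const ω) (ae_of_all _ fun y => ?_)
    rw [norm_smul, Real.norm_eq_abs, abs_of_nonneg (hk.nn _)]
    by_cases hy : ‖x - y‖ < ε
    · exact mul_le_mul_of_nonneg_left (hω y (hy.trans_le hεδ)) (hk.nn _)
    · rw [hk.supp (x - y) (not_lt.1 hy)]
      simp
  rwa [MeasureTheory.integral_mul_const, hw.int, one_mul] at h1

namespace Dat

variable {V : E n → ℝ} {ψ f : E n → ℂ} (h : Dat V ψ f)

include h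

/-- first integrated estimate -/
lemma int1 {k : E n → ℝ} {ε : ℝ} (hk : Avg k ε) {τ ω L : ℝ} (hτ : 0 < τ)
    (hω : ∀ x, ‖mo k f x - f x‖ ≤ ω) :
    ∫ x in Metric.closedBall (0 : E n) L, ‖mo k ψ x - ψ x‖ ^ 2 ≤
      3 * (2 * τ + ω ^ 2) * volume.real (Metric.closedBall (0 : E n) L) +
        6 * (τ ^ 2)⁻¹ * ∫ x, ‖ψ x - f x‖ ^ 6 := by
  have hc := cv_int hk h.id6
  have hP : Integrable fun x => cv k (fun y => ‖ψ y - f y‖ ^ 6) x + ‖ψ x - f x‖ ^ 6 :=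
    hc.1.add h.id6
  have h1 := ball_le (u := fun x => ‖mo k ψ x - ψ x‖ ^ 2) (c0 := 3 * (2 * τ + ω ^ 2))
    (c1 := 3 * (τ ^ 2)⁻¹) (L := L) (by positivity) hP
    (fun x => add_nonneg (cv_nonneg hk (fun y => by positivity) x) (by positivity))
    (fun x => by positivity) (fun x _ => by
      have := h.pt1 hk hτ x (hω x)
      linarith)
  rw [MeasureTheory.integral_add hc.1 h.id6, hc.2] at h1
  linarith

/-- second integrated estimate -/
lemma int2 {k : E n → ℝ} {ε : ℝ} (hk : Avg k ε) {τ ω ν L : ℝ} (hτ : 0 < τ)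
    (hω1 : ∀ x, ‖mo k (fun y => G (f y)) x - G (f x)‖ ≤ ω)
    (hω2 : ∀ x, ‖G (f x) - G (mo k f x)‖ ≤ ω)
    (hν : ∀ x ∈ Metric.closedBall (0 : E n) L, ∀ y, ‖x - y‖ < ε → |V y - V x| ≤ ν) :
    ∫ x in Metric.closedBall (0 : E n) L,
        ‖mo k (nl V ψ) x - (V x + ‖mo k ψ x‖ ^ 2) • mo k ψ x‖ ^ 2 ≤
      10 * ω ^ 2 * volume.real (Metric.closedBall (0 : E n) L) +
        5 * (ν ^ 2 * (∫ x, ‖ψ x‖ ^ 2) + 100 * (τ * (∫ x, ‖f x‖ ^ 6) +
          ((τ ^ 2)⁻¹ + 1) * ∫ x, ‖ψ x - f x‖ ^ 6)) := by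
  have hc2 := cv_int hk h.iψ2
  have hcf := cv_int hk h.if6
  have hcd := cv_int hk h.id6
  set P : E n → ℝ := fun x => 5 * (ν ^ 2 * cv k (fun y => ‖ψ y‖ ^ 2) x +
    100 * (τ * cv k (fun y => ‖f y‖ ^ 6) x +
      ((τ ^ 2)⁻¹ + 1) * cv k (fun y => ‖ψ y - f y‖ ^ 6) x)) with hPdef
  have i1 : Integrable fun x => ν ^ 2 * cv k (fun y => ‖ψ y‖ ^ 2) x := hc2.1.const_mul _
  have i2 : Integrable fun x => τ * cv k (fun y => ‖f y‖ ^ 6) x := hcf.1.const_mul _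
  have i3 : Integrable fun x => ((τ ^ 2)⁻¹ + 1) * cv k (fun y => ‖ψ y - f y‖ ^ 6) x :=
    hcd.1.const_mul _
  have i4 : Integrable fun x => 100 * (τ * cv k (fun y => ‖f y‖ ^ 6) x +
      ((τ ^ 2)⁻¹ + 1) * cv k (fun y => ‖ψ y - f y‖ ^ 6) x) := (i2.add i3).const_mul 100
  have hP : Integrable P := (i1.add i4).const_mul 5
  have ePi : ∫ x, P x = 5 * (ν ^ 2 * (∫ x, ‖ψ x‖ ^ 2) + 100 * (τ * (∫ x, ‖f x‖ ^ 6) +
          ((τ ^ 2)⁻¹ + 1) * ∫ x, ‖ψ x - f x‖ ^ 6)) := by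
    rw [hPdef, MeasureTheory.integral_const_mul, MeasureTheory.integral_add i1 i4,
      MeasureTheory.integral_const_mul, MeasureTheory.integral_const_mul,
      MeasureTheory.integral_add i2 i3, MeasureTheory.integral_const_mul,
      MeasureTheory.integral_const_mul, hc2.2, hcf.2, hcd.2]
  have hP0 : ∀ x, 0 ≤ P x := by
    intro x
    have a1 := cv_nonneg hk (g := fun y => ‖ψ y‖ ^ 2) (fun y => by positivity) x
    have a2 := cv_nonneg hk (g := fun y => ‖f y‖ ^ 6) (fun y => by positivity) x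
    have a3 := cv_nonneg hk (g := fun y => ‖ψ y - f y‖ ^ 6) (fun y => by positivity) x
    rw [hPdef]
    positivity
  have h1 := ball_le
    (u := fun x => ‖mo k (nl V ψ) x - (V x + ‖mo k ψ x‖ ^ 2) • mo k ψ x‖ ^ 2)
    (c0 := 10 * ω ^ 2) (c1 := 1) (L := L) zero_le_one hP hP0 (fun x => by positivity)
    (fun x hx => by
      have := h.pt2 hk hτ x (hω1 x) (hω2 x) (hν x hx)
      rw [hPdef]
      linarith)
  rw [ePi, one_mul] at h1
  exact h1

end Dat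

lemma six (a b : ℂ) : ‖a + b‖ ^ 6 ≤ 32 * (‖a‖ ^ 6 + ‖b‖ ^ 6) := by
  have h := norm_add_le a b
  have h1 : ‖a + b‖ ^ 6 ≤ (‖a‖ + ‖b‖) ^ 6 := by gcongr
  have h2 := add_pow_le (norm_nonneg a) (norm_nonneg b) 6
  norm_num at h2
  linarith

lemma six_int {a b : E n → ℂ} (ha : Integrable fun x => ‖a x‖ ^ 6)
    (hb : Integrable fun x => ‖b x‖ ^ 6) :
    ∫ x, ‖a x + b x‖ ^ 6 ≤ 32 * ((∫ x, ‖a x‖ ^ 6) + ∫ x, ‖b x‖ ^ 6) := by
  rw [← MeasureTheory.integral_add ha hb, ← MeasureTheory.integral_const_mul]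
  exact integral_mono_of_nonneg (ae_of_all _ fun x => by positivity) ((ha.add hb).const_mul 32)
    (ae_of_all _ fun x => six _ _)

/-- the local statement -/
lemma loc (V : E n → ℝ) (ψ : ℝ → E n → ℂ) (C : ℝ) (hV : Continuous V)
    (h2 : ∀ t, MemLp (ψ t) 2 volume) (h6 : ∀ t, MemLp (ψ t) 6 volume)
    (hC : ∀ t, ∫ x, ‖ψ t x‖ ^ 2 ≤ C) (t₀ : ℝ)
    (hc6 : Tendsto (fun t => ∫ x, ‖ψ t x - ψ t₀ x‖ ^ 6) (𝓝 t₀) (𝓝 0))
    (L η : ℝ) (hη : 0 < η) :
    ∃ ε₀ : ℝ, 0 < ε₀ ∧ ∀ᶠ t in 𝓝 t₀, ∀ (ε : ℝ) (k : E n → ℝ), 0 < ε → ε < ε₀ →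
      Avg k ε →
        (∫ x in Metric.closedBall (0 : E n) L, ‖mo k (ψ t) x - ψ t x‖ ^ 2) ≤ η ∧
        (∫ x in Metric.closedBall (0 : E n) L,
          ‖mo k (nl V (ψ t)) x - (V x + ‖mo k (ψ t) x‖ ^ 2) • mo k (ψ t) x‖ ^ 2) ≤ η := by
  set b := volume.real (Metric.closedBall (0 : E n) L) with hb
  have hb0 : 0 ≤ b := measureReal_nonneg
  set A := ∫ x, ‖ψ t₀ x‖ ^ 6 with hA
  have hA0 : 0 ≤ A := integral_nonneg fun x => by positivity
  have hC0 : 0 ≤ C := (integral_nonneg fun x => by positivity).trans (hC t₀)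
  -- τ
  set τ := η / (18 * b + 2000 * (32 * (A + 1)) + 1) with hτd
  have hden : 0 < 18 * b + 2000 * (32 * (A + 1)) + 1 := by positivity
  have hτ : 0 < τ := div_pos hη hden
  have hτe : τ * (18 * b + 2000 * (32 * (A + 1)) + 1) = η := div_mul_cancel₀ _ hden.ne'
  have hτb : 18 * τ * b ≤ η := by
    have : 0 ≤ τ * (2000 * (32 * (A + 1)) + 1) := by positivity
    nlinarith
  have hτA : 2000 * τ * (32 * (A + 1)) ≤ η := by
    have : 0 ≤ τ * (18 * b + 1) := by positivity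
    nlinarith
  -- θ
  set q := (τ ^ 2)⁻¹ with hq
  have hq0 : 0 < q := by positivity
  set θ := min 1 (η / (128000 * (q + 1))) with hθd
  have hθ0 : 0 < θ := by positivity
  have hθ1 : θ ≤ 1 := min_le_left _ _
  have hθe : θ * (128000 * (q + 1)) ≤ η := by
    have h1 : θ ≤ η / (128000 * (q + 1)) := min_le_right _ _
    rwa [le_div_iff₀ (by positivity)] at h1
  -- ω
  set ω := Real.sqrt (η / (40 * (b + 1))) with hωd
  have hω : 0 < ω := by positivity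
  have hω2 : ω ^ 2 * (40 * (b + 1)) = η := by
    rw [hωd, Real.sq_sqrt (by positivity), div_mul_cancel₀ _ (by positivity)]
  have hωb : 40 * ω ^ 2 * b ≤ η := by nlinarith [sq_nonneg ω]
  -- ν
  set ν := Real.sqrt (η / (20 * (C + 1))) with hνd
  have hν : 0 < ν := by positivity
  have hν2 : ν ^ 2 * (20 * (C + 1)) = η := by
    rw [hνd, Real.sq_sqrt (by positivity), div_mul_cancel₀ _ (by positivity)]
  have hνC : 20 * ν ^ 2 * C ≤ η := by nlinarith [sq_nonneg ν]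
  -- the approximation
  obtain ⟨f, hfs, hfa, hfc, -⟩ := MemLp.exists_hasCompactSupport_integral_rpow_sub_le
    (p := 6) (by norm_num) (f := ψ t₀) (μ := volume)
    (by rw [show ENNReal.ofReal 6 = 6 by simp]; exact h6 t₀) hθ0
  have hfa' : ∫ x, ‖ψ t₀ x - f x‖ ^ 6 ≤ θ := by
    have e : ∀ x, ‖ψ t₀ x - f x‖ ^ (6 : ℝ) = ‖ψ t₀ x - f x‖ ^ 6 := fun x => by
      rw [← Real.rpow_natCast]
      norm_num
    simpa only [e] using hfa
  have D : ∀ t, Dat V (ψ t) f := fun t => ⟨hV, h2 t, h6 t, hfc, hfs⟩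
  -- bound of F
  have hF : ∫ x, ‖f x‖ ^ 6 ≤ 32 * (A + 1) := by
    have h1 := six_int (a := ψ t₀) (b := fun x => - (ψ t₀ x - f x)) (D t₀).iψ6
      (by simpa only [norm_neg] using (D t₀).id6)
    simp only [norm_neg] at h1
    have e : ∀ x, ψ t₀ x + -(ψ t₀ x - f x) = f x := fun x => by ring
    simp only [e] at h1
    linarith
  -- the moduli of continuity
  obtain ⟨M, hM⟩ := hfc.bounded_above_of_compact_support hfs
  have hM0 : 0 ≤ M := (norm_nonneg _).trans (hM 0)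
  set ρ := min (min ω 1) (ω / (5 * (M ^ 2 + 1))) with hρd
  have hρ0 : 0 < ρ := by positivity
  have hρω : ρ ≤ ω := (min_le_left _ _).trans (min_le_left _ _)
  have hρ1 : ρ ≤ 1 := (min_le_left _ _).trans (min_le_right _ _)
  have hρM : ρ * (5 * (M ^ 2 + 1)) ≤ ω := by
    have h1 : ρ ≤ ω / (5 * (M ^ 2 + 1)) := min_le_right _ _
    rwa [le_div_iff₀ (by positivity)] at h1
  obtain ⟨δ1, hδ1, hf1⟩ := Metric.uniformContinuous_iff.1
    (hfs.uniformContinuous_of_continuous hfc) ρ hρ0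
  obtain ⟨δ2, hδ2, hf2⟩ := Metric.uniformContinuous_iff.1
    ((D t₀).sGf.uniformContinuous_of_continuous (D t₀).cGf) ω hω
  obtain ⟨δ3, hδ3, hf3⟩ := Metric.uniformContinuousOn_iff.1
    ((isCompact_closedBall (0 : E n) (L + 1)).uniformContinuousOn_of_continuous
      hV.continuousOn) ν hν
  refine ⟨min (min δ1 δ2) (min δ3 1), by positivity, ?_⟩
  have hev : ∀ᶠ t in 𝓝 t₀, ∫ x, ‖ψ t x - ψ t₀ x‖ ^ 6 < θ := hc6.eventually (gt_mem_nhds hθ0)
  filter_upwards [hev] with t ht ε k hε hε' hk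
  have e1 : ε ≤ δ1 := hε'.le.trans ((min_le_left _ _).trans (min_le_left _ _))
  have e2 : ε ≤ δ2 := hε'.le.trans ((min_le_left _ _).trans (min_le_right _ _))
  have e3 : ε ≤ δ3 := hε'.le.trans ((min_le_right _ _).trans (min_le_left _ _))
  have e4 : ε ≤ 1 := hε'.le.trans ((min_le_right _ _).trans (min_le_right _ _))
  have c1 : ∀ x, ‖mo k f x - f x‖ ≤ ρ := fun x => mo_close hk e1 hfc x fun y hy => by
    have := hf1 (a := y) (b := x) (by rw [dist_eq_norm, norm_sub_rev]; exact hy)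
    rw [dist_eq_norm] at this
    exact this.le
  have c2 : ∀ x, ‖mo k (fun y => G (f y)) x - G (f x)‖ ≤ ω := fun x =>
    mo_close hk e2 (D t₀).cGf x fun y hy => by
      have := hf2 (a := y) (b := x) (by rw [dist_eq_norm, norm_sub_rev]; exact hy)
      rw [dist_eq_norm] at this
      exact this.le
  have c3 : ∀ x, ‖G (f x) - G (mo k f x)‖ ≤ ω := by
    intro x
    have h1 := cubic (mo k f x) (f x)
    rw [norm_sub_rev] at h1
    have h2' := c1 x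
    have h3 := hM x
    have h4 := norm_nonneg (mo k f x - f x)
    have h5 := norm_nonneg (f x)
    set e := ‖mo k f x - f x‖
    have h6' : ‖f x‖ ^ 2 * e ≤ M ^ 2 * ρ := by gcongr
    have h7 : e ^ 3 ≤ ρ := by
      calc e ^ 3 ≤ ρ ^ 3 := by gcongr
        _ ≤ ρ ^ 1 := pow_le_pow_of_le_one hρ0.le hρ1 (by norm_num)
        _ = ρ := pow_one ρ
    nlinarith
  have c4 : ∀ x ∈ Metric.closedBall (0 : E n) L, ∀ y, ‖x - y‖ < ε → |V y - V x| ≤ ν := by
    intro x hx y hy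
    rw [mem_closedBall_zero_iff] at hx
    have hy' : ‖y‖ ≤ L + 1 := by
      calc ‖y‖ = ‖x - (x - y)‖ := by congr 1; abel
        _ ≤ ‖x‖ + ‖x - y‖ := norm_sub_le _ _
        _ ≤ L + 1 := by linarith
    have := hf3 y (by rw [mem_closedBall_zero_iff]; exact hy') x
      (by rw [mem_closedBall_zero_iff]; linarith)
      (by rw [dist_eq_norm, norm_sub_rev]; exact hy.trans_le e3)
    rw [Real.dist_eq] at this
    exact this.le
  -- bound of D
  have hD : ∫ x, ‖ψ t x - f x‖ ^ 6 ≤ 64 * θ := by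
    have i1 : Integrable fun x => ‖ψ t x - ψ t₀ x‖ ^ 6 :=
      ((h6 t).sub (h6 t₀)).integrable_norm_pow (by norm_num)
    have h1 := six_int (a := fun x => ψ t x - ψ t₀ x) (b := fun x => ψ t₀ x - f x) i1 (D t₀).id6
    have e : ∀ x, ψ t x - ψ t₀ x + (ψ t₀ x - f x) = ψ t x - f x := fun x => by ring
    simp only [e] at h1
    linarith
  have hD0 : 0 ≤ ∫ x, ‖ψ t x - f x‖ ^ 6 := integral_nonneg fun x => by positivity
  have hF0 : 0 ≤ ∫ x, ‖f x‖ ^ 6 := integral_nonneg fun x => by positivity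
  have I1 := (D t).int1 hk (L := L) hτ (fun x => (c1 x).trans hρω)
  have I2 := (D t).int2 hk (L := L) hτ c2 c3 c4
  rw [← hb, ← hq] at I1 I2
  set DD := ∫ x, ‖ψ t x - f x‖ ^ 6
  set FF := ∫ x, ‖f x‖ ^ 6
  have hqD : 2000 * ((q + 1) * DD) ≤ η := by
    have : (q + 1) * DD ≤ (q + 1) * (64 * θ) := mul_le_mul_of_nonneg_left hD (by positivity)
    nlinarith
  have hτF : 2000 * τ * FF ≤ η :=
    (mul_le_mul_of_nonneg_left hF (by positivity)).trans hτA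
  have hνI : 20 * ν ^ 2 * (∫ x, ‖ψ t x‖ ^ 2) ≤ η :=
    (mul_le_mul_of_nonneg_left (hC t) (by positivity)).trans hνC
  have hqD0 : 0 ≤ q * DD := by positivity
  constructor
  · nlinarith
  · nlinarith

end ErrM

open ErrM in
/-- module NLN_ERR -/
theorem err : ErrStmt := by
  intro n V Vm ψ C hV _ h2 h6 hC _ hc6 T L η hη
  have key := isCompact_Icc (a := -T) (b := T) |>.induction_on
    (p := fun S => ∃ ε₀ : ℝ, 0 < ε₀ ∧ ∀ (ε : ℝ) (k : E n → ℝ), 0 < ε → ε < ε₀ →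
      Avg k ε → ∀ t ∈ S,
        (∫ x in Metric.closedBall (0 : E n) L, ‖mo k (ψ t) x - ψ t x‖ ^ 2) ≤ η ∧
        (∫ x in Metric.closedBall (0 : E n) L,
          ‖mo k (nl V (ψ t)) x - (V x + ‖mo k (ψ t) x‖ ^ 2) • mo k (ψ t) x‖ ^ 2) ≤ η)
    ⟨1, one_pos, fun ε k _ _ _ t ht => absurd ht (Set.notMem_empty t)⟩
    (fun S S' hS ⟨ε₀, h0, h⟩ => ⟨ε₀, h0, fun ε k a1 a2 a3 t ht => h ε k a1 a2 a3 t (hS ht)⟩)
    (fun S S' ⟨ε₀, h0, h⟩ ⟨ε₁, h1, h'⟩ => ⟨min ε₀ ε₁, lt_min h0 h1, fun ε k a1 a2 a3 t ht =>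
      ht.elim (fun ht => h ε k a1 (a2.trans_le (min_le_left _ _)) a3 t ht)
        (fun ht => h' ε k a1 (a2.trans_le (min_le_right _ _)) a3 t ht)⟩)
    (fun t₀ _ => by
      obtain ⟨ε₀, h0, hev⟩ := loc V ψ C hV h2 h6 hC t₀ (hc6 t₀) L η hη
      exact ⟨_, mem_nhdsWithin_of_mem_nhds hev, ε₀, h0,
        fun ε k a1 a2 a3 t ht => ht ε k a1 a2 a3⟩)
  exact key

end

end Pool.Agent.Lib_helper40.NLN
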