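import Pool.Agent.Lib_helper40.NLN.Stmts
import Pool.Agent.Lib_helper40.NLN.Err

/-!
# Contraction properties of averages in `L²` and `L⁴` (module NLN_CON)
-/

namespace Pool.Agent.Lib_helper40.NLN

open MeasureTheory Set Filter Topology

noncomputable section

namespace ConM

variable {n : ℕ}

lemma mo_cont {k : E n → ℝ} (hk : Ker k) {f : E n → ℂ} (hf : LocallyIntegrable f volume) :
    Continuous (mo k f) :=
  (hk.2.contDiff_convolution_left (n := 1) (ContinuousLinearMap.lsmul ℝ ℝ)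
    (hk.1.of_le (by exact_mod_cast le_top)) hf).continuous

/-- Jensen for the fourth power -/
lemma j4 {w : E n → ℝ} (hw : ErrM.W w) {d : E n → ℂ} (h1 : Integrable fun y => w y • d y)
    (h2 : Integrable fun y => w y * ‖d y‖ ^ 2) (h4 : Integrable fun y => w y * ‖d y‖ ^ 4) :
    ‖∫ y, w y • d y‖ ^ 4 ≤ ∫ y, w y * ‖d y‖ ^ 4 := by
  set u : E n → ℝ := fun y => ‖d y‖ ^ 2 with hu
  have e : ∀ y, w y * ‖d y‖ ^ 4 = w y * u y ^ 2 := fun y => by simp only [hu]; ring
  simp only [e] at h4 ⊢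
  set a := ∫ y, w y * u y with ha
  have h0 : 0 ≤ ∫ y, w y * (u y - a) ^ 2 :=
    integral_nonneg fun y => mul_nonneg (hw.nn _) (by positivity)
  have e1 : ∀ y, w y * (u y - a) ^ 2 =
      w y * u y ^ 2 - 2 * a * (w y * u y) + w y * a ^ 2 := fun y => by ring
  simp only [e1] at h0
  have i4 : Integrable fun y => w y * u y ^ 2 - 2 * a * (w y * u y) :=
    h4.sub (h2.const_mul _)
  rw [MeasureTheory.integral_add i4 (hw.integrable.mul_const _),
    MeasureTheory.integral_sub h4 (h2.const_mul _),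
    MeasureTheory.integral_const_mul, MeasureTheory.integral_mul_const, hw.int, ← ha] at h0
  have h5 : ‖∫ y, w y • d y‖ ^ 2 ≤ a := hw.j2 h1 h2
  calc ‖∫ y, w y • d y‖ ^ 4 = (‖∫ y, w y • d y‖ ^ 2) ^ 2 := by ring
    _ ≤ a ^ 2 := by gcongr
    _ ≤ _ := by nlinarith

end ConM

theorem con_stmt : ConStmt := by
  intro n k ε hk f hf
  have hloc : LocallyIntegrable f volume := hf.locallyIntegrable (by norm_num)
  have hf2 : Integrable (fun y => ‖f y‖ ^ 2) := hf.integrable_norm_pow (by norm_num)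
  have hc : Continuous (mo k f) := ConM.mo_cont hk.ker hloc
  refine ⟨?_, fun hf6 => ?_⟩
  · obtain ⟨h1, h2⟩ := ErrM.cv_int hk hf2
    have hp : ∀ x, ‖mo k f x‖ ^ 2 ≤ ErrM.cv k (fun y => ‖f y‖ ^ 2) x := fun x => by
      have hw := ErrM.W.of_avg hk x
      rw [ErrM.mo_eq]
      exact hw.j2 (hw.smul_int hloc) (hw.mul_int hf2)
    have h3 : Integrable (fun x => ‖mo k f x‖ ^ 2) := by
      refine h1.mono' (hc.norm.pow 2).aestronglyMeasurable (ae_of_all _ fun x => ?_)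
      rw [norm_pow, norm_norm]
      exact hp x
    refine ⟨h3, ?_⟩
    rw [← h2]
    exact integral_mono h3 h1 hp
  · have hf6' : Integrable (fun y => ‖f y‖ ^ 6) := hf6.integrable_norm_pow (by norm_num)
    have h46 : ∀ y, ‖f y‖ ^ 4 ≤ 1 / 2 * (‖f y‖ ^ 2 + ‖f y‖ ^ 6) := fun y => by
      have : 0 ≤ ‖f y‖ ^ 2 * (‖f y‖ ^ 2 - 1) ^ 2 := by positivity
      nlinarith
    have i26 : Integrable (fun y => 1 / 2 * (‖f y‖ ^ 2 + ‖f y‖ ^ 6)) :=
      (hf2.add hf6').const_mul _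
    have hf4 : Integrable (fun y => ‖f y‖ ^ 4) := by
      refine i26.mono' (hf.aestronglyMeasurable.norm.pow 4) (ae_of_all _ fun y => ?_)
      rw [norm_pow, norm_norm]
      exact h46 y
    obtain ⟨h1, h2⟩ := ErrM.cv_int hk hf4
    have hp : ∀ x, ‖mo k f x‖ ^ 4 ≤ ErrM.cv k (fun y => ‖f y‖ ^ 4) x := fun x => by
      have hw := ErrM.W.of_avg hk x
      rw [ErrM.mo_eq]
      exact ConM.j4 hw (hw.smul_int hloc) (hw.mul_int hf2) (hw.mul_int hf4)
    have h3 : Integrable (fun x => ‖mo k f x‖ ^ 4) := by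
      refine h1.mono' (hc.norm.pow 4).aestronglyMeasurable (ae_of_all _ fun x => ?_)
      rw [norm_pow, norm_norm]
      exact hp x
    refine ⟨h3, ?_⟩
    calc ∫ x, ‖mo k f x‖ ^ 4 ≤ ∫ x, ErrM.cv k (fun y => ‖f y‖ ^ 4) x :=
          integral_mono h3 h1 hp
      _ = ∫ y, ‖f y‖ ^ 4 := h2
      _ ≤ ∫ y, 1 / 2 * (‖f y‖ ^ 2 + ‖f y‖ ^ 6) := integral_mono hf4 i26 h46
      _ = _ := by
        rw [MeasureTheory.integral_const_mul, MeasureTheory.integral_add hf2 hf6']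

end

end Pool.Agent.Lib_helper40.NLN
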