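import Pool.Agent.Lib_helper40.NLN.Stmts
import Pool.Agent.Lib_helper40.NLV.Field

/-!
# The radial multiplier
-/

namespace Pool.Agent.Lib_helper40.NLN

open MeasureTheory Set Filter Topology intervalIntegral

noncomputable section

/-- the potential in the variable `τ = |x|²/2`, divided by `|x|²` -/
def vtl (W : ℝ → ℝ) (κ : ℝ) (τ : ℝ) : ℝ := W (√(2 * max τ 0)) / max (2 * τ) (κ ^ 2)

lemma vtl_den {κ : ℝ} (hκ : 0 < κ) (τ : ℝ) : 0 < max (2 * τ) (κ ^ 2) :=
  lt_max_of_lt_right (pow_pos hκ 2)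

lemma vtl_cont {W : ℝ → ℝ} (hW : Continuous W) {κ : ℝ} (hκ : 0 < κ) :
    Continuous (vtl W κ) := by
  unfold vtl
  refine Continuous.div ?_ ?_ (fun τ => (vtl_den hκ τ).ne')
  · exact hW.comp (by fun_prop)
  · fun_prop

lemma vtl_nonneg {W : ℝ → ℝ} (hW0 : ∀ r, 0 ≤ W r) {κ : ℝ} (hκ : 0 < κ) (τ : ℝ) :
    0 ≤ vtl W κ τ := div_nonneg (hW0 _) (vtl_den hκ τ).le

lemma vtl_le {W : ℝ → ℝ} (hW0 : ∀ r, 0 ≤ W r) {κ : ℝ} (hκ : 0 < κ) {τ : ℝ} (hτ : 0 ≤ τ) :
    2 * τ * vtl W κ τ ≤ W (√(2 * τ)) := by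
  unfold vtl
  rw [max_eq_left hτ, mul_div_assoc', div_le_iff₀ (vtl_den hκ τ), mul_comm (2 * τ)]
  exact mul_le_mul_of_nonneg_left (le_max_left _ _) (hW0 _)

lemma vtl_eq {W : ℝ → ℝ} {κ : ℝ} (hκ : 0 < κ) {τ : ℝ} (hτ : κ ^ 2 < 2 * τ) :
    W (√(2 * τ)) = 2 * τ * vtl W κ τ := by
  have h0 : 0 < κ ^ 2 := pow_pos hκ 2
  have h1 : 0 < 2 * τ := h0.trans hτ
  unfold vtl
  rw [max_eq_left (by linarith : (0 : ℝ) ≤ τ), max_eq_left hτ.le]
  exact (mul_div_cancel₀ _ h1.ne').symm

/-- change of variables `y = r²/2` -/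
lemma int_sqrt {W : ℝ → ℝ} (hW : Continuous W) {b : ℝ} (hb : 0 ≤ b) :
    ∫ y in (0 : ℝ)..b, W (√(2 * y)) = ∫ r in (0 : ℝ)..√(2 * b), r * W r := by
  have h := intervalIntegral.integral_comp_mul_deriv (a := 0) (b := √(2 * b))
    (f := fun r : ℝ => r ^ 2 / 2) (f' := fun r : ℝ => r) (g := fun u : ℝ => W (√(2 * u)))
    (fun x _ => by
      have := (hasDerivAt_pow 2 x).div_const 2
      refine this.congr_deriv ?_
      simp) continuous_id.continuousOn (hW.comp (by fun_prop))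
  have e1 : (√(2 * b)) ^ 2 / 2 = b := by
    rw [Real.sq_sqrt (by linarith)]; ring
  have e0 : (0 : ℝ) ^ 2 / 2 = 0 := by norm_num
  simp only [e1, e0] at h
  rw [← h]
  refine intervalIntegral.integral_congr fun r hr => ?_
  rw [uIcc_of_le (Real.sqrt_nonneg _)] at hr
  simp only [Function.comp]
  have e2 : √(2 * (r ^ 2 / 2)) = r := by
    rw [show 2 * (r ^ 2 / 2) = r ^ 2 by ring, Real.sqrt_sq hr.1]
  rw [e2, mul_comm]

lemma vtl_int {W : ℝ → ℝ} (hW : Continuous W) (hW0 : ∀ r, 0 ≤ W r)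
    (hWi : IntegrableOn (fun r => r * W r) (Ioi 0)) {κ : ℝ} (hκ : 0 < κ) {c b : ℝ}
    (hc : 0 ≤ c) (hcb : c ≤ b) :
    2 * ∫ y in c..b, y * vtl W κ y ≤ ∫ r in Ioi 0, r * W r := by
  have hV := vtl_cont hW hκ
  have hb : 0 ≤ b := hc.trans hcb
  calc 2 * ∫ y in c..b, y * vtl W κ y = ∫ y in c..b, 2 * (y * vtl W κ y) :=
        (intervalIntegral.integral_const_mul _ _).symm
    _ ≤ ∫ y in (0 : ℝ)..b, 2 * (y * vtl W κ y) := by
        refine intervalIntegral.integral_mono_interval hc hcb le_rfl ?_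
          ((by fun_prop : Continuous fun y => 2 * (y * vtl W κ y)).intervalIntegrable _ _)
        refine (ae_restrict_iff' measurableSet_Ioc).2 (ae_of_all _ fun y hy => ?_)
        have := vtl_nonneg hW0 hκ y
        have := hy.1
        simp only [Pi.zero_apply]
        positivity
    _ ≤ ∫ y in (0 : ℝ)..b, W (√(2 * y)) := by
        refine intervalIntegral.integral_mono_on hb
          ((by fun_prop : Continuous fun y => 2 * (y * vtl W κ y)).intervalIntegrable _ _)
          ((hW.comp (by fun_prop) : Continuous fun y => W (√(2 * y))).intervalIntegrable _ _)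
          (fun y hy => ?_)
        rw [← mul_assoc]
        exact vtl_le hW0 hκ hy.1
    _ = ∫ r in (0 : ℝ)..√(2 * b), r * W r := int_sqrt hW hb
    _ = ∫ r in Ioc 0 (√(2 * b)), r * W r :=
        intervalIntegral.integral_of_le (Real.sqrt_nonneg _)
    _ ≤ ∫ r in Ioi 0, r * W r := by
        refine setIntegral_mono_set hWi ?_ (LE.le.eventuallyLE Ioc_subset_Ioi_self)
        refine (ae_restrict_iff' measurableSet_Ioi).2 (ae_of_all _ fun r hr => ?_)
        exact mul_nonneg (le_of_lt hr) (hW0 r)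

theorem fld_stmt : FldStmt := by
  intro W hW hW0 hWi κ b hκ hb
  have hV := vtl_cont hW hκ
  have hV0 := vtl_nonneg hW0 hκ
  obtain ⟨h, p, hh, hp, hb1, pb, h1, hpn⟩ := NLV.exists_ode hV b hV0
  have hcont : Continuous h := continuous_iff_continuousAt.2 fun x => (hh x).continuousAt
  have hpos : ∀ x, 0 < h x := fun x => one_pos.trans_le (h1 x)
  have hpint : ∀ x, p x = -∫ y in x..b, vtl W κ y * h y := by
    intro x
    have := intervalIntegral.integral_eq_sub_of_hasDerivAt (a := x) (b := b)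
      (f := p) (f' := fun y => vtl W κ y * h y) (fun y _ => hp y)
      ((hV.mul hcont).intervalIntegrable _ _)
    rw [this, pb]; ring
  have hanti : ∀ x y, x ≤ y → y ≤ b → h y ≤ h x := by
    have : AntitoneOn h (Iic b) := by
      refine antitoneOn_of_deriv_nonpos (convex_Iic b) hcont.continuousOn
        (fun x _ => (hh x).differentiableAt.differentiableWithinAt) (fun x hx => ?_)
      rw [interior_Iic] at hx
      rw [(hh x).deriv]
      exact hpn x (le_of_lt hx)
    intro x y hxy hy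
    exact this (show x ∈ Iic b from hxy.trans hy) hy hxy
  refine ⟨vtl W κ, fun x => (h x ^ 2)⁻¹, fun x => p x / h x, hV, hV0,
    fun τ hτ => vtl_le hW0 hκ hτ, fun τ hτ => vtl_eq hκ hτ, ⟨fun x => ?_, fun x => ?_⟩,
    fun x => ⟨by positivity, ?_⟩, fun τ h0 hτ => ?_, fun τ hτ => ?_, fun τ h0 hτ => ?_⟩
  · have := ((hh x).pow 2).inv (pow_ne_zero 2 (hpos x).ne')
    refine this.congr_deriv ?_
    have := (hpos x).ne'
    field_simp
    simp only [Pi.pow_apply]
    ring
  · have := (hp x).div (hh x) (hpos x).ne'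
    refine this.congr_deriv ?_
    have := (hpos x).ne'
    field_simp
  · exact inv_le_one_of_one_le₀ (one_le_pow₀ (h1 x))
  · have e1 : h τ ≤ Real.exp (∫ y in (0 : ℝ)..b, (y - 0) * vtl W κ y) :=
      (hanti 0 τ h0 hτ).trans (NLV.ode_upper hV hV0 hh hp hb1 pb hpn hb.le)
    simp only [sub_zero] at e1
    have e2 := vtl_int hW hW0 hWi hκ le_rfl hb.le
    rw [Real.exp_neg]
    refine inv_anti₀ (pow_pos (hpos τ) 2) ?_
    calc h τ ^ 2 ≤ Real.exp (∫ y in (0 : ℝ)..b, y * vtl W κ y) ^ 2 := by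
          gcongr; exact (hpos τ).le
      _ = Real.exp (2 * ∫ y in (0 : ℝ)..b, y * vtl W κ y) := by
          rw [← Real.exp_nat_mul]; norm_num
      _ ≤ _ := Real.exp_le_exp.2 e2
  · exact div_nonpos_of_nonpos_of_nonneg (hpn τ hτ) (hpos τ).le
  · have e2 := vtl_int hW hW0 hWi hκ h0 hτ
    have e3 : -(p τ / h τ) ≤ ∫ y in τ..b, vtl W κ y := by
      rw [← neg_div, div_le_iff₀ (hpos τ), hpint τ, neg_neg]
      calc ∫ y in τ..b, vtl W κ y * h y ≤ ∫ y in τ..b, h τ * vtl W κ y := by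
            refine intervalIntegral.integral_mono_on hτ ((hV.mul hcont).intervalIntegrable _ _)
              ((continuous_const.mul hV).intervalIntegrable _ _) (fun y hy => ?_)
            have := hanti τ y hy.1 hy.2
            have := hV0 y
            nlinarith
        _ = h τ * ∫ y in τ..b, vtl W κ y := intervalIntegral.integral_const_mul _ _
        _ = (∫ y in τ..b, vtl W κ y) * h τ := mul_comm _ _
    have e4 : τ * ∫ y in τ..b, vtl W κ y ≤ ∫ y in τ..b, y * vtl W κ y := by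
      rw [← intervalIntegral.integral_const_mul]
      refine intervalIntegral.integral_mono_on hτ ((continuous_const.mul hV).intervalIntegrable _ _)
        ((continuous_id.mul hV).intervalIntegrable _ _) (fun y hy => ?_)
      exact mul_le_mul_of_nonneg_right hy.1 (hV0 y)
    calc -(p τ / h τ) * (2 * τ) ≤ (∫ y in τ..b, vtl W κ y) * (2 * τ) :=
          mul_le_mul_of_nonneg_right e3 (by linarith)
      _ = 2 * (τ * ∫ y in τ..b, vtl W κ y) := by ring
      _ ≤ 2 * ∫ y in τ..b, y * vtl W κ y := by linarith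
      _ ≤ _ := e2

end

end Pool.Agent.Lib_helper40.NLN
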