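import Pool.Agent.Lib_helper40.NLN.Defs

/-!
# The Sobolev inequality `H¹ ⊂ L⁶` in dimensions `2` and `3`
-/

namespace Pool.Agent.Lib_helper40.NLN

open MeasureTheory Set Filter Topology
open scoped ENNReal NNReal

noncomputable section

variable {n : ℕ}

/-! ## Smooth functions -/

/-- Cauchy-Schwarz for extended nonnegative functions -/
private lemma sb_cs {a b : E n → ℝ≥0∞} (ha : AEMeasurable a) (hb : AEMeasurable b) :
    (∫⁻ x, a x * b x) ^ 2 ≤ (∫⁻ x, a x ^ 2) * ∫⁻ x, b x ^ 2 := by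
  have h := ENNReal.lintegral_mul_le_Lp_mul_Lq volume Real.HolderConjugate.two_two ha hb
  have h2 : ((∫⁻ x, a x ^ (2 : ℝ)) ^ (1 / (2 : ℝ)) * (∫⁻ x, b x ^ (2 : ℝ)) ^ (1 / (2 : ℝ))) ^ 2 =
      (∫⁻ x, a x ^ 2) * ∫⁻ x, b x ^ 2 := by
    rw [mul_pow, ← ENNReal.rpow_natCast, ← ENNReal.rpow_natCast, ← ENNReal.rpow_mul,
      ← ENNReal.rpow_mul]
    norm_num
  rw [← h2]
  exact pow_le_pow_left₀ (by simp) h 2

/-- `L²` bound by the `L¹` norm of the gradient in the plane -/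
private lemma sb_two : ∃ C : ℝ≥0, ∀ u : E 2 → ℝ, ContDiff ℝ 1 u → HasCompactSupport u →
    ∫⁻ x, ‖u x‖ₑ ^ 2 ≤ C * (∫⁻ x, ‖fderiv ℝ u x‖ₑ) ^ 2 := by
  refine ⟨lintegralPowLePowLIntegralFDerivConst (volume : Measure (E 2)) 2, fun u hu hc => ?_⟩
  have hp : Real.HolderConjugate (Module.finrank ℝ (E 2) : ℝ) 2 := by
    rw [finrank_euclideanSpace_fin]
    exact Real.HolderConjugate.two_two
  have h := lintegral_pow_le_pow_lintegral_fderiv volume hu hc hp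
  simpa only [ENNReal.rpow_two] using h

private lemma sb_real2 : ∃ K : ℝ≥0, ∀ g : E 2 → ℝ, ContDiff ℝ 1 g → HasCompactSupport g →
    ∫⁻ x, ‖g x‖ₑ ^ 6 ≤ K * ((∫⁻ x, ‖g x‖ₑ ^ 2) + ∫⁻ x, ‖fderiv ℝ g x‖ₑ ^ 2) ^ 3 := by
  obtain ⟨C, hC⟩ := sb_two
  refine ⟨C * 9 * (C * 4), fun g hg hc => ?_⟩
  have hgm : AEMeasurable (fun x => ‖g x‖ₑ) := hg.continuous.enorm.aemeasurable
  have hdc : Continuous (fderiv ℝ g) := hg.continuous_fderiv (by norm_num)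
  have hdm : AEMeasurable (fun x => ‖fderiv ℝ g x‖ₑ) := hdc.enorm.aemeasurable
  have hd : ∀ x, HasFDerivAt g (fderiv ℝ g x) x := fun x =>
    (hg.differentiable (by norm_num) x).hasFDerivAt
  have hpow : ∀ m : ℕ, m ≠ 0 → HasCompactSupport fun x => g x ^ m := fun m hm =>
    hc.comp_left (g := fun y : ℝ => y ^ m) (by simp [hm])
  have hder : ∀ (m : ℕ) x, ‖fderiv ℝ (fun y => g y ^ m) x‖ₑ =
      m * (‖g x‖ₑ ^ (m - 1) * ‖fderiv ℝ g x‖ₑ) := by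
    intro m x
    have h1 := (hd x).pow m
    rw [h1.fderiv, enorm_smul]
    simp only [nsmul_eq_mul, enorm_mul, enorm_pow, mul_assoc]
    congr 1
    rw [Real.enorm_natCast]
  have h4 := hC _ (hg.pow 2) (hpow 2 (by norm_num))
  have h6 := hC _ (hg.pow 3) (hpow 3 (by norm_num))
  have e4 : ∫⁻ x, ‖g x‖ₑ ^ 4 ≤ C * 4 * ((∫⁻ x, ‖g x‖ₑ ^ 2) * ∫⁻ x, ‖fderiv ℝ g x‖ₑ ^ 2) := by
    simp only [hder, enorm_pow, ← pow_mul] at h4
    rw [lintegral_const_mul' _ _ (by simp)] at h4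
    have c4 := sb_cs hgm hdm
    norm_num at h4
    calc _ ≤ _ := h4
      _ = C * 4 * (∫⁻ x, ‖g x‖ₑ * ‖fderiv ℝ g x‖ₑ) ^ 2 := by rw [mul_pow]; norm_num; ring
      _ ≤ _ := by gcongr
  have e6 : ∫⁻ x, ‖g x‖ₑ ^ 6 ≤ C * 9 * ((∫⁻ x, ‖g x‖ₑ ^ 4) * ∫⁻ x, ‖fderiv ℝ g x‖ₑ ^ 2) := by
    simp only [hder, enorm_pow, ← pow_mul] at h6
    rw [lintegral_const_mul' _ _ (by simp)] at h6
    have c6 := sb_cs (hgm.pow_const 2) hdm
    simp only [← pow_mul] at c6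
    norm_num at h6 c6
    calc _ ≤ _ := h6
      _ = C * 9 * (∫⁻ x, ‖g x‖ₑ ^ 2 * ‖fderiv ℝ g x‖ₑ) ^ 2 := by rw [mul_pow]; norm_num; ring
      _ ≤ _ := by gcongr
  set G2 := ∫⁻ x, ‖g x‖ₑ ^ 2
  set D2 := ∫⁻ x, ‖fderiv ℝ g x‖ₑ ^ 2
  calc ∫⁻ x, ‖g x‖ₑ ^ 6 ≤ C * 9 * ((C * 4 * (G2 * D2)) * D2) := e6.trans (by gcongr)
    _ = ((C * 9 * (C * 4) : ℝ≥0) : ℝ≥0∞) * (G2 * D2 * D2) := by push_cast; ring
    _ ≤ ((C * 9 * (C * 4) : ℝ≥0) : ℝ≥0∞) * ((G2 + D2) * (G2 + D2) * (G2 + D2)) := by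
        gcongr
        · exact le_self_add
        · exact le_add_self
        · exact le_add_self
    _ = _ := by ring

private lemma sb_real3 : ∃ K : ℝ≥0, ∀ g : E 3 → ℝ, ContDiff ℝ 1 g → HasCompactSupport g →
    ∫⁻ x, ‖g x‖ₑ ^ 6 ≤ K * ((∫⁻ x, ‖g x‖ₑ ^ 2) + ∫⁻ x, ‖fderiv ℝ g x‖ₑ ^ 2) ^ 3 := by
  refine ⟨(SNormLESNormFDerivOfEqConst ℝ (volume : Measure (E 3)) (2 : ℝ≥0)) ^ 6,
    fun g hg hc => ?_⟩
  have hfr : Module.finrank ℝ (E 3) = 3 := finrank_euclideanSpace_fin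
  have h := eLpNorm_le_eLpNorm_fderiv_of_eq (μ := (volume : Measure (E 3))) (F := ℝ) hg hc
    (p := 2) (p' := 6) (by norm_num) (by rw [hfr]; norm_num) (by rw [hfr]; norm_num)
  set C := SNormLESNormFDerivOfEqConst ℝ (volume : Measure (E 3)) (2 : ℝ≥0)
  have h6 : eLpNorm g (6 : ℝ≥0) volume ^ 6 = ∫⁻ x, ‖g x‖ₑ ^ 6 := by
    have := eLpNorm_nnreal_pow_eq_lintegral (μ := (volume : Measure (E 3))) (f := g)
      (p := 6) (by norm_num)
    have e : ((6 : ℝ≥0) : ℝ) = ((6 : ℕ) : ℝ) := by norm_num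
    simpa only [e, ENNReal.rpow_natCast] using this
  have h2 : eLpNorm (fderiv ℝ g) (2 : ℝ≥0) volume ^ 2 = ∫⁻ x, ‖fderiv ℝ g x‖ₑ ^ 2 := by
    have := eLpNorm_nnreal_pow_eq_lintegral (μ := (volume : Measure (E 3))) (f := fderiv ℝ g)
      (p := 2) (by norm_num)
    have e : ((2 : ℝ≥0) : ℝ) = ((2 : ℕ) : ℝ) := by norm_num
    simpa only [e, ENNReal.rpow_natCast] using this
  calc ∫⁻ x, ‖g x‖ₑ ^ 6 = eLpNorm g (6 : ℝ≥0) volume ^ 6 := h6.symm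
    _ ≤ (C * eLpNorm (fderiv ℝ g) (2 : ℝ≥0) volume) ^ 6 := pow_le_pow_left₀ (by simp) h 6
    _ = C ^ 6 * (eLpNorm (fderiv ℝ g) (2 : ℝ≥0) volume ^ 2) ^ 3 := by ring
    _ = C ^ 6 * (∫⁻ x, ‖fderiv ℝ g x‖ₑ ^ 2) ^ 3 := by rw [h2]
    _ ≤ C ^ 6 * ((∫⁻ x, ‖g x‖ₑ ^ 2) + ∫⁻ x, ‖fderiv ℝ g x‖ₑ ^ 2) ^ 3 := by
        gcongr; exact le_add_self
    _ = _ := by push_cast; rfl

private lemma sb_real (hn : n = 2 ∨ n = 3) : ∃ K : ℝ≥0, ∀ g : E n → ℝ, ContDiff ℝ 1 g →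
    HasCompactSupport g →
    ∫⁻ x, ‖g x‖ₑ ^ 6 ≤ K * ((∫⁻ x, ‖g x‖ₑ ^ 2) + ∫⁻ x, ‖fderiv ℝ g x‖ₑ ^ 2) ^ 3 := by
  rcases hn with rfl | rfl
  · exact sb_real2
  · exact sb_real3

/-- complex valued version -/
private lemma sb_cplx (hn : n = 2 ∨ n = 3) : ∃ K : ℝ≥0, ∀ g : E n → ℂ, ContDiff ℝ 1 g →
    HasCompactSupport g →
    ∫⁻ x, ‖g x‖ₑ ^ 6 ≤ K * ((∫⁻ x, ‖g x‖ₑ ^ 2) + ∫⁻ x, ‖fderiv ℝ g x‖ₑ ^ 2) ^ 3 := by
  obtain ⟨K, hK⟩ := sb_real (n := n) hn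
  refine ⟨4 * (K + K), fun g hg hc => ?_⟩
  have key : ∀ (L : ℂ →L[ℝ] ℝ), ‖L‖ ≤ 1 → ∫⁻ x, ‖L (g x)‖ₑ ^ 6 ≤
      K * ((∫⁻ x, ‖g x‖ₑ ^ 2) + ∫⁻ x, ‖fderiv ℝ g x‖ₑ ^ 2) ^ 3 := by
    intro L hL
    have h1 : ContDiff ℝ 1 fun x => L (g x) := L.contDiff.comp hg
    have h2 : HasCompactSupport fun x => L (g x) := hc.comp_left (map_zero L)
    have h3 : ∀ y : ℂ, ‖L y‖ₑ ≤ ‖y‖ₑ := fun y => by
      rw [enorm_le_iff_norm_le]
      calc ‖L y‖ ≤ ‖L‖ * ‖y‖ := L.le_opNorm y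
        _ ≤ 1 * ‖y‖ := by gcongr
        _ = ‖y‖ := one_mul _
    have h4 : ∀ x, ‖fderiv ℝ (fun x => L (g x)) x‖ₑ ≤ ‖fderiv ℝ g x‖ₑ := by
      intro x
      have hd : HasFDerivAt g (fderiv ℝ g x) x :=
        (hg.differentiable (by norm_num) x).hasFDerivAt
      have := (L.hasFDerivAt (x := g x)).comp x hd
      have e : fderiv ℝ (fun x => L (g x)) x = L.comp (fderiv ℝ g x) := this.fderiv
      rw [e, enorm_le_iff_norm_le]
      calc ‖L.comp (fderiv ℝ g x)‖ ≤ ‖L‖ * ‖fderiv ℝ g x‖ := L.opNorm_comp_le _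
        _ ≤ 1 * ‖fderiv ℝ g x‖ := by gcongr
        _ = _ := one_mul _
    refine (hK _ h1 h2).trans ?_
    gcongr with x x
    · exact h3 _
    · exact h4 _
  have hre := key Complex.reCLM (by simp)
  have him := key Complex.imCLM (by simp)
  have hpt : ∀ z : ℂ, ‖z‖ₑ ^ 6 ≤ 4 * (‖Complex.reCLM z‖ₑ ^ 6 + ‖Complex.imCLM z‖ₑ ^ 6) := by
    intro z
    have h : ‖z‖ ^ 6 ≤ 4 * (|z.re| ^ 6 + |z.im| ^ 6) := by
      have e : ‖z‖ ^ 2 = |z.re| ^ 2 + |z.im| ^ 2 := by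
        rw [Complex.sq_norm, Complex.normSq_apply, sq_abs, sq_abs]; ring
      have : ‖z‖ ^ 6 = (|z.re| ^ 2 + |z.im| ^ 2) ^ 3 := by rw [← e]; ring
      rw [this]
      have a0 : 0 ≤ |z.re| ^ 2 := by positivity
      have b0 : 0 ≤ |z.im| ^ 2 := by positivity
      nlinarith [mul_nonneg (add_nonneg a0 b0) (sq_nonneg (|z.re| ^ 2 - |z.im| ^ 2))]
    have h' := ENNReal.ofReal_le_ofReal h
    rw [ENNReal.ofReal_mul (by norm_num), ENNReal.ofReal_add (by positivity) (by positivity),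
      ENNReal.ofReal_pow (norm_nonneg _), ENNReal.ofReal_pow (abs_nonneg _),
      ENNReal.ofReal_pow (abs_nonneg _)] at h'
    simpa [ofReal_norm, ← Real.norm_eq_abs] using h'
  calc ∫⁻ x, ‖g x‖ₑ ^ 6 ≤ ∫⁻ x, 4 * (‖Complex.reCLM (g x)‖ₑ ^ 6 + ‖Complex.imCLM (g x)‖ₑ ^ 6) :=
        lintegral_mono fun x => hpt _
    _ = 4 * ((∫⁻ x, ‖Complex.reCLM (g x)‖ₑ ^ 6) + ∫⁻ x, ‖Complex.imCLM (g x)‖ₑ ^ 6) := by
        rw [lintegral_const_mul' _ _ (by simp), lintegral_add_left']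
        exact ((Complex.reCLM.continuous.comp hg.continuous).enorm.aemeasurable).pow_const 6
    _ ≤ 4 * (K * ((∫⁻ x, ‖g x‖ₑ ^ 2) + ∫⁻ x, ‖fderiv ℝ g x‖ₑ ^ 2) ^ 3 +
          K * ((∫⁻ x, ‖g x‖ₑ ^ 2) + ∫⁻ x, ‖fderiv ℝ g x‖ₑ ^ 2) ^ 3) := by gcongr
    _ = _ := by push_cast; ring


/-! ## Mollification -/

private lemma sb_mo_eq (k : E n → ℝ) (f : E n → ℂ) (x : E n) :
    mo k f x = ∫ y, k (x - y) • f y := by
  unfold mo
  rw [convolution_lsmul_swap]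

private lemma sb_ker_int {k : E n → ℝ} (hk : Ker k) : Integrable k :=
  hk.1.continuous.integrable_of_hasCompactSupport hk.2

private lemma sb_ker_pd {k : E n → ℝ} (hk : Ker k) (i : Fin n) : Ker (pd i k) := by
  refine ⟨?_, ?_⟩
  · exact (hk.1.fderiv_right (m := (⊤ : ℕ∞)) (by simp)).clm_apply contDiff_const
  · exact hk.2.fderiv_apply ℝ (bv i)

private lemma sb_mo_cd {k : E n → ℝ} (hk : Ker k) {f : E n → ℂ}
    (hf : LocallyIntegrable f volume) : ContDiff ℝ 1 (mo k f) :=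
  hk.2.contDiff_convolution_left _ (hk.1.of_le (by exact_mod_cast le_top)) hf

private lemma sb_mo_fd {k : E n → ℝ} (hk : Ker k) {f : E n → ℂ}
    (hf : LocallyIntegrable f volume) (x : E n) (i : Fin n) :
    fderiv ℝ (mo k f) x (bv i) = mo (pd i k) f x := by
  have h := hk.2.hasFDerivAt_convolution_left (ContinuousLinearMap.lsmul ℝ ℝ) (μ := volume)
    (hk.1.of_le (by exact_mod_cast le_top)) hf x
  have h1 : fderiv ℝ (mo k f) x = _ := h.fderiv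
  rw [h1]
  have hex := (hk.2.fderiv ℝ).convolutionExists_left
    ((ContinuousLinearMap.lsmul ℝ ℝ : ℝ →L[ℝ] ℂ →L[ℝ] ℂ).precompL (E n))
    (hk.1.continuous_fderiv (by simp)) hf x
  unfold convolution
  rw [ContinuousLinearMap.integral_apply hex]
  unfold mo convolution pd
  rfl

private lemma sb_mo_ibp {k : E n → ℝ} (hk : Ker k) {f : E n → ℂ} {F : Fin n → E n → ℂ}
    (h : H1n f F) (x : E n) (i : Fin n) : mo (pd i k) f x = mo k (F i) x := by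
  rw [sb_mo_eq, sb_mo_eq]
  set η : E n → ℝ := fun y => k (x - y) with hη
  have hKη : Ker η := by
    refine ⟨hk.1.comp (contDiff_const.sub contDiff_id), ?_⟩
    exact hk.2.comp_homeomorph (Homeomorph.subLeft x)
  have hpd : ∀ y, pd i η y = - pd i k (x - y) := by
    intro y
    have h1 : HasFDerivAt k (fderiv ℝ k (x - y)) (x - y) :=
      (hk.1.differentiable (by simp) (x - y)).hasFDerivAt
    have h2 : HasFDerivAt (fun y : E n => x - y) (-(ContinuousLinearMap.id ℝ (E n))) y :=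
      (hasFDerivAt_id y).const_sub x
    have h3 := h1.comp y h2
    have h4 : fderiv ℝ η y = (fderiv ℝ k (x - y)).comp (-(ContinuousLinearMap.id ℝ (E n))) :=
      h3.fderiv
    unfold pd
    rw [h4]
    simp
  have h5 := h.weak η hKη i
  simp only [hpd, neg_smul, integral_neg, neg_inj] at h5
  exact h5

/-- Jensen -/
private lemma sb_jensen {k : E n → ℝ} {ε : ℝ} (hk : Avg k ε) {f : E n → ℂ}
    (hf : MemLp f 2 volume) (x : E n) :
    ‖mo k f x‖ ^ 2 ≤ ∫ y, k (x - y) * ‖f y‖ ^ 2 := by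
  have hloc : LocallyIntegrable f volume := hf.locallyIntegrable (by norm_num)
  have hf2 : Integrable (fun y => ‖f y‖ ^ 2) := hf.integrable_norm_pow (by norm_num)
  obtain ⟨K, hK⟩ := hk.ker.1.continuous.bounded_above_of_compact_support hk.ker.2
  have hkx : Integrable fun y => k (x - y) := (sb_ker_int hk.ker).comp_sub_left x
  have i1 : Integrable fun y => k (x - y) * ‖f y‖ ^ 2 := by
    refine hf2.bdd_mul (c := K) (hk.ker.1.continuous.comp (by fun_prop)).aestronglyMeasurable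
      (ae_of_all _ fun y => hK _)
  have hkc : HasCompactSupport fun y => k (x - y) :=
    hk.ker.2.comp_homeomorph (Homeomorph.subLeft x)
  have i2 : Integrable fun y => k (x - y) • f y :=
    hloc.integrable_smul_left_of_hasCompactSupport (hk.ker.1.continuous.comp (by fun_prop)) hkc
  have hint : ∫ y, k (x - y) = 1 := by
    rw [integral_sub_left_eq_self (fun y => k y) volume x]
    exact hk.int
  set m := mo k f x with hm
  have h0 : 0 ≤ ∫ y, k (x - y) * ‖f y - m‖ ^ 2 :=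
    integral_nonneg fun y => mul_nonneg (hk.nn _) (by positivity)
  have e1 : ∀ y, k (x - y) * ‖f y - m‖ ^ 2 =
      k (x - y) * ‖f y‖ ^ 2 - 2 * (inner ℝ m (k (x - y) • f y)) + k (x - y) * ‖m‖ ^ 2 := by
    intro y
    rw [norm_sub_sq_real, inner_smul_right, real_inner_comm]
    ring
  have i3 : Integrable fun y => inner ℝ m (k (x - y) • f y) := i2.const_inner m
  simp only [e1] at h0
  have i4 : Integrable fun y => k (x - y) * ‖f y‖ ^ 2 - 2 * (inner ℝ m (k (x - y) • f y)) :=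
    i1.sub (i3.const_mul 2)
  rw [MeasureTheory.integral_add i4 (hkx.mul_const _),
    MeasureTheory.integral_sub i1 (i3.const_mul 2),
    MeasureTheory.integral_const_mul, MeasureTheory.integral_mul_const, hint,
    integral_inner i2 m, ← sb_mo_eq k f x, ← hm, real_inner_self_eq_norm_sq] at h0
  linarith

/-- the `L²` norm as a lower integral -/
private lemma sb_l2 {f : E n → ℂ} (hf : MemLp f 2 volume) :
    ∫⁻ x, ‖f x‖ₑ ^ 2 = ENNReal.ofReal (∫ x, ‖f x‖ ^ 2) := by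
  rw [ofReal_integral_eq_lintegral_ofReal (hf.integrable_norm_pow (by norm_num))
    (ae_of_all _ fun x => by positivity)]
  refine lintegral_congr fun x => ?_
  rw [ENNReal.ofReal_pow (norm_nonneg _), ofReal_norm]

private lemma sb_l2_contr {k : E n → ℝ} {ε : ℝ} (hk : Avg k ε) {f : E n → ℂ}
    (hf : MemLp f 2 volume) : ∫⁻ x, ‖mo k f x‖ₑ ^ 2 ≤ ∫⁻ x, ‖f x‖ₑ ^ 2 := by
  have hf2 : Integrable (fun y => ‖f y‖ ^ 2) := hf.integrable_norm_pow (by norm_num)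
  have e : ∀ x, MeasureTheory.convolution k (fun y => ‖f y‖ ^ 2)
      (ContinuousLinearMap.lsmul ℝ ℝ) volume x = ∫ y, k (x - y) * ‖f y‖ ^ 2 := fun x => by
    rw [convolution_lsmul_swap]; rfl
  have h1 : Integrable (MeasureTheory.convolution k (fun y => ‖f y‖ ^ 2)
      (ContinuousLinearMap.lsmul ℝ ℝ) volume) :=
    (sb_ker_int hk.ker).integrable_convolution _ hf2
  have h2 : ∫ x, MeasureTheory.convolution k (fun y => ‖f y‖ ^ 2)
      (ContinuousLinearMap.lsmul ℝ ℝ) volume x = ∫ y, ‖f y‖ ^ 2 := by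
    rw [integral_convolution _ (sb_ker_int hk.ker) hf2, hk.int]
    simp
  rw [sb_l2 hf, ← h2, ofReal_integral_eq_lintegral_ofReal h1
    (ae_of_all _ fun x => by
      simp only [Pi.zero_apply]
      rw [e]; exact integral_nonneg fun y => mul_nonneg (hk.nn _) (by positivity))]
  refine lintegral_mono fun x => ?_
  rw [e, ← ofReal_norm, ← ENNReal.ofReal_pow (norm_nonneg _)]
  exact ENNReal.ofReal_le_ofReal (sb_jensen hk hf x)

/-- the operator norm is bounded by the Hilbert-Schmidt norm -/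
private lemma sb_hs (L : E n →L[ℝ] ℂ) : ‖L‖ ^ 2 ≤ ∑ i, ‖L (bv i)‖ ^ 2 := by
  have h : ‖L‖ ≤ √(∑ i, ‖L (bv i)‖ ^ 2) := by
    refine L.opNorm_le_bound (Real.sqrt_nonneg _) fun v => ?_
    have hv : v = ∑ i, v i • bv i := by
      have := (EuclideanSpace.basisFun (Fin n) ℝ).sum_repr v
      simpa [bv] using this.symm
    calc ‖L v‖ = ‖∑ i, v i • L (bv i)‖ := by
          conv_lhs => rw [hv, map_sum]
          simp only [map_smul]
      _ ≤ ∑ i, ‖v i • L (bv i)‖ := norm_sum_le _ _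
      _ = ∑ i, ‖L (bv i)‖ * ‖v i‖ := by
          refine Finset.sum_congr rfl fun i _ => ?_
          rw [norm_smul, mul_comm]
      _ ≤ √(∑ i, ‖L (bv i)‖ ^ 2) * √(∑ i, ‖v i‖ ^ 2) := Real.sum_mul_le_sqrt_mul_sqrt _ _ _
      _ = √(∑ i, ‖L (bv i)‖ ^ 2) * ‖v‖ := by rw [EuclideanSpace.norm_eq]
  calc ‖L‖ ^ 2 ≤ (√(∑ i, ‖L (bv i)‖ ^ 2)) ^ 2 := pow_le_pow_left₀ (norm_nonneg _) h 2
    _ = _ := Real.sq_sqrt (Finset.sum_nonneg fun i _ => by positivity)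

private lemma sb_hs' (L : E n →L[ℝ] ℂ) : ‖L‖ₑ ^ 2 ≤ ∑ i, ‖L (bv i)‖ₑ ^ 2 := by
  have h := ENNReal.ofReal_le_ofReal (sb_hs L)
  rw [ENNReal.ofReal_pow (norm_nonneg _), ofReal_norm,
    ENNReal.ofReal_sum_of_nonneg (fun i _ => by positivity)] at h
  simpa only [ENNReal.ofReal_pow (norm_nonneg _), ofReal_norm] using h

/-- cut off mollified functions -/
private lemma sb_approx (hn : n = 2 ∨ n = 3) : ∃ K : ℝ≥0, ∀ (B : ℝ≥0) (f : E n → ℂ)
    (F : Fin n → E n → ℂ), H1n f F → ∀ (k : E n → ℝ) (ε : ℝ), Avg k ε →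
    ∀ χ : E n → ℝ, ContDiff ℝ 1 χ → HasCompactSupport χ → (∀ x, ‖χ x‖ₑ ≤ 1) →
    (∀ x, ‖fderiv ℝ χ x‖ₑ ≤ B) →
    ∫⁻ x, ‖χ x • mo k f x‖ₑ ^ 6 ≤ K * ((2 + 2 * (B : ℝ≥0∞) ^ 2) *
      ((∫⁻ x, ‖f x‖ₑ ^ 2) + ∑ i, ∫⁻ x, ‖F i x‖ₑ ^ 2)) ^ 3 := by
  obtain ⟨K, hK⟩ := sb_cplx (n := n) hn
  refine ⟨K, fun B f F h k ε hk χ hχ hχc hχ1 hχB => ?_⟩
  have hloc : LocallyIntegrable f volume := h.mem.locallyIntegrable (by norm_num)
  set m := mo k f with hm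
  have hmd : ContDiff ℝ 1 m := sb_mo_cd hk.ker hloc
  have h1 := hK (fun x => χ x • m x) (hχ.smul hmd) (hχc.smul_right)
  refine h1.trans ?_
  gcongr
  have hg : ∫⁻ x, ‖χ x • m x‖ₑ ^ 2 ≤ ∫⁻ x, ‖m x‖ₑ ^ 2 := by
    refine lintegral_mono fun x => ?_
    rw [enorm_smul]
    gcongr
    calc ‖χ x‖ₑ * ‖m x‖ₑ ≤ 1 * ‖m x‖ₑ := by gcongr; exact hχ1 x
      _ = _ := one_mul _
  have hd : ∀ x, ‖fderiv ℝ (fun x => χ x • m x) x‖ₑ ^ 2 ≤
      2 * ∑ i, ‖mo k (F i) x‖ₑ ^ 2 + 2 * (B : ℝ≥0∞) ^ 2 * ‖m x‖ₑ ^ 2 := by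
    intro x
    have d1 : HasFDerivAt χ (fderiv ℝ χ x) x := (hχ.differentiable (by norm_num) x).hasFDerivAt
    have d2 : HasFDerivAt m (fderiv ℝ m x) x := (hmd.differentiable (by norm_num) x).hasFDerivAt
    have d3 : fderiv ℝ (fun x => χ x • m x) x = _ := (d1.smul d2).fderiv
    rw [d3]
    have a1 : ‖χ x • fderiv ℝ m x + (fderiv ℝ χ x).smulRight (m x)‖ₑ ≤
        ‖fderiv ℝ m x‖ₑ + B * ‖m x‖ₑ := by
      refine (enorm_add_le (χ x • fderiv ℝ m x) ((fderiv ℝ χ x).smulRight (m x))).trans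
        (add_le_add ?_ ?_)
      · rw [enorm_smul]
        calc ‖χ x‖ₑ * ‖fderiv ℝ m x‖ₑ ≤ 1 * ‖fderiv ℝ m x‖ₑ := by gcongr; exact hχ1 x
          _ = _ := one_mul _
      · have e : ‖(fderiv ℝ χ x).smulRight (m x)‖ₑ = ‖fderiv ℝ χ x‖ₑ * ‖m x‖ₑ := by
          rw [← ofReal_norm, ContinuousLinearMap.norm_smulRight_apply,
            ENNReal.ofReal_mul (norm_nonneg _), ofReal_norm, ofReal_norm]
        rw [e]
        gcongr
        exact hχB x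
    have a2 : ‖fderiv ℝ m x‖ₑ ^ 2 ≤ ∑ i, ‖mo k (F i) x‖ₑ ^ 2 := by
      refine (sb_hs' _).trans (le_of_eq (Finset.sum_congr rfl fun i _ => ?_))
      rw [hm, sb_mo_fd hk.ker hloc, sb_mo_ibp hk.ker h]
    calc _ ≤ (‖fderiv ℝ m x‖ₑ + B * ‖m x‖ₑ) ^ 2 := pow_le_pow_left₀ (by simp) a1 2
      _ ≤ 2 * (‖fderiv ℝ m x‖ₑ ^ 2 + (B * ‖m x‖ₑ) ^ 2) := by
          have := ENNReal.rpow_add_le_mul_rpow_add_rpow (‖fderiv ℝ m x‖ₑ) (B * ‖m x‖ₑ)
            (p := 2) (by norm_num)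
          norm_num at this
          exact this
      _ = 2 * ‖fderiv ℝ m x‖ₑ ^ 2 + 2 * (B : ℝ≥0∞) ^ 2 * ‖m x‖ₑ ^ 2 := by ring
      _ ≤ _ := by gcongr
  have hmc : Continuous m := hmd.continuous
  have hsum : ∫⁻ x, ‖fderiv ℝ (fun x => χ x • m x) x‖ₑ ^ 2 ≤
      2 * (∑ i, ∫⁻ x, ‖F i x‖ₑ ^ 2) + 2 * (B : ℝ≥0∞) ^ 2 * ∫⁻ x, ‖f x‖ₑ ^ 2 := by
    have hFc : ∀ i, Continuous (mo k (F i)) := fun i =>
      (sb_mo_cd hk.ker ((h.mem' i).locallyIntegrable (by norm_num))).continuous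
    calc _ ≤ ∫⁻ x, (2 * ∑ i, ‖mo k (F i) x‖ₑ ^ 2 + 2 * (B : ℝ≥0∞) ^ 2 * ‖m x‖ₑ ^ 2) :=
          lintegral_mono hd
      _ = 2 * (∑ i, ∫⁻ x, ‖mo k (F i) x‖ₑ ^ 2) + 2 * (B : ℝ≥0∞) ^ 2 * ∫⁻ x, ‖m x‖ₑ ^ 2 := by
          rw [lintegral_add_left', lintegral_const_mul' _ _ (by simp),
            lintegral_const_mul' _ _ (by finiteness), lintegral_finsetSum']
          · exact fun i _ => (hFc i).enorm.aemeasurable.pow_const 2
          · refine AEMeasurable.const_mul ?_ _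
            exact Finset.aemeasurable_fun_sum _ fun i _ => (hFc i).enorm.aemeasurable.pow_const 2
      _ ≤ _ := by
          exact add_le_add (mul_le_mul' le_rfl (Finset.sum_le_sum fun i _ =>
            sb_l2_contr hk (h.mem' i))) (mul_le_mul' le_rfl (sb_l2_contr hk h.mem))
  have hmm : ∫⁻ x, ‖m x‖ₑ ^ 2 ≤ ∫⁻ x, ‖f x‖ₑ ^ 2 := sb_l2_contr hk h.mem
  set A := ∫⁻ x, ‖f x‖ₑ ^ 2
  set S := ∑ i, ∫⁻ x, ‖F i x‖ₑ ^ 2
  calc _ ≤ A + (2 * S + 2 * (B : ℝ≥0∞) ^ 2 * A) := add_le_add (hg.trans hmm) hsum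
    _ ≤ (2 * A + 2 * (B : ℝ≥0∞) ^ 2 * A) + (2 * S + 2 * (B : ℝ≥0∞) ^ 2 * S) := by
        have : A ≤ 2 * A := by
          calc A = 1 * A := (one_mul _).symm
            _ ≤ 2 * A := by gcongr; norm_num
        calc A + (2 * S + 2 * (B : ℝ≥0∞) ^ 2 * A) ≤ 2 * A + (2 * S + 2 * (B : ℝ≥0∞) ^ 2 * A) := by
              gcongr
          _ = (2 * A + 2 * (B : ℝ≥0∞) ^ 2 * A) + 2 * S := by ring
          _ ≤ _ := by gcongr; exact le_self_add
    _ = _ := by ring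

/-- the Sobolev inequality as a statement on lower integrals -/
private lemma sb_main (hn : n = 2 ∨ n = 3) : ∃ K : ℝ≥0, ∀ (f : E n → ℂ)
    (F : Fin n → E n → ℂ), H1n f F →
    ∫⁻ x, ‖f x‖ₑ ^ 6 ≤ K * ((∫⁻ x, ‖f x‖ₑ ^ 2) + ∑ i, ∫⁻ x, ‖F i x‖ₑ ^ 2) ^ 3 := by
  obtain ⟨K, hK⟩ := sb_approx (n := n) hn
  -- the fixed cutoff
  let φ : ContDiffBump (0 : E n) := ⟨1, 2, by norm_num, by norm_num⟩
  have hφc : ContDiff ℝ 1 φ := φ.contDiff
  have hφs : HasCompactSupport φ := φ.hasCompactSupport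
  obtain ⟨B, hB⟩ := (hφc.continuous_fderiv (by norm_num)).bounded_above_of_compact_support
    (hφs.fderiv ℝ)
  have hB0 : 0 ≤ B := (norm_nonneg _).trans (hB 0)
  refine ⟨K * (2 + 2 * B.toNNReal ^ 2) ^ 3, fun f F h => ?_⟩
  have hloc : LocallyIntegrable f volume := h.mem.locallyIntegrable (by norm_num)
  -- the kernels
  let ψ : ℕ → ContDiffBump (0 : E n) := fun j =>
    ⟨1 / (2 * ((j : ℝ) + 1)), 1 / ((j : ℝ) + 1), by positivity, by
      have : (0 : ℝ) < (j : ℝ) + 1 := by positivity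
      apply one_div_lt_one_div_of_lt this; linarith⟩
  have hψ : ∀ j, Avg ((ψ j).normed volume) (1 / ((j : ℝ) + 1)) := fun j => by
    refine ⟨⟨(ψ j).contDiff_normed, (ψ j).hasCompactSupport_normed⟩,
      (ψ j).nonneg_normed, (ψ j).integral_normed, fun x hx => ?_⟩
    by_contra hc
    have h1 : x ∈ Function.support ((ψ j).normed volume) := hc
    rw [(ψ j).support_normed_eq, Metric.mem_ball, dist_zero_right] at h1
    have : (ψ j).rOut = 1 / ((j : ℝ) + 1) := rfl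
    linarith
  have hae : ∀ᵐ x, Tendsto (fun j => mo ((ψ j).normed volume) f x) atTop (𝓝 (f x)) := by
    refine ContDiffBump.ae_convolution_tendsto_right_of_locallyIntegrable (K := 2) ?_ ?_ hloc
    · exact tendsto_one_div_add_atTop_nhds_zero_nat
    · refine Eventually.of_forall fun j => le_of_eq ?_
      change 1 / ((j : ℝ) + 1) = 2 * (1 / (2 * ((j : ℝ) + 1)))
      field_simp
  -- the cutoffs
  let χ : ℕ → E n → ℝ := fun j x => φ ((1 / ((j : ℝ) + 1)) • x)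
  have hχd : ∀ j, ContDiff ℝ 1 (χ j) := fun j => hφc.comp (contDiff_const_smul _)
  have hχs : ∀ j, HasCompactSupport (χ j) := fun j => by
    have hne : (1 / ((j : ℝ) + 1)) ≠ 0 := by positivity
    exact hφs.comp_homeomorph (Homeomorph.smulOfNeZero _ hne)
  have hχ1 : ∀ j x, ‖χ j x‖ₑ ≤ 1 := fun j x => by
    rw [← ofReal_norm, Real.norm_of_nonneg (φ.nonneg' _)]
    exact ENNReal.ofReal_le_one.2 (φ.le_one)
  have hχB : ∀ j x, ‖fderiv ℝ (χ j) x‖ₑ ≤ B.toNNReal := fun j x => by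
    have h1 : HasFDerivAt φ (fderiv ℝ φ ((1 / ((j : ℝ) + 1)) • x)) ((1 / ((j : ℝ) + 1)) • x) :=
      (hφc.differentiable (by norm_num) _).hasFDerivAt
    have h2 : HasFDerivAt (fun x : E n => (1 / ((j : ℝ) + 1)) • x)
        ((1 / ((j : ℝ) + 1)) • ContinuousLinearMap.id ℝ (E n)) x :=
      (hasFDerivAt_id (𝕜 := ℝ) x).const_smul (1 / ((j : ℝ) + 1))
    have h3 : fderiv ℝ (χ j) x = _ := (h1.comp x h2).fderiv
    rw [h3, ContinuousLinearMap.comp_smul, ContinuousLinearMap.comp_id, ← ofReal_norm, norm_smul]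
    refine ENNReal.ofReal_le_ofReal ?_
    have h4 : ‖1 / ((j : ℝ) + 1)‖ ≤ 1 := by
      rw [Real.norm_of_nonneg (by positivity), div_le_one (by positivity)]
      have : (0 : ℝ) ≤ j := by positivity
      linarith
    calc _ ≤ 1 * B := mul_le_mul h4 (hB _) (norm_nonneg _) (by norm_num)
      _ = B := one_mul _
  have hlim : ∀ᵐ x, Tendsto (fun j => ‖χ j x • mo ((ψ j).normed volume) f x‖ₑ ^ 6) atTop
      (𝓝 (‖f x‖ₑ ^ 6)) := by
    filter_upwards [hae] with x hx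
    have h1 : Tendsto (fun j => χ j x • mo ((ψ j).normed volume) f x) atTop (𝓝 (f x)) := by
      have h2 : ∀ᶠ j : ℕ in atTop, χ j x = 1 := by
        have h3 : Tendsto (fun j : ℕ => (1 / ((j : ℝ) + 1)) • x) atTop (𝓝 ((0 : ℝ) • x)) :=
          tendsto_one_div_add_atTop_nhds_zero_nat.smul_const x
        rw [zero_smul] at h3
        have h4 : Metric.closedBall (0 : E n) 1 ∈ 𝓝 (0 : E n) :=
          Metric.closedBall_mem_nhds _ (by norm_num)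
        filter_upwards [h3 h4] with j hj
        exact φ.one_of_mem_closedBall hj
      refine hx.congr' ?_
      filter_upwards [h2] with j hj
      rw [hj, one_smul]
    exact ((ENNReal.continuous_pow 6).tendsto _).comp ((continuous_enorm.tendsto _).comp h1)
  calc ∫⁻ x, ‖f x‖ₑ ^ 6 = ∫⁻ x, liminf (fun j =>
        ‖χ j x • mo ((ψ j).normed volume) f x‖ₑ ^ 6) atTop := by
        refine lintegral_congr_ae ?_
        filter_upwards [hlim] with x hx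
        exact hx.liminf_eq.symm
    _ ≤ liminf (fun j => ∫⁻ x, ‖χ j x • mo ((ψ j).normed volume) f x‖ₑ ^ 6) atTop := by
        refine lintegral_liminf_le' fun j => ?_
        exact (((hχd j).continuous.smul
          (sb_mo_cd (hψ j).ker hloc).continuous).enorm.aemeasurable).pow_const 6
    _ ≤ liminf (fun _ : ℕ => K * ((2 + 2 * (B.toNNReal : ℝ≥0∞) ^ 2) *
      ((∫⁻ x, ‖f x‖ₑ ^ 2) + ∑ i, ∫⁻ x, ‖F i x‖ₑ ^ 2)) ^ 3) atTop := by
        refine liminf_le_liminf (Eventually.of_forall fun j => ?_)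
        exact hK _ f F h _ _ (hψ j) (χ j) (hχd j) (hχs j) (hχ1 j) (hχB j)
    _ = _ := by
        rw [liminf_const]
        push_cast
        ring

/-- the Sobolev inequality -/
theorem sob : SobStmt := by
  intro n hn
  obtain ⟨K, hK⟩ := sb_main (n := n) hn
  refine ⟨K, fun f F h => ?_⟩
  have hb := hK f F h
  have i0 : Integrable fun x => ‖f x‖ ^ 2 := h.mem.integrable_norm_pow (by norm_num)
  have i1 : ∀ i, Integrable fun x => ‖F i x‖ ^ 2 := fun i =>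
    (h.mem' i).integrable_norm_pow (by norm_num)
  have e : (∫⁻ x, ‖f x‖ₑ ^ 2) + ∑ i, ∫⁻ x, ‖F i x‖ₑ ^ 2 =
      ENNReal.ofReal (∫ x, (‖f x‖ ^ 2 + ∑ i, ‖F i x‖ ^ 2)) := by
    rw [integral_add i0 (integrable_finsetSum _ fun i _ => i1 i),
      integral_finsetSum _ (fun i _ => i1 i),
      ENNReal.ofReal_add (integral_nonneg fun x => by positivity)
        (Finset.sum_nonneg fun i _ => integral_nonneg fun x => by positivity),
      ENNReal.ofReal_sum_of_nonneg (fun i _ => integral_nonneg fun x => by positivity),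
      sb_l2 h.mem]
    congr 1
    exact Finset.sum_congr rfl fun i _ => sb_l2 (h.mem' i)
  rw [e] at hb
  have hN : 0 ≤ ∫ x, (‖f x‖ ^ 2 + ∑ i, ‖F i x‖ ^ 2) :=
    integral_nonneg fun x => by positivity
  have hb' : ∫⁻ x, ‖f x‖ₑ ^ 6 ≤
      ENNReal.ofReal (K * (∫ x, (‖f x‖ ^ 2 + ∑ i, ‖F i x‖ ^ 2)) ^ 3) := by
    refine hb.trans (le_of_eq ?_)
    rw [ENNReal.ofReal_mul (by positivity), ENNReal.ofReal_pow hN]
    simp
  have hmem : MemLp f 6 volume := by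
    refine ⟨h.mem.1, ?_⟩
    rw [eLpNorm_lt_top_iff_lintegral_rpow_enorm_lt_top (by norm_num) (by norm_num)]
    have : ((6 : ℝ≥0∞).toReal) = ((6 : ℕ) : ℝ) := by norm_num
    rw [this]
    simp only [ENNReal.rpow_natCast]
    exact hb'.trans_lt ENNReal.ofReal_lt_top
  refine ⟨hmem, ?_⟩
  have i6 : Integrable fun x => ‖f x‖ ^ 6 := hmem.integrable_norm_pow (by norm_num)
  have e6 : ∫⁻ x, ‖f x‖ₑ ^ 6 = ENNReal.ofReal (∫ x, ‖f x‖ ^ 6) := by
    rw [ofReal_integral_eq_lintegral_ofReal i6 (ae_of_all _ fun x => by positivity)]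
    refine lintegral_congr fun x => ?_
    rw [ENNReal.ofReal_pow (norm_nonneg _), ofReal_norm]
  rw [e6] at hb'
  exact (ENNReal.ofReal_le_ofReal_iff (by positivity)).1 hb'

end

end Pool.Agent.Lib_helper40.NLN
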