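import Pool.Agent.Lib_helper40.NLN.Stmts
import Pool.Agent.Lib_helper40.NLV.Weak

/-!
# From distributional solutions in `C(ℝ; H¹) ∩ C(ℝ; L⁶)` to the tested equation at every time
(helper18)
-/

namespace Pool.Agent.Lib_helper40.NLN

open MeasureTheory Set Filter Topology

noncomputable section

variable {n : ℕ}

/-- continuity of integrals in `t` -/
lemma cont_gen {G e : ℝ → E n → ℂ} {A : ℝ → E n → ℝ} {B : ℝ} {t₀ : ℝ}
    (hG : ∀ t, Integrable (G t)) (hA : ∀ t, Integrable fun x => A t x ^ 2)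
    (hB : ∀ t, ∫ x, A t x ^ 2 ≤ B) (hi : ∀ t, Integrable fun x => ‖e t x‖ ^ 2)
    (hge : ∀ t x, ‖G t x - G t₀ x‖ ≤ A t x * ‖e t x‖)
    (he : Tendsto (fun t => ∫ x, ‖e t x‖ ^ 2) (𝓝 t₀) (𝓝 0)) :
    Tendsto (fun t => ∫ x, G t x) (𝓝 t₀) (𝓝 (∫ x, G t₀ x)) := by
  rw [Metric.tendsto_nhds]
  intro η hη
  have hB0 : 0 ≤ B := (integral_nonneg fun _ => by positivity).trans (hB t₀)
  set r := η / (B + 1) with hr
  have hr0 : 0 < r := by positivity
  have h1 : ∀ᶠ t in 𝓝 t₀, ∫ x, ‖e t x‖ ^ 2 < η * r :=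
    he.eventually (gt_mem_nhds (by positivity))
  filter_upwards [h1] with t ht
  rw [dist_eq_norm, ← MeasureTheory.integral_sub (hG t) (hG t₀)]
  have h2 : ‖∫ x, (G t x - G t₀ x)‖ ≤
      ∫ x, (1 / 2 * r * A t x ^ 2 + 1 / 2 * r⁻¹ * ‖e t x‖ ^ 2) := by
    refine norm_integral_le_of_norm_le (((hA t).const_mul _).add ((hi t).const_mul _))
      (ae_of_all _ fun x => ?_)
    refine (hge t x).trans ?_
    have h3 : 0 ≤ (r * A t x - ‖e t x‖) ^ 2 * r⁻¹ := by positivity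
    have h4 : (r * A t x - ‖e t x‖) ^ 2 * r⁻¹ =
        r * A t x ^ 2 - 2 * (A t x * ‖e t x‖) + r⁻¹ * ‖e t x‖ ^ 2 := by
      field_simp
      ring
    linarith
  refine h2.trans_lt ?_
  rw [MeasureTheory.integral_add ((hA t).const_mul _) ((hi t).const_mul _),
    MeasureTheory.integral_const_mul, MeasureTheory.integral_const_mul]
  have h5 : r * ∫ x, A t x ^ 2 < η := by
    have h6 : r * ∫ x, A t x ^ 2 ≤ r * B := mul_le_mul_of_nonneg_left (hB t) hr0.le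
    refine h6.trans_lt ?_
    rw [hr, div_mul_eq_mul_div, div_lt_iff₀ (by positivity)]
    nlinarith
  have h6 : r⁻¹ * ∫ x, ‖e t x‖ ^ 2 ≤ η := by
    rw [inv_mul_le_iff₀ hr0]
    linarith
  linarith

lemma Ker.bdd {w : E n → ℝ} (hw : Ker w) : ∃ K, 0 ≤ K ∧ ∀ x, |w x| ≤ K := by
  obtain ⟨K, hK⟩ := hw.cont.bounded_above_of_compact_support hw.2
  exact ⟨K, (norm_nonneg _).trans (hK 0), hK⟩

lemma Ker.sq_int {w : E n → ℝ} (hw : Ker w) : Integrable fun x => w x ^ 2 := by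
  refine (hw.cont.pow 2).integrable_of_hasCompactSupport ?_
  have := hw.2.mul_left (f := w)
  simpa only [sq] using this

lemma nl_diff (V : E n → ℝ) {Vm : ℝ} (hVm : ∀ x, |V x| ≤ Vm) (f g : E n → ℂ) (x : E n) :
    ‖nl V f x - nl V g x‖ ≤ (Vm + 3 / 2 * (‖f x‖ ^ 2 + ‖g x‖ ^ 2)) * ‖f x - g x‖ := by
  unfold nl
  have e : (V x + ‖f x‖ ^ 2) • f x - (V x + ‖g x‖ ^ 2) • g x =
      V x • (f x - g x) + (1 / 2 : ℝ) • ((‖f x‖ ^ 2 + ‖g x‖ ^ 2) • (f x - g x)) +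
        (1 / 2 : ℝ) • ((‖f x‖ ^ 2 - ‖g x‖ ^ 2) • (f x + g x)) := by
    simp only [Complex.real_smul]
    push_cast
    ring
  rw [e]
  have h1 := abs_norm_sub_norm_le (f x) (g x)
  have h2 := norm_add_le (f x) (g x)
  have h0 := norm_nonneg (f x)
  have h0' := norm_nonneg (g x)
  have h3 := norm_nonneg (f x - g x)
  have t1 : ‖V x • (f x - g x)‖ ≤ Vm * ‖f x - g x‖ := by
    rw [norm_smul, Real.norm_eq_abs]
    exact mul_le_mul_of_nonneg_right (hVm x) h3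
  have t2 : ‖(1 / 2 : ℝ) • ((‖f x‖ ^ 2 + ‖g x‖ ^ 2) • (f x - g x))‖ =
      1 / 2 * (‖f x‖ ^ 2 + ‖g x‖ ^ 2) * ‖f x - g x‖ := by
    rw [norm_smul, norm_smul, Real.norm_of_nonneg (by norm_num), Real.norm_of_nonneg (by positivity)]
    ring
  have t3 : ‖(1 / 2 : ℝ) • ((‖f x‖ ^ 2 - ‖g x‖ ^ 2) • (f x + g x))‖ ≤
      (‖f x‖ ^ 2 + ‖g x‖ ^ 2) * ‖f x - g x‖ := by
    rw [norm_smul, norm_smul, Real.norm_of_nonneg (by norm_num : (0 : ℝ) ≤ 1 / 2),
      Real.norm_eq_abs]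
    have h4 : |‖f x‖ ^ 2 - ‖g x‖ ^ 2| = |‖f x‖ - ‖g x‖| * (‖f x‖ + ‖g x‖) := by
      rw [show ‖f x‖ ^ 2 - ‖g x‖ ^ 2 = (‖f x‖ - ‖g x‖) * (‖f x‖ + ‖g x‖) by ring, abs_mul,
        abs_of_nonneg (by positivity : 0 ≤ ‖f x‖ + ‖g x‖)]
    rw [h4]
    calc 1 / 2 * (|‖f x‖ - ‖g x‖| * (‖f x‖ + ‖g x‖) * ‖f x + g x‖)
        ≤ 1 / 2 * (‖f x - g x‖ * (‖f x‖ + ‖g x‖) * (‖f x‖ + ‖g x‖)) := by gcongr
      _ ≤ (‖f x‖ ^ 2 + ‖g x‖ ^ 2) * ‖f x - g x‖ := by
        nlinarith [mul_nonneg h3 (sq_nonneg (‖f x‖ - ‖g x‖))]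
  calc _ ≤ ‖V x • (f x - g x)‖ + ‖(1 / 2 : ℝ) • ((‖f x‖ ^ 2 + ‖g x‖ ^ 2) • (f x - g x))‖ +
        ‖(1 / 2 : ℝ) • ((‖f x‖ ^ 2 - ‖g x‖ ^ 2) • (f x + g x))‖ :=
        (norm_add_le _ _).trans (add_le_add_left (norm_add_le _ _) _)
    _ ≤ _ := by
      rw [t2]
      linarith

lemma nl_loc {V : E n → ℝ} {Vm : ℝ} (hV : Continuous V) (hVm : ∀ x, |V x| ≤ Vm) {f : E n → ℂ}
    (h2 : MemLp f 2 volume) (h6 : MemLp f 6 volume) : LocallyIntegrable (nl V f) volume := by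
  have h1 : LocallyIntegrable (fun x => V x • f x) volume := by
    have : MemLp (fun x => V x • f x) 2 volume := by
      refine h2.of_le_mul (c := Vm) (hV.aestronglyMeasurable.smul h2.1) (ae_of_all _ fun x => ?_)
      rw [norm_smul]
      exact mul_le_mul_of_nonneg_right (hVm x) (norm_nonneg _)
    exact this.locallyIntegrable (by norm_num)
  have h3 : Integrable (fun x => ‖f x‖ ^ 2 • f x) := by
    refine ((h2.integrable_norm_pow (by norm_num)).add (h6.integrable_norm_pow (by norm_num))).mono'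
      ((h2.1.norm.pow 2).smul h2.1) (ae_of_all _ fun x => ?_)
    show ‖‖f x‖ ^ 2 • f x‖ ≤ ‖f x‖ ^ 2 + ‖f x‖ ^ 6
    rw [norm_smul, Real.norm_of_nonneg (by positivity)]
    have h0 := norm_nonneg (f x)
    by_cases h : ‖f x‖ ≤ 1
    · nlinarith [pow_nonneg h0 2, pow_nonneg h0 6]
    · push Not at h
      have : ‖f x‖ ^ 3 ≤ ‖f x‖ ^ 6 := pow_le_pow_right₀ h.le (by norm_num)
      nlinarith [pow_nonneg h0 2]
  have e : nl V f = fun x => V x • f x + ‖f x‖ ^ 2 • f x := by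
    funext x
    unfold nl
    rw [add_smul]
  rw [e]
  exact h1.add h3.locallyIntegrable

theorem weak_stmt : WeakStmt := by
  intro n V Vm hV hVm ψ ψ' C h1 h6 hC hC6 hcont hcont6 heq
  have i1 : ∀ t, Integrable fun x => ‖ψ t x‖ ^ 2 := fun t =>
    (h1 t).mem.integrable_norm_pow (by norm_num)
  have i2 : ∀ t i, Integrable fun x => ‖ψ' t i x‖ ^ 2 := fun t i =>
    ((h1 t).mem' i).integrable_norm_pow (by norm_num)
  have i6 : ∀ t, Integrable fun x => ‖ψ t x‖ ^ 6 := fun t =>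
    (h6 t).integrable_norm_pow (by norm_num)
  have i2s : ∀ t, Integrable fun x => ∑ i, ‖ψ' t i x‖ ^ 2 := fun t =>
    integrable_finsetSum _ fun i _ => i2 t i
  have hbd : ∀ t, ∫ x, ‖ψ t x‖ ^ 2 ≤ C := fun t => by
    refine le_trans ?_ (hC t)
    exact integral_mono (i1 t) ((i1 t).add (i2s t)) fun x => by
      have : 0 ≤ ∑ i, ‖ψ' t i x‖ ^ 2 := Finset.sum_nonneg fun i _ => by positivity
      simp only
      linarith
  have hC0 : 0 ≤ C := le_trans (integral_nonneg fun _ => by positivity) (hbd 0)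
  have hVm0 : 0 ≤ Vm := (abs_nonneg _).trans (hVm 0)
  -- separate continuity in `L²`
  have j1 : ∀ t t₀, Integrable fun x => ‖ψ t x - ψ t₀ x‖ ^ 2 := fun t t₀ =>
    ((h1 t).mem.sub (h1 t₀).mem).integrable_norm_pow (by norm_num)
  have j2 : ∀ t t₀ i, Integrable fun x => ‖ψ' t i x - ψ' t₀ i x‖ ^ 2 := fun t t₀ i =>
    (((h1 t).mem' i).sub ((h1 t₀).mem' i)).integrable_norm_pow (by norm_num)
  have j2s : ∀ t t₀, Integrable fun x => ∑ i, ‖ψ' t i x - ψ' t₀ i x‖ ^ 2 := fun t t₀ =>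
    integrable_finsetSum _ fun i _ => j2 t t₀ i
  have c1 : ∀ t₀, Tendsto (fun t => ∫ x, ‖ψ t x - ψ t₀ x‖ ^ 2) (𝓝 t₀) (𝓝 0) := fun t₀ => by
    refine squeeze_zero (fun t => integral_nonneg fun _ => by positivity) (fun t => ?_) (hcont t₀)
    exact integral_mono (j1 t t₀) ((j1 t t₀).add (j2s t t₀)) fun x => by
      have : 0 ≤ ∑ i, ‖ψ' t i x - ψ' t₀ i x‖ ^ 2 := Finset.sum_nonneg fun i _ => by positivity
      simp only
      linarith
  have c2 : ∀ t₀ i, Tendsto (fun t => ∫ x, ‖ψ' t i x - ψ' t₀ i x‖ ^ 2) (𝓝 t₀) (𝓝 0) :=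
    fun t₀ i => by
    refine squeeze_zero (fun t => integral_nonneg fun _ => by positivity) (fun t => ?_) (hcont t₀)
    exact integral_mono (j2 t t₀ i) ((j1 t t₀).add (j2s t t₀)) fun x => by
      have h3 : ‖ψ' t i x - ψ' t₀ i x‖ ^ 2 ≤ ∑ i, ‖ψ' t i x - ψ' t₀ i x‖ ^ 2 :=
        Finset.single_le_sum (f := fun i => ‖ψ' t i x - ψ' t₀ i x‖ ^ 2)
          (fun i _ => by positivity) (Finset.mem_univ i)
      have := sq_nonneg ‖ψ t x - ψ t₀ x‖
      simp only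
      linarith
  refine ⟨h1, h6, hC, hC6, c1, hcont6, fun η hη t => ?_⟩
  have k1 : ∀ t, Integrable fun x => η x • ψ t x := fun t =>
    ((h1 t).mem.locallyIntegrable (by norm_num)).integrable_smul_left_of_hasCompactSupport
      hη.cont hη.2
  have k2 : ∀ t i, Integrable fun x => pd i η x • ψ' t i x := fun t i =>
    (((h1 t).mem' i).locallyIntegrable (by norm_num)).integrable_smul_left_of_hasCompactSupport
      (hη.pd i).cont (hη.pd i).2
  have k3 : ∀ t, Integrable fun x => η x • nl V (ψ t) x := fun t =>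
    (nl_loc hV hVm (h1 t).mem (h6 t)).integrable_smul_left_of_hasCompactSupport hη.cont hη.2
  have cF : Continuous fun t => ∫ x, η x • ψ t x := by
    rw [continuous_iff_continuousAt]
    intro t₀
    refine cont_gen (G := fun t x => η x • ψ t x) (e := fun t x => ψ t x - ψ t₀ x)
      (A := fun _ x => |η x|) (B := ∫ x, η x ^ 2) k1 (fun t => ?_) (fun t => ?_)
      (fun t => j1 t t₀) (fun t x => ?_) (c1 t₀)
    · simpa only [sq_abs] using hη.sq_int
    · simp only [sq_abs]; exact le_rfl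
    · rw [← smul_sub, norm_smul, Real.norm_eq_abs]
  have cH1 : ∀ i, Continuous fun t => ∫ x, pd i η x • ψ' t i x := by
    intro i
    rw [continuous_iff_continuousAt]
    intro t₀
    refine cont_gen (G := fun t x => pd i η x • ψ' t i x) (e := fun t x => ψ' t i x - ψ' t₀ i x)
      (A := fun _ x => |pd i η x|) (B := ∫ x, pd i η x ^ 2) (fun t => k2 t i) (fun t => ?_)
      (fun t => ?_) (fun t => j2 t t₀ i) (fun t x => ?_) (c2 t₀ i)
    · simpa only [sq_abs] using (hη.pd i).sq_int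
    · simp only [sq_abs]; exact le_rfl
    · rw [← smul_sub, norm_smul, Real.norm_eq_abs]
  obtain ⟨K, hK0, hK⟩ := hη.bdd
  have i4 : ∀ t, Integrable fun x => ‖ψ t x‖ ^ 4 := fun t => by
    refine ((i1 t).add (i6 t)).mono' ((h1 t).mem.1.norm.pow 4) (ae_of_all _ fun x => ?_)
    show ‖‖ψ t x‖ ^ 4‖ ≤ ‖ψ t x‖ ^ 2 + ‖ψ t x‖ ^ 6
    rw [Real.norm_of_nonneg (by positivity)]
    nlinarith [sq_nonneg (‖ψ t x‖ ^ 2 - 1), sq_nonneg (‖ψ t x‖), sq_nonneg (‖ψ t x‖ ^ 3),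
      mul_nonneg (sq_nonneg ‖ψ t x‖) (sq_nonneg (‖ψ t x‖ ^ 2 - 1))]
  have b4 : ∀ t, ∫ x, ‖ψ t x‖ ^ 4 ≤ C := fun t => by
    have e1 : ∫ x, ‖ψ t x‖ ^ 4 ≤ ∫ x, (1 / 2 * ‖ψ t x‖ ^ 2 + 1 / 2 * ‖ψ t x‖ ^ 6) :=
      integral_mono (i4 t) (((i1 t).const_mul _).add ((i6 t).const_mul _)) fun x => by
        simp only
        nlinarith [mul_nonneg (sq_nonneg ‖ψ t x‖) (sq_nonneg (‖ψ t x‖ ^ 2 - 1))]
    rw [MeasureTheory.integral_add ((i1 t).const_mul _) ((i6 t).const_mul _),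
      MeasureTheory.integral_const_mul, MeasureTheory.integral_const_mul] at e1
    linarith [hbd t, hC6 t]
  have cH2 : Continuous fun t => ∫ x, η x • nl V (ψ t) x := by
    rw [continuous_iff_continuousAt]
    intro t₀
    have hAb : ∀ t x, (|η x| * (Vm + 3 / 2 * (‖ψ t x‖ ^ 2 + ‖ψ t₀ x‖ ^ 2))) ^ 2 ≤
        2 * Vm ^ 2 * η x ^ 2 + 9 * K ^ 2 * (‖ψ t x‖ ^ 4 + ‖ψ t₀ x‖ ^ 4) := by
      intro t x
      have q1 : (|η x| * (Vm + 3 / 2 * (‖ψ t x‖ ^ 2 + ‖ψ t₀ x‖ ^ 2))) ^ 2 =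
          η x ^ 2 * (Vm + 3 / 2 * (‖ψ t x‖ ^ 2 + ‖ψ t₀ x‖ ^ 2)) ^ 2 := by
        rw [mul_pow, sq_abs]
      have q2 : η x ^ 2 ≤ K ^ 2 := by
        rw [← sq_abs]
        exact pow_le_pow_left₀ (abs_nonneg _) (hK x) 2
      have q3 : (Vm + 3 / 2 * (‖ψ t x‖ ^ 2 + ‖ψ t₀ x‖ ^ 2)) ^ 2 ≤
          2 * Vm ^ 2 + 9 * (‖ψ t x‖ ^ 4 + ‖ψ t₀ x‖ ^ 4) := by
        nlinarith [sq_nonneg (Vm - 3 / 2 * (‖ψ t x‖ ^ 2 + ‖ψ t₀ x‖ ^ 2)),
          sq_nonneg (‖ψ t x‖ ^ 2 - ‖ψ t₀ x‖ ^ 2)]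
      have q4 : 0 ≤ ‖ψ t x‖ ^ 4 + ‖ψ t₀ x‖ ^ 4 := by positivity
      rw [q1]
      calc η x ^ 2 * (Vm + 3 / 2 * (‖ψ t x‖ ^ 2 + ‖ψ t₀ x‖ ^ 2)) ^ 2
          ≤ η x ^ 2 * (2 * Vm ^ 2 + 9 * (‖ψ t x‖ ^ 4 + ‖ψ t₀ x‖ ^ 4)) := by gcongr
        _ ≤ _ := by nlinarith
    have hAi : ∀ t, Integrable fun x =>
        2 * Vm ^ 2 * η x ^ 2 + 9 * K ^ 2 * (‖ψ t x‖ ^ 4 + ‖ψ t₀ x‖ ^ 4) := fun t =>
      (hη.sq_int.const_mul _).add (((i4 t).add (i4 t₀)).const_mul _)
    have hAi2 : ∀ t, Integrable fun x =>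
        (|η x| * (Vm + 3 / 2 * (‖ψ t x‖ ^ 2 + ‖ψ t₀ x‖ ^ 2))) ^ 2 := fun t => by
      refine (hAi t).mono' ?_ (ae_of_all _ fun x => ?_)
      · have m1 : AEStronglyMeasurable (fun x => |η x|) volume :=
          hη.cont.abs.aestronglyMeasurable
        have m2 : AEStronglyMeasurable (fun x => Vm + 3 / 2 * (‖ψ t x‖ ^ 2 + ‖ψ t₀ x‖ ^ 2))
            volume :=
          (((h1 t).mem.1.norm.pow 2).add ((h1 t₀).mem.1.norm.pow 2)).const_mul _ |>.const_add _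
        exact (m1.mul m2).pow 2
      · rw [Real.norm_of_nonneg (by positivity)]
        exact hAb t x
    refine cont_gen (G := fun t x => η x • nl V (ψ t) x) (e := fun t x => ψ t x - ψ t₀ x)
      (A := fun t x => |η x| * (Vm + 3 / 2 * (‖ψ t x‖ ^ 2 + ‖ψ t₀ x‖ ^ 2)))
      (B := 2 * Vm ^ 2 * (∫ x, η x ^ 2) + 9 * K ^ 2 * (C + C)) k3 hAi2 (fun t => ?_)
      (fun t => j1 t t₀) (fun t x => ?_) (c1 t₀)
    · refine (integral_mono (hAi2 t) (hAi t) (hAb t)).trans ?_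
      have q5 : Integrable fun x => 9 * K ^ 2 * (‖ψ t x‖ ^ 4 + ‖ψ t₀ x‖ ^ 4) :=
        ((i4 t).add (i4 t₀)).const_mul _
      rw [MeasureTheory.integral_add (hη.sq_int.const_mul _) q5,
        MeasureTheory.integral_const_mul, MeasureTheory.integral_const_mul,
        MeasureTheory.integral_add (i4 t) (i4 t₀)]
      have := b4 t
      have := b4 t₀
      gcongr
    · rw [← smul_sub, norm_smul, Real.norm_eq_abs, mul_assoc]
      exact mul_le_mul_of_nonneg_left (nl_diff V hVm _ _ x) (abs_nonneg _)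
  have key := NLV.ode_distr (F := fun t => ∫ x, η x • ψ t x)
    (H := fun t => (∑ i, ∫ x, pd i η x • ψ' t i x) + ∫ x, η x • nl V (ψ t) x) cF
    ((continuous_finsetSum _ fun i _ => cH1 i).add cH2) (fun α hα => ?_) t
  · refine key.congr_deriv ?_
    rw [MeasureTheory.integral_add (integrable_finsetSum _ fun i _ => k2 t i) (k3 t),
      integral_finsetSum _ fun i _ => k2 t i]
  · have h3 := heq (fun t x => α t * η x) ?_ ?_
    · rw [← h3]
      refine integral_congr_ae (ae_of_all _ fun t => ?_)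
      have hpt : ∀ x, Complex.I * ψ t x * ((deriv (fun s => α s * η x) t : ℝ) : ℂ)
          + ∑ i, ψ' t i x * ((fderiv ℝ (fun x => α t * η x) x (EuclideanSpace.single i 1) : ℝ) : ℂ)
          + ((V x + ‖ψ t x‖ ^ 2 : ℝ) : ℂ) * ψ t x * ((α t * η x : ℝ) : ℂ) =
          (Complex.I * ((deriv α t : ℝ) : ℂ)) * (η x • ψ t x)
            + (α t : ℂ) * (∑ i, pd i η x • ψ' t i x)
            + (α t : ℂ) * (η x • nl V (ψ t) x) := by
        intro x
        have d1 : deriv (fun s => α s * η x) t = deriv α t * η x :=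
          ((hα.hasDerivAt t).mul_const (η x)).deriv
        have hd : DifferentiableAt ℝ η x := (hη.1.differentiable (by simp)).differentiableAt
        have d2 : ∀ i, fderiv ℝ (fun x => α t * η x) x (EuclideanSpace.single i 1) =
            α t * pd i η x := by
          intro i
          rw [fderiv_const_mul hd]
          rfl
        rw [d1]
        simp only [d2]
        unfold nl
        simp only [Complex.real_smul, Finset.mul_sum]
        have e5 : ∀ i, ψ' t i x * ((α t * pd i η x : ℝ) : ℂ) =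
            (α t : ℂ) * ((pd i η x : ℂ) * ψ' t i x) := fun i => by push_cast; ring
        simp only [e5]
        push_cast
        ring
      simp only [hpt]
      have q0 : Integrable fun x => ∑ i, pd i η x • ψ' t i x :=
        integrable_finsetSum _ fun i _ => k2 t i
      have q1 : Integrable fun x => (Complex.I * ((deriv α t : ℝ) : ℂ)) * (η x • ψ t x)
          + (α t : ℂ) * (∑ i, pd i η x • ψ' t i x) := ((k1 t).const_mul _).add (q0.const_mul _)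
      rw [MeasureTheory.integral_add q1
        ((k3 t).const_mul _), MeasureTheory.integral_add ((k1 t).const_mul _)
        (q0.const_mul _), MeasureTheory.integral_const_mul, MeasureTheory.integral_const_mul,
        MeasureTheory.integral_const_mul, integral_finsetSum _ fun i _ => k2 t i]
      simp only [Complex.real_smul]
      ring
    · exact (hα.1.comp contDiff_fst).mul (hη.1.comp contDiff_snd)
    · refine HasCompactSupport.intro (K := tsupport α ×ˢ tsupport η)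
        (hα.2.isCompact.prod hη.2.isCompact) fun p hp => ?_
      rw [mem_prod, not_and_or] at hp
      rcases hp with hp | hp
      · simp only [image_eq_zero_of_notMem_tsupport hp, zero_mul]
      · simp only [image_eq_zero_of_notMem_tsupport hp, mul_zero]

end

end Pool.Agent.Lib_helper40.NLN
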