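import Pool.Agent.Lib_helper40.NLN.Virial

/-!
# The algebraic heart: positivity of the quadratic form for the radial multiplier
-/

namespace Pool.Agent.Lib_helper40.NLN

noncomputable section

/-- positivity of the core quadratic form -/
lemma core_nonneg {n N s a b A B G : ℝ} (hn : 1 ≤ n) (hN : 0 ≤ N) (hs : s ≤ 0)
    (hG : 0 ≤ G) (hAB : A ^ 2 + B ^ 2 ≤ N * G) :
    0 ≤ G - 2 * s * (A ^ 2 + B ^ 2) + (a * A + b * B) * (4 * s ^ 2 * N - 2 * (n + 1) * s)
      + 1 / 2 * (-4 * s ^ 3 * N ^ 2 + (4 * n + 2) * s ^ 2 * N - n ^ 2 * s) * (a ^ 2 + b ^ 2) := by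
  rcases hN.eq_or_lt with h0 | hpos
  · subst h0
    have hA : A = 0 := by nlinarith [sq_nonneg A, sq_nonneg B]
    have hB : B = 0 := by nlinarith [sq_nonneg A, sq_nonneg B]
    subst hA hB
    have h1 : 0 ≤ -s * (n ^ 2 * (a ^ 2 + b ^ 2)) := mul_nonneg (by linarith) (by positivity)
    nlinarith
  · set σ := -s * N with hσ
    have hσ0 : 0 ≤ σ := mul_nonneg (by linarith) hN
    have hY : 0 < 1 + 2 * σ := by linarith
    set Bq := G - 2 * s * (A ^ 2 + B ^ 2) + (a * A + b * B) * (4 * s ^ 2 * N - 2 * (n + 1) * s)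
      + 1 / 2 * (-4 * s ^ 3 * N ^ 2 + (4 * n + 2) * s ^ 2 * N - n ^ 2 * s) * (a ^ 2 + b ^ 2)
      with hBq
    have e : N * ((1 + 2 * σ) * Bq) = (1 + 2 * σ) * (N * G - (A ^ 2 + B ^ 2))
        + ((1 + 2 * σ) * A + (2 * σ ^ 2 + (n + 1) * σ) * a) ^ 2
        + ((1 + 2 * σ) * B + (2 * σ ^ 2 + (n + 1) * σ) * b) ^ 2
        + 1 / 2 * n ^ 2 * σ * (a ^ 2 + b ^ 2) := by
      rw [hBq, hσ]; ring
    have h1 : 0 ≤ N * ((1 + 2 * σ) * Bq) := by
      rw [e]
      have : 0 ≤ (1 + 2 * σ) * (N * G - (A ^ 2 + B ^ 2)) := mul_nonneg hY.le (by linarith)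
      positivity
    exact nonneg_of_mul_nonneg_right (nonneg_of_mul_nonneg_right h1 hpos) hY

/-- `|q| ≤ κ/2 (ρ + G)` as soon as `N ≤ κ²` -/
lemma q_bound {N κ a b A B G : ℝ} (hκ : 0 < κ) (hN : N ≤ κ ^ 2) (hG : 0 ≤ G)
    (hAB : A ^ 2 + B ^ 2 ≤ N * G) :
    |a * A + b * B| ≤ κ / 2 * ((a ^ 2 + b ^ 2) + G) := by
  have h1 : A ^ 2 + B ^ 2 ≤ κ ^ 2 * G := hAB.trans (by gcongr)
  have h2 : κ * (2 * |a * A + b * B|) ≤ κ * (κ * ((a ^ 2 + b ^ 2) + G)) := by
    have e1 : κ * (2 * (a * A + b * B)) ≤ κ ^ 2 * (a ^ 2 + b ^ 2) + (A ^ 2 + B ^ 2) := by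
      nlinarith [sq_nonneg (κ * a - A), sq_nonneg (κ * b - B)]
    have e2 : -(κ * (2 * (a * A + b * B))) ≤ κ ^ 2 * (a ^ 2 + b ^ 2) + (A ^ 2 + B ^ 2) := by
      nlinarith [sq_nonneg (κ * a + A), sq_nonneg (κ * b + B)]
    have e3 : |κ * (2 * (a * A + b * B))| ≤ κ ^ 2 * (a ^ 2 + b ^ 2) + (A ^ 2 + B ^ 2) :=
      abs_le.2 ⟨by linarith, e1⟩
    rw [abs_mul, abs_mul, abs_of_pos hκ, abs_two] at e3
    nlinarith
  have := le_of_mul_le_mul_left h2 hκ
  linarith

/-- The pointwise inequality. -/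
theorem alg_ineq {n N s Φ lam lam1 lam2 W V Vm S μ κ a b A B G : ℝ} (hn : 1 ≤ n) (hN : 0 ≤ N)
    (hs : s ≤ 0) (hS : -s * N ≤ S) (hΦ0 : 0 ≤ Φ) (hΦ1 : Φ ≤ 1) (hl0 : 0 ≤ lam) (hl1 : lam ≤ 1)
    (h1 : (1 + N) * |lam1| ≤ μ) (h2 : (1 + N) ^ 2 * |lam2| ≤ μ)
    (hV0 : 0 ≤ V) (hVW : N * W ≤ V) (hVm : V ≤ Vm) (hκ : 0 < κ)
    (hW : κ ^ 2 < N → V = N * W) (hW0 : 0 ≤ W) (hG : 0 ≤ G) (hAB : A ^ 2 + B ^ 2 ≤ N * G) :
    -((n + 5 + 2 * S + Vm + S ^ 2 + n * S) * μ + Vm * κ) * ((a ^ 2 + b ^ 2) + G) ≤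
      2 * (lam1 * Φ - 2 * s * lam * Φ) * (A ^ 2 + B ^ 2) + 2 * (lam * Φ) * G
        + ((n + 2) * (lam1 * Φ - 2 * s * lam * Φ)
            + N * (lam2 * Φ - 4 * s * lam1 * Φ + lam * (6 * s ^ 2 - 2 * W) * Φ)) * (a * A + b * B)
        + V * (2 * (lam * Φ) * (a * A + b * B)
          + (n * (lam * Φ) + N * (lam1 * Φ - 2 * s * lam * Φ)) * (a ^ 2 + b ^ 2))
        - 2 * (-(lam * Φ * (N * s ^ 2 - n * s))) * (a * A + b * B)
        - (n * (-(lam * Φ * (N * s ^ 2 - n * s)))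
          + N * (-(lam1 * Φ * (N * s ^ 2 - n * s))
            + lam * Φ * (4 * N * s ^ 3 - (3 * n + 2) * s ^ 2 - 2 * N * s * W + n * W)))
          * (a ^ 2 + b ^ 2) := by
  set ρ := a ^ 2 + b ^ 2 with hρ
  set q := a * A + b * B with hq
  set P := A ^ 2 + B ^ 2 with hP
  have hρ0 : 0 ≤ ρ := by positivity
  have hP0 : 0 ≤ P := by positivity
  have hcore := core_nonneg (a := a) (b := b) hn hN hs hG hAB
  rw [← hρ, ← hq, ← hP] at hcore
  set Bq := G - 2 * s * P + q * (4 * s ^ 2 * N - 2 * (n + 1) * s)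
      + 1 / 2 * (-4 * s ^ 3 * N ^ 2 + (4 * n + 2) * s ^ 2 * N - n ^ 2 * s) * ρ with hBq
  set R := 2 * lam1 * P + ((n + 2 - 4 * s * N) * lam1 + N * lam2) * q + V * N * lam1 * ρ
    + lam1 * (N ^ 2 * s ^ 2 - n * N * s) * ρ with hR
  have hdec : 2 * (lam1 * Φ - 2 * s * lam * Φ) * P + 2 * (lam * Φ) * G
        + ((n + 2) * (lam1 * Φ - 2 * s * lam * Φ)
            + N * (lam2 * Φ - 4 * s * lam1 * Φ + lam * (6 * s ^ 2 - 2 * W) * Φ)) * q
        + V * (2 * (lam * Φ) * q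
          + (n * (lam * Φ) + N * (lam1 * Φ - 2 * s * lam * Φ)) * ρ)
        - 2 * (-(lam * Φ * (N * s ^ 2 - n * s))) * q
        - (n * (-(lam * Φ * (N * s ^ 2 - n * s)))
          + N * (-(lam1 * Φ * (N * s ^ 2 - n * s))
            + lam * Φ * (4 * N * s ^ 3 - (3 * n + 2) * s ^ 2 - 2 * N * s * W + n * W)))
          * ρ = lam * (2 * Φ * Bq) + lam * (V - N * W) * Φ * (2 * q + (n - 2 * s * N) * ρ)
            + Φ * R := by
    rw [hBq, hR]; ring
  rw [hdec]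
  have hμ : 0 ≤ μ := le_trans (by positivity) h1
  have hS0 : 0 ≤ S := le_trans (mul_nonneg (by linarith) hN) hS
  have hVm0 : 0 ≤ Vm := hV0.trans hVm
  have g1 : 0 ≤ lam * (2 * Φ * Bq) := by positivity
  -- the inner error
  have g2 : -(Vm * κ * (ρ + G)) ≤ lam * (V - N * W) * Φ * (2 * q + (n - 2 * s * N) * ρ) := by
    by_cases hc : κ ^ 2 < N
    · rw [hW hc]
      have : 0 ≤ Vm * κ * (ρ + G) := by positivity
      simp only [sub_self, mul_zero, zero_mul]
      linarith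
    · have hq' := q_bound (a := a) (b := b) hκ (not_lt.1 hc) hG hAB
      rw [← hρ, ← hq] at hq'
      have hq2 := (abs_le.1 hq').1
      have k1 : 0 ≤ (n - 2 * s * N) * ρ := by
        have : 0 ≤ -s * N := mul_nonneg (by linarith) hN
        exact mul_nonneg (by linarith) hρ0
      have k2 : 0 ≤ lam * (V - N * W) * Φ := by
        have : 0 ≤ V - N * W := by linarith
        positivity
      have k3 : lam * (V - N * W) * Φ ≤ Vm := by
        have e0 : 0 ≤ V - N * W := by linarith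
        have e1 : V - N * W ≤ Vm := by
          have := mul_nonneg hN hW0
          linarith
        calc lam * (V - N * W) * Φ ≤ 1 * Vm * 1 := by gcongr
          _ = Vm := by ring
      have k4 : -(κ * (ρ + G)) ≤ 2 * q + (n - 2 * s * N) * ρ := by linarith
      have k5 : 0 ≤ κ * (ρ + G) := by positivity
      calc -(Vm * κ * (ρ + G)) = Vm * (-(κ * (ρ + G))) := by ring
        _ ≤ (lam * (V - N * W) * Φ) * (-(κ * (ρ + G))) := by
            rw [mul_neg, mul_neg]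
            exact neg_le_neg (mul_le_mul_of_nonneg_right k3 k5)
        _ ≤ _ := mul_le_mul_of_nonneg_left k4 k2
  -- the outer error
  have g3 : |R| ≤ (n + 5 + 2 * S + Vm + S ^ 2 + n * S) * μ * (ρ + G) := by
    have l1 : |lam1| * (1 + N) ≤ μ := by linarith
    have hN1 : N ≤ (1 + N) ^ 2 := by nlinarith
    have hq' := q_bound (a := a) (b := b) (κ := 1 + N) (by linarith) hN1 hG hAB
    rw [← hρ, ← hq] at hq'
    have t1 : |2 * lam1 * P| ≤ 2 * μ * (ρ + G) := by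
      rw [abs_mul, abs_mul, abs_two, abs_of_nonneg hP0]
      have a1 : |lam1| * N ≤ μ := le_trans (by gcongr; linarith) l1
      calc 2 * |lam1| * P ≤ 2 * |lam1| * (N * G) := by gcongr
        _ = 2 * (|lam1| * N) * G := by ring
        _ ≤ 2 * μ * (ρ + G) := by
            have : G ≤ ρ + G := by linarith
            gcongr
    have hsN : |s * N| ≤ S := by
      rw [abs_of_nonpos (mul_nonpos_of_nonpos_of_nonneg hs hN)]; linarith
    have t2 : |((n + 2 - 4 * s * N) * lam1 + N * lam2) * q| ≤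
        (n + 3 + 2 * S) * μ * (ρ + G) := by
      have b1 : |(n + 2 - 4 * s * N) * lam1| ≤ (n + 2 + 4 * S) * |lam1| := by
        rw [abs_mul]
        have : |n + 2 - 4 * s * N| ≤ n + 2 + 4 * S := by
          have h5 := abs_le.1 hsN
          rw [abs_le]; constructor <;> linarith [h5.1, h5.2]
        gcongr
      have b2 : |N * lam2| ≤ N * |lam2| := by rw [abs_mul, abs_of_nonneg hN]
      have b3 : N * |lam2| * (1 + N) ≤ μ := by
        calc N * |lam2| * (1 + N) ≤ (1 + N) * |lam2| * (1 + N) := by gcongr; linarith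
          _ = (1 + N) ^ 2 * |lam2| := by ring
          _ ≤ μ := h2
      rw [abs_mul]
      calc |(n + 2 - 4 * s * N) * lam1 + N * lam2| * |q|
          ≤ ((n + 2 + 4 * S) * |lam1| + N * |lam2|) * ((1 + N) / 2 * (ρ + G)) := by
            gcongr
            exact (abs_add_le _ _).trans (add_le_add b1 b2)
        _ = ((n + 2 + 4 * S) / 2 * (|lam1| * (1 + N)) + 1 / 2 * (N * |lam2| * (1 + N)))
              * (ρ + G) := by ring
        _ ≤ ((n + 2 + 4 * S) / 2 * μ + 1 / 2 * μ) * (ρ + G) := by gcongr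
        _ ≤ (n + 3 + 2 * S) * μ * (ρ + G) := by
            have h6 : 0 ≤ μ * (ρ + G) := by positivity
            have h7 : 0 ≤ n * (μ * (ρ + G)) := mul_nonneg (by linarith) h6
            linarith
    have t3 : |V * N * lam1 * ρ| ≤ Vm * μ * (ρ + G) := by
      rw [abs_mul, abs_mul, abs_mul, abs_of_nonneg hV0, abs_of_nonneg hN, abs_of_nonneg hρ0]
      have a1 : |lam1| * N ≤ μ := le_trans (by gcongr; linarith) l1
      calc V * N * |lam1| * ρ = V * (|lam1| * N) * ρ := by ring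
        _ ≤ Vm * μ * (ρ + G) := by
            have : ρ ≤ ρ + G := by linarith
            gcongr
    have t4 : |lam1 * (N ^ 2 * s ^ 2 - n * N * s) * ρ| ≤ (S ^ 2 + n * S) * μ * (ρ + G) := by
      have a0 : |lam1| ≤ μ := le_trans (le_mul_of_one_le_right (abs_nonneg _) (by linarith)) l1
      have a1 : |N ^ 2 * s ^ 2 - n * N * s| ≤ S ^ 2 + n * S := by
        have := abs_le.1 hsN
        have e1 : 0 ≤ -(s * N) := by
          have := mul_nonpos_of_nonpos_of_nonneg hs hN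
          linarith
        have e2 : N ^ 2 * s ^ 2 - n * N * s = (-(s * N)) ^ 2 + n * (-(s * N)) := by ring
        have e3 : -(s * N) ≤ S := by linarith
        rw [e2, abs_of_nonneg (by positivity)]
        gcongr
      rw [abs_mul, abs_mul, abs_of_nonneg hρ0]
      calc |lam1| * |N ^ 2 * s ^ 2 - n * N * s| * ρ ≤ μ * (S ^ 2 + n * S) * (ρ + G) := by
            have : ρ ≤ ρ + G := by linarith
            gcongr
        _ = _ := by ring
    calc |R| ≤ |2 * lam1 * P| + |((n + 2 - 4 * s * N) * lam1 + N * lam2) * q|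
          + |V * N * lam1 * ρ| + |lam1 * (N ^ 2 * s ^ 2 - n * N * s) * ρ| := by
          rw [hR]
          refine (abs_add_le _ _).trans (add_le_add ?_ le_rfl)
          refine (abs_add_le _ _).trans (add_le_add ?_ le_rfl)
          exact abs_add_le _ _
      _ ≤ 2 * μ * (ρ + G) + (n + 3 + 2 * S) * μ * (ρ + G) + Vm * μ * (ρ + G)
          + (S ^ 2 + n * S) * μ * (ρ + G) := by gcongr
      _ = _ := by ring
  have g4 : -((n + 5 + 2 * S + Vm + S ^ 2 + n * S) * μ * (ρ + G)) ≤ Φ * R := by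
    have e1 := (abs_le.1 g3).1
    have e2 : 0 ≤ (n + 5 + 2 * S + Vm + S ^ 2 + n * S) * μ * (ρ + G) :=
      (abs_nonneg _).trans g3
    set KK := (n + 5 + 2 * S + Vm + S ^ 2 + n * S) * μ * (ρ + G)
    calc -KK ≤ Φ * (-KK) := by nlinarith
      _ ≤ Φ * R := mul_le_mul_of_nonneg_left e1 hΦ0
  linarith

end

end Pool.Agent.Lib_helper40.NLN
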