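import Pool.Agent.Lib_helper40.NLN.Stmts

/-!
# The logarithmic cutoff   (helper74)
-/

namespace Pool.Agent.Lib_helper40.NLN

open MeasureTheory Set Filter Topology

noncomputable section

namespace CutAux

lemma dlog (l : ℝ) (τ : ℝ) : HasDerivAt (fun τ : ℝ => Real.log (1 + τ ^ 2) / (2 * l))
    (τ / ((1 + τ ^ 2) * l)) τ := by
  have h1 : HasDerivAt (fun τ : ℝ => 1 + τ ^ 2) (2 * τ) τ := by
    simpa using ((hasDerivAt_id' τ).pow 2).const_add 1
  have h2 := (h1.log (by positivity)).div_const (2 * l)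
  refine h2.congr_deriv ?_
  by_cases hl : l = 0
  · simp [hl]
  · field_simp

lemma dlog2 {l : ℝ} (hl : l ≠ 0) (τ : ℝ) : HasDerivAt (fun τ : ℝ => τ / ((1 + τ ^ 2) * l))
    ((1 - τ ^ 2) / ((1 + τ ^ 2) ^ 2 * l)) τ := by
  have h1 : HasDerivAt (fun τ : ℝ => (1 + τ ^ 2) * l) (2 * τ * l) τ := by
    simpa using (((hasDerivAt_id' τ).pow 2).const_add 1).mul_const l
  have h0 : (1 + τ ^ 2) ≠ 0 := by positivity
  have h2 := (hasDerivAt_id' τ).div h1 (mul_ne_zero h0 hl)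
  refine h2.congr_deriv ?_
  field_simp
  ring

end CutAux

open CutAux in
theorem cut_stmt : CutStmt := by
  intro μ R hμ
  let φ : ContDiffBump (0 : ℝ) := ⟨1, 2, by norm_num, by norm_num⟩
  have c0 : ContDiff ℝ (⊤ : ℕ∞) φ := φ.contDiff
  have c1 : ContDiff ℝ (⊤ : ℕ∞) (deriv φ) := (contDiff_infty_iff_deriv.1 c0).2
  have c2 : ContDiff ℝ (⊤ : ℕ∞) (deriv (deriv φ)) := (contDiff_infty_iff_deriv.1 c1).2
  have s0 : HasCompactSupport φ := φ.hasCompactSupport
  obtain ⟨D1, hD1⟩ := c1.continuous.bounded_above_of_compact_support s0.deriv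
  obtain ⟨D2, hD2⟩ := c2.continuous.bounded_above_of_compact_support s0.deriv.deriv
  have hts : tsupport φ = Metric.closedBall 0 2 := φ.tsupport_eq
  have zz : ∀ y : ℝ, 3 ≤ y → y ∉ tsupport φ := by
    intro y hy
    rw [hts, Metric.mem_closedBall, dist_zero_right, Real.norm_eq_abs, abs_of_nonneg (by linarith)]
    linarith
  have z0 : ∀ y : ℝ, 3 ≤ y → φ y = 0 := fun y hy => image_eq_zero_of_notMem_tsupport (zz y hy)
  have z1 : ∀ y : ℝ, 3 ≤ y → deriv φ y = 0 := fun y hy =>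
    image_eq_zero_of_notMem_tsupport fun h => zz y hy (tsupport_deriv_subset h)
  have z2 : ∀ y : ℝ, 3 ≤ y → deriv (deriv φ) y = 0 := fun y hy =>
    image_eq_zero_of_notMem_tsupport fun h =>
      zz y hy (tsupport_deriv_subset (tsupport_deriv_subset h))
  have hD1' : 0 ≤ D1 := (norm_nonneg _).trans (hD1 0)
  have hD2' : 0 ≤ D2 := (norm_nonneg _).trans (hD2 0)
  obtain ⟨l, hl1, hlR, hlμ⟩ : ∃ l : ℝ, 1 ≤ l ∧ Real.log (1 + R ^ 2) ≤ l ∧
      8 * D1 + 9 * D2 ≤ μ * l := by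
    refine ⟨max (max 1 (Real.log (1 + R ^ 2))) ((8 * D1 + 9 * D2) / μ),
      (le_max_left _ _).trans (le_max_left _ _), (le_max_right _ _).trans (le_max_left _ _), ?_⟩
    have := le_max_right (max 1 (Real.log (1 + R ^ 2))) ((8 * D1 + 9 * D2) / μ)
    rw [div_le_iff₀ hμ] at this
    linarith
  have hl0 : 0 < l := by linarith
  set g : ℝ → ℝ := fun τ => Real.log (1 + τ ^ 2) / (2 * l) with hg
  set g1 : ℝ → ℝ := fun τ => τ / ((1 + τ ^ 2) * l) with hg1
  set g2 : ℝ → ℝ := fun τ => (1 - τ ^ 2) / ((1 + τ ^ 2) ^ 2 * l) with hg2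
  have dg : ∀ τ, HasDerivAt g (g1 τ) τ := fun τ => dlog l τ
  have dg1 : ∀ τ, HasDerivAt g1 (g2 τ) τ := fun τ => dlog2 hl0.ne' τ
  have cg : Continuous g := continuous_iff_continuousAt.2 fun τ => (dg τ).continuousAt
  have cg1 : Continuous g1 := continuous_iff_continuousAt.2 fun τ => (dg1 τ).continuousAt
  have cg2 : Continuous g2 := by
    refine Continuous.div (by fun_prop) (by fun_prop) fun τ => ?_
    positivity
  have dφ : ∀ y, HasDerivAt φ (deriv φ y) y := fun y =>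
    (c0.differentiable (by simp) y).hasDerivAt
  have dφ1 : ∀ y, HasDerivAt (deriv φ) (deriv (deriv φ) y) y := fun y =>
    (c1.differentiable (by simp) y).hasDerivAt
  -- bounds
  have b1 : ∀ τ, 0 ≤ τ → (1 + 2 * τ) * |g1 τ| ≤ 3 / l := by
    intro τ hτ
    have e1 : |g1 τ| = τ / ((1 + τ ^ 2) * l) := abs_of_nonneg (by positivity)
    rw [e1, mul_div_assoc', div_le_div_iff₀ (by positivity) hl0]
    have : (1 + 2 * τ) * τ ≤ 3 * (1 + τ ^ 2) := by nlinarith [sq_nonneg (τ - 1)]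
    nlinarith
  have b2 : ∀ τ, 0 ≤ τ → (1 + 2 * τ) ^ 2 * |g2 τ| ≤ 5 / l := by
    intro τ hτ
    have e1 : |g2 τ| = |1 - τ ^ 2| / ((1 + τ ^ 2) ^ 2 * l) := by
      rw [hg2, abs_div, abs_of_pos (by positivity : (0 : ℝ) < (1 + τ ^ 2) ^ 2 * l)]
    have e2 : |1 - τ ^ 2| ≤ 1 + τ ^ 2 := by
      rw [abs_le]; constructor <;> nlinarith [sq_nonneg τ]
    have e3 : (1 + 2 * τ) ^ 2 ≤ 5 * (1 + τ ^ 2) := by nlinarith [sq_nonneg (2 - τ)]
    rw [e1, mul_div_assoc', div_le_div_iff₀ (by positivity) hl0]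
    have e4 : (1 + 2 * τ) ^ 2 * |1 - τ ^ 2| ≤ 5 * (1 + τ ^ 2) * (1 + τ ^ 2) := by
      gcongr
    nlinarith
  have hb : ∀ τ : ℝ, Real.exp (3 * l) ≤ τ → 3 ≤ g τ := by
    intro τ hτ
    have h1 : 6 * l ≤ Real.log (1 + τ ^ 2) := by
      rw [Real.le_log_iff_exp_le (by positivity)]
      have h2 : Real.exp (6 * l) = Real.exp (3 * l) ^ 2 := by
        rw [← Real.exp_nat_mul]; congr 1; push_cast; ring
      have h3 : Real.exp (3 * l) ^ 2 ≤ τ ^ 2 := by
        have := Real.exp_pos (3 * l)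
        gcongr
      linarith
    rw [hg]
    simp only
    rw [le_div_iff₀ (by positivity)]
    linarith
  refine ⟨Real.exp (3 * l), Real.exp_pos _, fun τ => φ (g τ), fun τ => deriv φ (g τ) * g1 τ,
    fun τ => deriv (deriv φ) (g τ) * g1 τ * g1 τ + deriv φ (g τ) * g2 τ, fun τ => ?_, fun τ => ?_,
    ?_, fun τ => ⟨φ.nonneg, φ.le_one⟩, fun τ hτ => ?_, fun τ hτ => ?_, fun τ hτ hR => ?_,
    fun τ hτ => ?_⟩
  · exact (dφ (g τ)).comp τ (dg τ)
  · exact ((dφ1 (g τ)).comp τ (dg τ)).mul (dg1 τ)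
  · have := c2.continuous
    have := c1.continuous
    fun_prop
  · rw [abs_mul]
    have h1 : |deriv φ (g τ)| ≤ D1 := hD1 _
    calc (1 + 2 * τ) * (|deriv φ (g τ)| * |g1 τ|) = |deriv φ (g τ)| * ((1 + 2 * τ) * |g1 τ|) := by
          ring
      _ ≤ D1 * (3 / l) := by
          have := b1 τ hτ
          gcongr
      _ ≤ μ := by
          rw [mul_div_assoc', div_le_iff₀ hl0]
          linarith
  · have h1 : |deriv φ (g τ)| ≤ D1 := hD1 _
    have h2 : |deriv (deriv φ) (g τ)| ≤ D2 := hD2 _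
    have h3 := b1 τ hτ
    have h4 := b2 τ hτ
    have h30 : 0 ≤ (1 + 2 * τ) * |g1 τ| := by positivity
    have h40 : 0 ≤ (1 + 2 * τ) ^ 2 * |g2 τ| := by positivity
    calc (1 + 2 * τ) ^ 2 * |deriv (deriv φ) (g τ) * g1 τ * g1 τ + deriv φ (g τ) * g2 τ|
        ≤ (1 + 2 * τ) ^ 2 * (|deriv (deriv φ) (g τ)| * |g1 τ| * |g1 τ| +
            |deriv φ (g τ)| * |g2 τ|) := by
          gcongr
          refine (abs_add_le _ _).trans ?_
          rw [abs_mul, abs_mul, abs_mul]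
      _ = |deriv (deriv φ) (g τ)| * (((1 + 2 * τ) * |g1 τ|) * ((1 + 2 * τ) * |g1 τ|)) +
            |deriv φ (g τ)| * ((1 + 2 * τ) ^ 2 * |g2 τ|) := by ring
      _ ≤ D2 * ((3 / l) * (3 / l)) + D1 * (5 / l) := by
          gcongr
      _ ≤ D2 * ((3 / l) * 3) + D1 * (5 / l) := by
          have : 3 / l ≤ 3 := div_le_self (by norm_num) hl1
          gcongr
      _ = (9 * D2 + 5 * D1) / l := by ring
      _ ≤ μ := by
          rw [div_le_iff₀ hl0]
          linarith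
  · refine φ.one_of_mem_closedBall ?_
    rw [Metric.mem_closedBall, dist_zero_right, Real.norm_eq_abs]
    have h1 : 0 ≤ Real.log (1 + τ ^ 2) := Real.log_nonneg (by nlinarith [sq_nonneg τ])
    have h2 : Real.log (1 + τ ^ 2) ≤ Real.log (1 + R ^ 2) := by
      refine Real.log_le_log (by positivity) ?_
      gcongr
    have h3 : φ.rIn = 1 := rfl
    rw [h3, hg]
    simp only
    rw [abs_of_nonneg (by positivity), div_le_one (by positivity)]
    linarith
  · have h := hb τ hτ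
    simp only [z0 _ h, z1 _ h, z2 _ h, zero_mul, add_zero, and_self]

end

end Pool.Agent.Lib_helper40.NLN
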