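import Pool.Agent.Lib_helper40.NLN.Stmts

/-!
# The local mass inequality
-/

namespace Pool.Agent.Lib_helper40.NLN

open MeasureTheory Set Filter Topology

noncomputable section

variable {n : ℕ}

lemma mass_rad_sq (x : E n) (a b : E n → ℝ) (a1 b1 : Fin n → E n → ℝ) :
    (b x * rad a1 x - a x * rad b1 x) ^ 2 ≤ (a x ^ 2 + b x ^ 2) * (2 * hn x * gsq a1 b1 x) := by
  have h1 : (rad a1 x) ^ 2 ≤ (∑ j, x j ^ 2) * ∑ j, a1 j x ^ 2 :=
    Finset.sum_mul_sq_le_sq_mul_sq _ _ _
  have h2 : (rad b1 x) ^ 2 ≤ (∑ j, x j ^ 2) * ∑ j, b1 j x ^ 2 :=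
    Finset.sum_mul_sq_le_sq_mul_sq _ _ _
  have h3 : gsq a1 b1 x = ∑ j, a1 j x ^ 2 + ∑ j, b1 j x ^ 2 := Finset.sum_add_distrib
  rw [hn_eq, h3]
  have h4 : (b x * rad a1 x - a x * rad b1 x) ^ 2 ≤
      (a x ^ 2 + b x ^ 2) * (rad a1 x ^ 2 + rad b1 x ^ 2) := by
    nlinarith [sq_nonneg (a x * rad a1 x + b x * rad b1 x)]
  refine h4.trans ?_
  have h5 : rad a1 x ^ 2 + rad b1 x ^ 2 ≤
      (∑ j, x j ^ 2) * (∑ j, a1 j x ^ 2 + ∑ j, b1 j x ^ 2) := by linarith
  exact mul_le_mul_of_nonneg_left h5 (by positivity)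

lemma mass_rad_le (x : E n) (a b : E n → ℝ) (a1 b1 : Fin n → E n → ℝ) {μ l : ℝ}
    (hl : (1 + 2 * hn x) * |l| ≤ μ) :
    |2 * l * (b x * rad a1 x - a x * rad b1 x)| ≤
      μ * ((a x ^ 2 + b x ^ 2) + gsq a1 b1 x) := by
  have hN : 0 ≤ hn x := by unfold hn; positivity
  have hG : 0 ≤ gsq a1 b1 x := Finset.sum_nonneg fun j _ => by positivity
  have hρ : 0 ≤ a x ^ 2 + b x ^ 2 := by positivity
  set P := b x * rad a1 x - a x * rad b1 x with hP
  set ρ := a x ^ 2 + b x ^ 2 with hρe
  set G := gsq a1 b1 x with hGe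
  have h1 : P ^ 2 ≤ ρ * (2 * hn x * G) := mass_rad_sq x a b a1 b1
  have h2 : |2 * P| ≤ (1 + 2 * hn x) * (ρ + G) := by
    apply abs_le_of_sq_le_sq
    · have h3 : 4 * (2 * hn x) ≤ (1 + 2 * hn x) ^ 2 := by nlinarith [sq_nonneg (1 - 2 * hn x)]
      have h4 : ρ * G ≤ (ρ + G) ^ 2 := by nlinarith [mul_nonneg hρ hG]
      have h5 : 0 ≤ ρ * G := mul_nonneg hρ hG
      calc (2 * P) ^ 2 = 4 * P ^ 2 := by ring
        _ ≤ 4 * (ρ * (2 * hn x * G)) := by linarith
        _ = (4 * (2 * hn x)) * (ρ * G) := by ring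
        _ ≤ (1 + 2 * hn x) ^ 2 * (ρ * G) := mul_le_mul_of_nonneg_right h3 h5
        _ ≤ (1 + 2 * hn x) ^ 2 * (ρ + G) ^ 2 := mul_le_mul_of_nonneg_left h4 (sq_nonneg _)
        _ = ((1 + 2 * hn x) * (ρ + G)) ^ 2 := by ring
    · positivity
  calc |2 * l * P| = |l| * |2 * P| := by rw [← abs_mul]; congr 1; ring
    _ ≤ |l| * ((1 + 2 * hn x) * (ρ + G)) := mul_le_mul_of_nonneg_left h2 (abs_nonneg _)
    _ = ((1 + 2 * hn x) * |l|) * (ρ + G) := by ring
    _ ≤ μ * (ρ + G) := mul_le_mul_of_nonneg_right hl (by positivity)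

theorem mass_stmt : MassStmt := by
  intro n V a b v1 v2 e1 e2 a1 b1 w1 w2 a2 b2 hS lam lam1 μ θ L hμ hθ hlam hlam1c hlam01
    hlam1b hsupp hIρ hIG
  have hlamc : Continuous lam := continuous_iff_continuousAt.mpr fun τ => (hlam τ).continuousAt
  have hcs : ∀ g : E n → ℝ, (∀ x, L ≤ ‖x‖ → g x = 0) → HasCompactSupport g := fun g hg =>
    HasCompactSupport.intro (isCompact_closedBall (0 : E n) L) (fun x hx => hg x (by
      rw [mem_closedBall_zero_iff] at hx
      linarith))
  have ca := hS.ca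
  have cb := hS.cb
  have ca1 := hS.ca1
  have cb1 := hS.cb1
  have ca2 := hS.ca2
  have cb2 := hS.cb2
  have ce1 := hS.ce1
  have ce2 := hS.ce2
  have chn : Continuous (hn : E n → ℝ) := hn_cont
  have cx : ∀ i, Continuous (fun x : E n => x i) := fun i => by fun_prop
  have crA : Continuous (rad a1) := by
    unfold rad
    exact continuous_finsetSum _ fun j _ => (cx j).mul (ca1 j)
  have crB : Continuous (rad b1) := by
    unfold rad
    exact continuous_finsetSum _ fun j _ => (cx j).mul (cb1 j)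
  have cl : Continuous (fun x : E n => lam (hn x)) := hlamc.comp chn
  have cl1 : Continuous (fun x : E n => lam1 (hn x)) := hlam1c.comp chn
  set D : Fin n → E n → ℝ := fun i x =>
    lam1 (hn x) * x i * (b x * a1 i x - a x * b1 i x)
      + lam (hn x) * (b x * a2 i i x - a x * b2 i i x) with hD
  have hPD : ∀ i, PD i (fun x => lam (hn x) * (b x * a1 i x - a x * b1 i x)) (D i) := by
    intro i
    have h := (PD.radial (i := i) hlam).mul
      (((hS.db i).mul (hS.da1 i i)).sub ((hS.da i).mul (hS.db1 i i)))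
    refine h.congr fun x => ?_
    simp only [hD]
    ring
  have hDc : ∀ i, Continuous (D i) := by
    intro i
    simp only [hD]
    exact ((cl1.mul (cx i)).mul ((cb.mul (ca1 i)).sub (ca.mul (cb1 i)))).add
      (cl.mul ((cb.mul (ca2 i i)).sub (ca.mul (cb2 i i))))
  have hDCK : ∀ i, CK (D i) := fun i => ⟨hDc i, hcs _ fun x hx => by
    simp only [hD]
    rw [(hsupp x hx).1, (hsupp x hx).2]
    ring⟩
  have hD0 : ∀ i, ∫ x, D i x = 0 := by
    intro i
    refine (hPD i).int_zero ⟨cl.mul ((cb.mul (ca1 i)).sub (ca.mul (cb1 i))), hcs _ ?_⟩ (hDCK i)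
    intro x hx
    rw [(hsupp x hx).1, zero_mul]
  have hDsum : ∫ x, ∑ i, D i x = 0 := by
    rw [integral_finsetSum _ fun i _ => (hDCK i).int]
    simp [hD0]
  have hDsumI : Integrable (fun x => ∑ i, D i x) :=
    integrable_finsetSum _ fun i _ => (hDCK i).int
  -- the two error terms
  set P1 : E n → ℝ := fun x => 2 * lam1 (hn x) * (b x * rad a1 x - a x * rad b1 x) with hP1
  set P2 : E n → ℝ := fun x => lam (hn x) * (2 * (a x * e2 x - b x * e1 x)) with hP2
  have hP1I : Integrable P1 := by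
    refine CK.int ⟨?_, hcs _ fun x hx => ?_⟩
    · simp only [hP1]
      exact (continuous_const.mul cl1).mul ((cb.mul crA).sub (ca.mul crB))
    · simp only [hP1]
      rw [(hsupp x hx).2]
      ring
  have hP2I : Integrable P2 := by
    refine CK.int ⟨?_, hcs _ fun x hx => ?_⟩
    · simp only [hP2]
      exact cl.mul (continuous_const.mul ((ca.mul ce2).sub (cb.mul ce1)))
    · simp only [hP2]
      rw [(hsupp x hx).1, zero_mul]
  have hpt : ∀ x, lam (hn x) * (2 * (a x * v1 x + b x * v2 x)) =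
      2 * ∑ i, D i x - P1 x + P2 x := by
    intro x
    have s1 : ∑ i, D i x = lam1 (hn x) * (b x * rad a1 x - a x * rad b1 x) +
        lam (hn x) * (b x * ∑ i, a2 i i x - a x * ∑ i, b2 i i x) := by
      simp only [hD, rad, Finset.mul_sum, ← Finset.sum_sub_distrib, ← Finset.sum_add_distrib]
      exact Finset.sum_congr rfl fun i _ => by ring
    rw [s1, hS.hv1 x, hS.hv2 x]
    simp only [hP1, hP2]
    ring
  have hint : ∫ x, lam (hn x) * (2 * (a x * v1 x + b x * v2 x)) =
      (- ∫ x, P1 x) + ∫ x, P2 x := by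
    simp only [hpt]
    have h3 : Integrable (fun x => 2 * ∑ i, D i x - P1 x) := (hDsumI.const_mul 2).sub hP1I
    rw [integral_add h3 hP2I,
      integral_sub (hDsumI.const_mul 2) hP1I, integral_const_mul, hDsum]
    ring
  have hE1 : |∫ x, P1 x| ≤ μ * ((∫ x, (a x ^ 2 + b x ^ 2)) + ∫ x, gsq a1 b1 x) := by
    rw [← integral_add hIρ hIG, ← integral_const_mul]
    refine (abs_integral_le_integral_abs).trans ?_
    refine integral_mono hP1I.abs ((hIρ.add hIG).const_mul μ) fun x => ?_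
    have hx : 0 ≤ hn x := by unfold hn; positivity
    exact mass_rad_le x a b a1 b1 (hlam1b _ hx)
  have hball : IntegrableOn (fun x => e1 x ^ 2 + e2 x ^ 2) (Metric.closedBall (0 : E n) L) :=
    (((ce1.pow 2).add (ce2.pow 2)).continuousOn).integrableOn_compact
      (isCompact_closedBall _ _)
  have hE2 : |∫ x, P2 x| ≤ θ * (∫ x, (a x ^ 2 + b x ^ 2)) +
      θ⁻¹ * ∫ x in Metric.closedBall (0 : E n) L, (e1 x ^ 2 + e2 x ^ 2) := by
    have hm : MeasurableSet (Metric.closedBall (0 : E n) L) := Metric.isClosed_closedBall.measurableSet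
    rw [← integral_indicator hm, ← integral_const_mul, ← integral_const_mul, ← integral_add]
    · refine (abs_integral_le_integral_abs).trans ?_
      refine integral_mono hP2I.abs ((hIρ.const_mul θ).add
        ((hball.integrable_indicator hm).const_mul θ⁻¹)) fun x => ?_
      show |lam (hn x) * (2 * (a x * e2 x - b x * e1 x))| ≤ θ * (a x ^ 2 + b x ^ 2) +
        θ⁻¹ * (Metric.closedBall (0 : E n) L).indicator (fun x => e1 x ^ 2 + e2 x ^ 2) x
      by_cases hx : L ≤ ‖x‖
      · rw [(hsupp x hx).1, zero_mul, abs_zero]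
        have : 0 ≤ (Metric.closedBall (0 : E n) L).indicator (fun x => e1 x ^ 2 + e2 x ^ 2) x :=
          Set.indicator_nonneg (fun x _ => by positivity) x
        positivity
      · have hxm : x ∈ Metric.closedBall (0 : E n) L := by
          rw [mem_closedBall_zero_iff]
          exact (not_le.mp hx).le
        rw [Set.indicator_of_mem hxm, abs_mul, abs_of_nonneg (hlam01 _).1]
        have h1 : lam (hn x) * |2 * (a x * e2 x - b x * e1 x)| ≤
            1 * |2 * (a x * e2 x - b x * e1 x)| :=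
          mul_le_mul_of_nonneg_right (hlam01 _).2 (abs_nonneg _)
        rw [one_mul] at h1
        refine h1.trans ?_
        have key : ∀ p q : ℝ, 2 * p * q ≤ θ * p ^ 2 + θ⁻¹ * q ^ 2 := by
          intro p q
          have h2 : 0 ≤ θ⁻¹ * (θ * p - q) ^ 2 := by positivity
          have h3 : θ⁻¹ * (θ * p - q) ^ 2 = θ * p ^ 2 + θ⁻¹ * q ^ 2 - 2 * p * q := by
            field_simp
            ring
          linarith
        rw [abs_le]
        constructor
        · have k1 := key (a x) (-e2 x)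
          have k2 := key (b x) (e1 x)
          nlinarith
        · have k1 := key (a x) (e2 x)
          have k2 := key (b x) (-e1 x)
          nlinarith
    · exact hIρ.const_mul θ
    · exact (hball.integrable_indicator hm).const_mul θ⁻¹
  rw [hint]
  have hρ0 : 0 ≤ ∫ x, gsq a1 b1 x := integral_nonneg fun x =>
    Finset.sum_nonneg fun j _ => by positivity
  calc |(- ∫ x, P1 x) + ∫ x, P2 x| ≤ |- ∫ x, P1 x| + |∫ x, P2 x| := abs_add_le _ _
    _ = |∫ x, P1 x| + |∫ x, P2 x| := by rw [abs_neg]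
    _ ≤ _ := by
      have h4 := mul_nonneg hθ.le hρ0
      linarith

end

end Pool.Agent.Lib_helper40.NLN
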