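import Pool.Agent.Lib_helper40.NLN.Stmts

/-!
# Calculus of mollification in `ℝⁿ`
-/

namespace Pool.Agent.Lib_helper40.NLN.MoAux

open MeasureTheory Set Filter Topology
open Pool.Agent.Lib_helper40.NLN

noncomputable section

variable {n : ℕ}

lemma mo_eq (k : E n → ℝ) (f : E n → ℂ) (x : E n) : mo k f x = ∫ y, k (x - y) • f y := by
  unfold mo
  rw [convolution_lsmul_swap]

lemma hasFD {k : E n → ℝ} (hk : Ker k) {f : E n → ℂ} (hf : LocallyIntegrable f volume)
    (x : E n) : HasFDerivAt (mo k f)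
      ((MeasureTheory.convolution (fderiv ℝ k) f
        ((ContinuousLinearMap.lsmul ℝ ℝ : ℝ →L[ℝ] ℂ →L[ℝ] ℂ).precompL (E n)) volume) x) x :=
  hk.2.hasFDerivAt_convolution_left _ (hk.1.of_le (by exact_mod_cast le_top)) hf x

lemma fd_apply {k : E n → ℝ} (hk : Ker k) {f : E n → ℂ} (hf : LocallyIntegrable f volume)
    (i : Fin n) (x : E n) :
    ((MeasureTheory.convolution (fderiv ℝ k) f
        ((ContinuousLinearMap.lsmul ℝ ℝ : ℝ →L[ℝ] ℂ →L[ℝ] ℂ).precompL (E n)) volume) x) (bv i)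
      = mo (pd i k) f x := by
  have hex : ConvolutionExistsAt (fderiv ℝ k) f x
      ((ContinuousLinearMap.lsmul ℝ ℝ : ℝ →L[ℝ] ℂ →L[ℝ] ℂ).precompL (E n)) volume :=
    (hk.2.fderiv ℝ).convolutionExists_left _
      (hk.1.continuous_fderiv (by simp)) hf x
  unfold mo
  rw [convolution_def, convolution_def, ContinuousLinearMap.integral_apply hex]
  rfl

lemma lineD {k : E n → ℝ} (hk : Ker k) {f : E n → ℂ} (hf : LocallyIntegrable f volume)
    (i : Fin n) (x : E n) : HasLineDerivAt ℝ (mo k f) (mo (pd i k) f x) x (bv i) := by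
  have h := (hasFD hk hf x).hasLineDerivAt (bv i)
  rwa [fd_apply hk hf i x] at h

lemma cont {k : E n → ℝ} (hk : Ker k) {f : E n → ℂ} (hf : LocallyIntegrable f volume) :
    Continuous (mo k f) :=
  continuous_iff_continuousAt.2 fun x => (hasFD hk hf x).continuousAt

lemma ker_refl {k : E n → ℝ} (hk : Ker k) (x : E n) : Ker (fun y => k (x - y)) := by
  refine ⟨hk.1.comp (contDiff_const.sub contDiff_id), ?_⟩
  exact hk.2.comp_homeomorph (Homeomorph.subLeft x)

lemma pd_refl {k : E n → ℝ} (hk : Ker k) (x : E n) (i : Fin n) (y : E n) :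
    pd i (fun y => k (x - y)) y = - pd i k (x - y) := by
  have h1 : HasFDerivAt k (fderiv ℝ k (x - y)) (x - y) :=
    (hk.1.differentiable (by simp)).differentiableAt.hasFDerivAt
  have h2 : HasFDerivAt (fun y : E n => x - y) (-(ContinuousLinearMap.id ℝ (E n))) y :=
    (hasFDerivAt_id y).const_sub x
  have h3 := h1.comp y h2
  have h4 : fderiv ℝ (fun y => k (x - y)) y
      = (fderiv ℝ k (x - y)).comp (-(ContinuousLinearMap.id ℝ (E n))) := h3.fderiv
  unfold pd
  rw [h4]
  simp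

lemma ibp {k : E n → ℝ} (hk : Ker k) {f : E n → ℂ} {F : Fin n → E n → ℂ} (hf : H1n f F)
    (i : Fin n) (x : E n) : mo (pd i k) f x = mo k (F i) x := by
  have h := hf.weak (fun y => k (x - y)) (ker_refl hk x) i
  simp only [pd_refl hk, neg_smul, integral_neg, neg_inj] at h
  rw [mo_eq, mo_eq]
  exact h

lemma sq_int {k : E n → ℝ} (hk : Ker k) : Integrable (fun y => k y ^ 2) := by
  have h2 : HasCompactSupport (fun y => k y ^ 2) := by
    have := hk.2.comp_left (g := fun t : ℝ => t ^ 2) (by norm_num)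
    exact this
  exact (hk.1.continuous.pow 2).integrable_of_hasCompactSupport h2

lemma sup {k : E n → ℝ} (hk : Ker k) {f : E n → ℂ} (hf : MemLp f 2 volume) (x : E n) :
    ‖mo k f x‖ ≤ (∫ y, k y ^ 2) + ∫ y, ‖f y‖ ^ 2 := by
  have hfi : Integrable (fun y => ‖f y‖ ^ 2) := hf.integrable_norm_pow (by norm_num)
  have hki : Integrable (fun y => k (x - y) ^ 2) := (sq_int hk).comp_sub_left x
  have h1 : ∫ y, k (x - y) ^ 2 = ∫ y, k y ^ 2 :=
    integral_sub_left_eq_self (fun y => k y ^ 2) volume x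
  rw [mo_eq, ← h1, ← integral_add hki hfi]
  refine norm_integral_le_of_norm_le (hki.add hfi) (ae_of_all _ fun y => ?_)
  rw [norm_smul, Real.norm_eq_abs]
  have := sq_abs (k (x - y))
  nlinarith [sq_nonneg (|k (x - y)| - ‖f y‖), sq_nonneg (|k (x - y)| + ‖f y‖), this]

lemma symm {k : E n → ℝ} (hk : Ker k) (i j : Fin n) : pd i (pd j k) = pd j (pd i k) := by
  have key : ∀ (i j : Fin n) (x : E n),
      pd i (pd j k) x = fderiv ℝ (fderiv ℝ k) x (bv i) (bv j) := by
    intro i j x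
    have hd : DifferentiableAt ℝ (fderiv ℝ k) x :=
      ((hk.1.fderiv_right (m := 1) (by norm_cast)).differentiable
        (by simp)).differentiableAt
    have h1 : HasFDerivAt (fun y => fderiv ℝ k y (bv j))
        ((ContinuousLinearMap.apply ℝ ℝ (bv j)).comp (fderiv ℝ (fderiv ℝ k) x)) x :=
      (ContinuousLinearMap.apply ℝ ℝ (bv j)).hasFDerivAt.comp x hd.hasFDerivAt
    show fderiv ℝ (fun y => fderiv ℝ k y (bv j)) x (bv i) = _
    rw [h1.fderiv]
    rfl
  funext x
  rw [key i j x, key j i x]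
  have hs : IsSymmSndFDerivAt ℝ k x :=
    hk.1.contDiffAt.isSymmSndFDerivAt (by simp; norm_cast)
  exact hs (bv i) (bv j)

end

end Pool.Agent.Lib_helper40.NLN.MoAux

namespace Pool.Agent.Lib_helper40.NLN

/-- (NLN_MO) -/
theorem mo_stmt : MoStmt := fun _ _ hk =>
  ⟨fun _ hf => ⟨MoAux.cont hk hf, fun i x => MoAux.lineD hk hf i x⟩,
    fun _ _ hf i x => MoAux.ibp hk hf i x, fun _ hf x => MoAux.sup hk hf x,
    fun i j => MoAux.symm hk i j⟩

end Pool.Agent.Lib_helper40.NLN
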