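import Pool.Agent.Lib_helper40.NLN.Stmts

/-!
# The mollified solution at a fixed time   (module NLN_SNAP, helper51)
-/

namespace Pool.Agent.Lib_helper40.NLN

open MeasureTheory Set Filter Topology

noncomputable section

namespace Snp

variable {n : ℕ}

lemma line_re {i : Fin n} {f : E n → ℂ} {f' : ℂ} {x : E n}
    (h : HasLineDerivAt ℝ f f' x (bv i)) :
    HasLineDerivAt ℝ (fun x => (f x).re) f'.re x (bv i) :=
  Complex.reCLM.hasFDerivAt.comp_hasDerivAt (0 : ℝ) h

lemma line_im {i : Fin n} {f : E n → ℂ} {f' : ℂ} {x : E n}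
    (h : HasLineDerivAt ℝ f f' x (bv i)) :
    HasLineDerivAt ℝ (fun x => (f x).im) f'.im x (bv i) :=
  Complex.imCLM.hasFDerivAt.comp_hasDerivAt (0 : ℝ) h

lemma loc {f : E n → ℂ} (h : MemLp f 2 volume) : LocallyIntegrable f volume :=
  h.locallyIntegrable (by norm_num)

/-- the cubic term is integrable, the potential term is locally integrable -/
lemma nl_loc {V : E n → ℝ} {Vm : ℝ} (hV : Continuous V) (hVm : ∀ x, |V x| ≤ Vm) {f : E n → ℂ}
    (h2 : MemLp f 2 volume) (h6 : MemLp f 6 volume) : LocallyIntegrable (nl V f) volume := by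
  have e : nl V f = fun x => V x • f x + (‖f x‖ ^ 2) • f x := by
    funext x
    simp only [nl, add_smul]
  rw [e]
  have h1 : MemLp (fun x => V x • f x) 2 volume := by
    refine h2.of_le_mul (c := Vm) (hV.aestronglyMeasurable.smul h2.1) ?_
    refine Eventually.of_forall fun x => ?_
    rw [norm_smul, Real.norm_eq_abs]
    exact mul_le_mul_of_nonneg_right (hVm x) (norm_nonneg _)
  have i2 : Integrable (fun x => ‖f x‖ ^ 2) := by
    have := h2.integrable_norm_pow (by norm_num)
    simpa using this
  have i6 : Integrable (fun x => ‖f x‖ ^ 6) := by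
    have := h6.integrable_norm_pow (by norm_num)
    simpa using this
  have h3 : Integrable (fun x => (‖f x‖ ^ 2) • f x) := by
    refine Integrable.mono' (i2.add i6) ((h2.1.norm.pow 2).smul h2.1) ?_
    refine Eventually.of_forall fun x => ?_
    simp only [Pi.add_apply]
    rw [norm_smul, norm_pow, norm_norm]
    have ht := norm_nonneg (f x)
    set t := ‖f x‖ with htt
    rcases le_total t 1 with h | h
    · have h4 : t ^ 2 * t ≤ t ^ 2 * 1 := mul_le_mul_of_nonneg_left h (by positivity)
      have h5 : 0 ≤ t ^ 6 := by positivity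
      linarith
    · have h4 : t ^ 3 ≤ t ^ 6 := pow_le_pow_right₀ h (by norm_num)
      have h5 : t ^ 2 * t = t ^ 3 := by ring
      have h6 : 0 ≤ t ^ 2 := by positivity
      linarith
  exact (loc h1).add h3.locallyIntegrable

end Snp

open Snp in
theorem snap_stmt (hM : MoStmt) : SnapStmt := by
  intro n V Vm hV hVm k hk f F hH h6
  obtain ⟨m1, m2, -, m4⟩ := hM n k hk
  have M := fun i => hM n (pd i k) (hk.pd i)
  have MM := fun i j => hM n (pd i (pd j k)) ((hk.pd j).pd i)
  have lf := loc hH.mem
  have lF := fun i => loc (hH.mem' i)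
  have lG := nl_loc hV hVm hH.mem h6
  have d0 : ∀ i x, HasLineDerivAt ℝ (mo k f) (mo k (F i) x) x (bv i) := fun i x => by
    rw [← m2 f F hH i x]
    exact (m1 f lf).2 i x
  have d1 : ∀ i j x, HasLineDerivAt ℝ (mo k (F j)) (mo (pd i k) (F j) x) x (bv i) := fun i j x =>
    (m1 (F j) (lF j)).2 i x
  have sy : ∀ i j x, mo (pd i k) (F j) x = mo (pd j k) (F i) x := fun i j x => by
    rw [← (M i).2.1 f F hH j x, ← (M j).2.1 f F hH i x, m4 j i]
  have c0 : Continuous (mo k f) := (m1 f lf).1
  have c1 : ∀ i, Continuous (mo k (F i)) := fun i => (m1 (F i) (lF i)).1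
  have c2 : ∀ i j, Continuous (mo (pd i k) (F j)) := fun i j => ((M i).1 (F j) (lF j)).1
  have c3 : Continuous (mo k (nl V f)) := (m1 _ lG).1
  have c4 : ∀ i, Continuous (mo (pd i k) (nl V f)) := fun i => ((M i).1 _ lG).1
  have c5 : ∀ i j l, Continuous (mo (pd i (pd j k)) (F l)) := fun i j l =>
    ((MM i j).1 (F l) (lF l)).1
  have dv : ∀ i x, HasLineDerivAt ℝ (vv V k f F) (ww V k f F i x) x (bv i) := fun i x => by
    have h1 : HasDerivAt (fun t : ℝ => ∑ l, mo (pd l k) (F l) (x + t • bv i))
        (∑ l, mo (pd i (pd l k)) (F l) x) 0 :=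
      HasDerivAt.fun_sum fun l _ => ((M l).1 (F l) (lF l)).2 i x
    have h2 : HasDerivAt (fun t : ℝ => mo k (nl V f) (x + t • bv i))
        (mo (pd i k) (nl V f) x) 0 := (m1 _ lG).2 i x
    exact (h1.const_mul Complex.I).sub (h2.const_mul Complex.I)
  have cv : Continuous (vv V k f F) := by
    unfold vv
    exact (continuous_const.mul (continuous_finsetSum _ fun i _ => c2 i i)).sub
      (continuous_const.mul c3)
  have cw : ∀ j, Continuous (ww V k f F j) := fun j => by
    unfold ww
    exact (continuous_const.mul (continuous_finsetSum _ fun i _ => c5 j i i)).sub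
      (continuous_const.mul (c4 j))
  have ce : Continuous (ee V k f) := by
    unfold ee
    exact c3.sub ((hV.add (c0.norm.pow 2)).smul c0)
  have hsq : ∀ z : ℂ, ‖z‖ ^ 2 = z.re ^ 2 + z.im ^ 2 := fun z => by
    rw [← Complex.normSq_eq_norm_sq, Complex.normSq_apply]; ring
  refine
    { da := fun i x => line_re (d0 i x)
      da1 := fun i j x => line_re (d1 i j x)
      sa := fun i j x => by simp only [sy i j x]
      db := fun i x => line_im (d0 i x)
      db1 := fun i j x => line_im (d1 i j x)
      sb := fun i j x => by simp only [sy i j x]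
      dv1 := fun i x => line_re (dv i x)
      dv2 := fun i x => line_im (dv i x)
      hv1 := fun x => ?_
      hv2 := fun x => ?_
      ca := Complex.continuous_re.comp c0
      cb := Complex.continuous_im.comp c0
      ca1 := fun i => Complex.continuous_re.comp (c1 i)
      cb1 := fun i => Complex.continuous_im.comp (c1 i)
      ca2 := fun i j => Complex.continuous_re.comp (c2 i j)
      cb2 := fun i j => Complex.continuous_im.comp (c2 i j)
      cv1 := Complex.continuous_re.comp cv
      cv2 := Complex.continuous_im.comp cv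
      cw1 := fun i => Complex.continuous_re.comp (cw i)
      cw2 := fun i => Complex.continuous_im.comp (cw i)
      ce1 := Complex.continuous_re.comp ce
      ce2 := Complex.continuous_im.comp ce }
  · simp only [vv, ee, Complex.sub_re, Complex.sub_im, Complex.mul_re, Complex.I_re, Complex.I_im,
      Complex.real_smul, Complex.mul_im, Complex.ofReal_re, Complex.ofReal_im, Complex.re_sum,
      Complex.im_sum, hsq]
    ring
  · simp only [vv, ee, Complex.sub_re, Complex.sub_im, Complex.mul_re, Complex.I_re, Complex.I_im,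
      Complex.real_smul, Complex.mul_im, Complex.ofReal_re, Complex.ofReal_im, Complex.re_sum,
      Complex.im_sum, hsq]
    ring

end

end Pool.Agent.Lib_helper40.NLN
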