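import Pool.Agent.Lib_helper40.NLN.Stmts

/-!
# Time derivatives of localized virial functionals and masses (helper76)
-/

namespace Pool.Agent.Lib_helper40.NLN

open MeasureTheory Set Filter Topology

noncomputable section

namespace Tm

variable {n : ℕ} {V : E n → ℝ} {ψ : ℝ → E n → ℂ} {ψ' : ℝ → Fin n → E n → ℂ} {C Vm : ℝ}

lemma mo_eq (k : E n → ℝ) (f : E n → ℂ) (x : E n) : mo k f x = ∫ y, k (x - y) • f y :=
  convolution_lsmul_swap

lemma shift_ker {k : E n → ℝ} (hk : Ker k) (x : E n) :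
    Ker (fun y => k (x - y)) ∧ ∀ i y, pd i (fun y => k (x - y)) y = -(pd i k (x - y)) := by
  refine ⟨⟨hk.1.comp (contDiff_const.sub contDiff_id),
    hk.2.comp_homeomorph (Homeomorph.subLeft x)⟩, fun i y => ?_⟩
  have h1 : HasFDerivAt k (fderiv ℝ k (x - y)) (x - y) :=
    (hk.1.differentiable (by simp)).differentiableAt.hasFDerivAt
  have h2 : HasFDerivAt (fun y : E n => x - y) (-ContinuousLinearMap.id ℝ (E n)) y :=
    (hasFDerivAt_id y).const_sub x
  have h3 := h1.comp y h2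
  unfold pd
  have h4 : fderiv ℝ (fun y => k (x - y)) y =
      (fderiv ℝ k (x - y)).comp (-ContinuousLinearMap.id ℝ (E n)) := h3.fderiv
  rw [h4]
  simp

/-- the zeroth order term is square integrable -/
lemma nl_mem (hV : Continuous V) (hVm : ∀ x, |V x| ≤ Vm) {f : E n → ℂ}
    (h2 : MemLp f 2 volume) (h6 : MemLp f 6 volume) :
    MemLp (nl V f) 2 volume ∧
      ∫ x, ‖nl V f x‖ ^ 2 ≤ 2 * Vm ^ 2 * (∫ x, ‖f x‖ ^ 2) + 2 * ∫ x, ‖f x‖ ^ 6 := by
  have hm : AEStronglyMeasurable (nl V f) volume :=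
    (hV.aestronglyMeasurable.add (h2.1.norm.pow 2)).smul h2.1
  have i2 : Integrable (fun x => ‖f x‖ ^ 2) volume := by
    have := h2.integrable_norm_pow (p := 2) (by norm_num)
    exact this
  have i6 : Integrable (fun x => ‖f x‖ ^ 6) volume := by
    have := h6.integrable_norm_pow (p := 6) (by norm_num)
    exact this
  have ib : Integrable (fun x => 2 * Vm ^ 2 * ‖f x‖ ^ 2 + 2 * ‖f x‖ ^ 6) volume :=
    (i2.const_mul _).add (i6.const_mul _)
  have hb : ∀ x, ‖nl V f x‖ ^ 2 ≤ 2 * Vm ^ 2 * ‖f x‖ ^ 2 + 2 * ‖f x‖ ^ 6 := by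
    intro x
    unfold nl
    rw [norm_smul, mul_pow, Real.norm_eq_abs, sq_abs]
    have h1 : V x ^ 2 ≤ Vm ^ 2 := by
      rw [← sq_abs]
      exact pow_le_pow_left₀ (abs_nonneg _) (hVm x) 2
    have h3 : (V x + ‖f x‖ ^ 2) ^ 2 ≤ 2 * Vm ^ 2 + 2 * ‖f x‖ ^ 4 := by
      nlinarith [sq_nonneg (V x - ‖f x‖ ^ 2)]
    calc (V x + ‖f x‖ ^ 2) ^ 2 * ‖f x‖ ^ 2 ≤ (2 * Vm ^ 2 + 2 * ‖f x‖ ^ 4) * ‖f x‖ ^ 2 :=
          mul_le_mul_of_nonneg_right h3 (by positivity)
      _ = _ := by ring
  have in2 : Integrable (fun x => ‖nl V f x‖ ^ 2) volume := by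
    refine ib.mono' (hm.norm.pow 2) (ae_of_all _ fun x => ?_)
    rw [Real.norm_of_nonneg (by positivity)]
    exact hb x
  refine ⟨(memLp_two_iff_integrable_sq_norm hm).2 in2, ?_⟩
  refine (integral_mono in2 ib hb).trans ?_
  rw [integral_add (i2.const_mul _) (i6.const_mul _), integral_const_mul, integral_const_mul]

lemma C0 (h : SolN V ψ ψ' C) : 0 ≤ C :=
  le_trans (integral_nonneg fun _ => by positivity) (h.bd 0)

lemma int_le (h : SolN V ψ ψ' C) (t : ℝ) :
    ∫ x, ‖ψ t x‖ ^ 2 ≤ C ∧ ∀ i, ∫ x, ‖ψ' t i x‖ ^ 2 ≤ C := by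
  have i1 : Integrable (fun x => ‖ψ t x‖ ^ 2) volume := by
    have := (h.h1 t).mem.integrable_norm_pow (p := 2) (by norm_num)
    exact this
  have i2 : ∀ i, Integrable (fun x => ‖ψ' t i x‖ ^ 2) volume := by
    intro i
    have := ((h.h1 t).mem' i).integrable_norm_pow (p := 2) (by norm_num)
    exact this
  have i3 : Integrable (fun x => ‖ψ t x‖ ^ 2 + ∑ i, ‖ψ' t i x‖ ^ 2) volume :=
    i1.add (integrable_finsetSum _ fun i _ => i2 i)
  refine ⟨(integral_mono i1 i3 fun x => ?_).trans (h.bd t), fun i =>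
    (integral_mono (i2 i) i3 fun x => ?_).trans (h.bd t)⟩
  · have : 0 ≤ ∑ i, ‖ψ' t i x‖ ^ 2 := Finset.sum_nonneg fun _ _ => by positivity
    simpa using this
  · have h1 : ‖ψ' t i x‖ ^ 2 ≤ ∑ i, ‖ψ' t i x‖ ^ 2 :=
      Finset.single_le_sum (f := fun i => ‖ψ' t i x‖ ^ 2) (fun _ _ => by positivity)
        (Finset.mem_univ i)
    have h2 : 0 ≤ ‖ψ t x‖ ^ 2 := by positivity
    simp only
    linarith

/-- time derivative of the mollified solution -/
lemma mo_time (hV : Continuous V) (hVm : ∀ x, |V x| ≤ Vm) (h : SolN V ψ ψ' C) {k : E n → ℝ}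
    (hk : Ker k) (x : E n) (t : ℝ) :
    HasDerivAt (fun s => mo k (ψ s) x) (vv V k (ψ t) (ψ' t) x) t := by
  obtain ⟨hη, hη'⟩ := shift_ker hk x
  have h1 := h.eqn _ hη t
  have hcs : ∀ {g : E n → ℝ}, HasCompactSupport g → HasCompactSupport fun y => g (x - y) :=
    fun hg => hg.comp_homeomorph (Homeomorph.subLeft x)
  have i1 : ∀ i, Integrable fun y => pd i k (x - y) • ψ' t i y := fun i =>
    (((h.h1 t).mem' i).locallyIntegrable (by norm_num)).integrable_smul_left_of_hasCompactSupport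
      ((hk.pd i).cont.comp (by fun_prop)) (hcs (hk.pd i).2)
  have i2 : Integrable fun y => k (x - y) • nl V (ψ t) y :=
    (((nl_mem hV hVm (h.h1 t).mem (h.l6 t)).1).locallyIntegrable
      (by norm_num)).integrable_smul_left_of_hasCompactSupport
      (hk.cont.comp (by fun_prop)) (hcs hk.2)
  have e1 : ∀ y, (∑ i, pd i (fun y => k (x - y)) y • ψ' t i y) + k (x - y) • nl V (ψ t) y =
      -(∑ i, pd i k (x - y) • ψ' t i y) + k (x - y) • nl V (ψ t) y := fun y => by
    congr 1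
    rw [← Finset.sum_neg_distrib]
    exact Finset.sum_congr rfl fun i _ => by rw [hη', neg_smul]
  have e3 : (∫ y, ((∑ i, pd i (fun y => k (x - y)) y • ψ' t i y) + k (x - y) • nl V (ψ t) y)) =
      -(∑ i, mo (pd i k) (ψ' t i) x) + mo k (nl V (ψ t)) x := by
    simp only [e1]
    have i3 : Integrable fun y => -(∑ i, pd i k (x - y) • ψ' t i y) :=
      (integrable_finsetSum _ fun i _ => i1 i).neg
    rw [integral_add i3 i2, integral_neg, integral_finsetSum _ fun i _ => i1 i, ← mo_eq]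
    simp only [← mo_eq]
  rw [e3] at h1
  have e2 : (fun s => mo k (ψ s) x) = fun s => ∫ y, k (x - y) • ψ s y := by
    funext s; exact mo_eq k (ψ s) x
  rw [e2]
  refine h1.congr_deriv ?_
  unfold vv
  ring

lemma re_der {f : ℝ → ℂ} {f' : ℂ} {x : ℝ} (h : HasDerivAt f f' x) :
    HasDerivAt (fun x => (f x).re) f'.re x :=
  (Complex.reCLM.hasFDerivAt.comp_hasDerivAt x h)

lemma im_der {f : ℝ → ℂ} {f' : ℂ} {x : ℝ} (h : HasDerivAt f f' x) :
    HasDerivAt (fun x => (f x).im) f'.im x :=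
  (Complex.imCLM.hasFDerivAt.comp_hasDerivAt x h)

/-- differentiation under the integral sign -/
lemma param {p : E n → ℝ} (hp : CK p) {G G' : ℝ → E n → ℝ} {K : ℝ}
    (hG : ∀ t, Continuous (G t)) (hG' : ∀ t, Continuous (G' t)) (hb : ∀ t x, |G' t x| ≤ K)
    (hd : ∀ t x, HasDerivAt (fun s => G s x) (G' t x) t) (t : ℝ) :
    HasDerivAt (fun s => ∫ x, p x * G s x) (∫ x, p x * G' t x) t := by
  refine (hasDerivAt_integral_of_dominated_loc_of_deriv_le (s := univ)
    (F := fun s x => p x * G s x) (F' := fun s x => p x * G' s x)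
    (bound := fun x => K * |p x|) univ_mem ?_ ?_ ?_ ?_ ?_ ?_).2
  · exact Eventually.of_forall fun s => (hp.1.mul (hG s)).aestronglyMeasurable
  · exact (hp.1.mul (hG t)).integrable_of_hasCompactSupport hp.2.mul_right
  · exact (hp.1.mul (hG' t)).aestronglyMeasurable
  · refine ae_of_all _ fun x s _ => ?_
    rw [norm_mul, Real.norm_eq_abs, Real.norm_eq_abs, mul_comm]
    exact mul_le_mul_of_nonneg_right (hb s x) (abs_nonneg _)
  · exact hp.int.abs.const_mul K
  · exact ae_of_all _ fun x s _ => (hd s x).const_mul _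

/-- uniform bounds -/
lemma kb (hM : MoStmt) (hV : Continuous V) (hVm : ∀ x, |V x| ≤ Vm) (h : SolN V ψ ψ' C)
    {k : E n → ℝ} (hk : Ker k) : ∃ K, 0 ≤ K ∧ ∀ t x, ‖mo k (ψ t) x‖ ≤ K ∧
      (∀ i, ‖mo k (ψ' t i) x‖ ≤ K) ∧ ‖mo k (nl V (ψ t)) x‖ ≤ K := by
  obtain ⟨-, -, h3, -⟩ := hM n k hk
  have hC := C0 h
  have hk0 : 0 ≤ ∫ y, k y ^ 2 := integral_nonneg fun _ => by positivity
  have hVC : 0 ≤ Vm ^ 2 * C := by positivity
  refine ⟨(∫ y, k y ^ 2) + (2 * Vm ^ 2 * C + 2 * C), by positivity, fun t x => ⟨?_, ?_, ?_⟩⟩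
  · have := h3 (ψ t) (h.h1 t).mem x
    have := (int_le h t).1
    nlinarith
  · intro i
    have := h3 (ψ' t i) ((h.h1 t).mem' i) x
    have := (int_le h t).2 i
    nlinarith
  · obtain ⟨m1, m2⟩ := nl_mem hV hVm (h.h1 t).mem (h.l6 t)
    have a1 := h3 _ m1 x
    have a2 := (int_le h t).1
    have a3 := h.bd6 t
    have a4 : 2 * Vm ^ 2 * (∫ x, ‖ψ t x‖ ^ 2) ≤ 2 * Vm ^ 2 * C :=
      mul_le_mul_of_nonneg_left a2 (by positivity)
    linarith

/-- uniform bound of the time derivative -/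
lemma vb (hM : MoStmt) (hV : Continuous V) (hVm : ∀ x, |V x| ≤ Vm) (h : SolN V ψ ψ' C)
    {k : E n → ℝ} (hk : Ker k) : ∃ K, 0 ≤ K ∧ ∀ t x, ‖vv V k (ψ t) (ψ' t) x‖ ≤ K := by
  obtain ⟨K0, hK0, b0⟩ := kb hM hV hVm h hk
  choose K hK b using fun i => kb hM hV hVm h (hk.pd i)
  refine ⟨(∑ i, K i) + K0, add_nonneg (Finset.sum_nonneg fun i _ => hK i) hK0, fun t x => ?_⟩
  unfold vv
  refine (norm_sub_le _ _).trans ?_
  rw [norm_mul, norm_mul, Complex.norm_I, one_mul, one_mul]
  refine add_le_add ((norm_sum_le _ _).trans (Finset.sum_le_sum fun i _ => ?_)) (b0 t x).2.2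
  exact (b i t x).2.1 i

lemma ww_eq (hM : MoStmt) {k : E n → ℝ} (hk : Ker k) (f : E n → ℂ) (F : Fin n → E n → ℂ)
    (j : Fin n) (x : E n) : ww V k f F j x = vv V (pd j k) f F x := by
  unfold ww vv
  simp only [(hM n k hk).2.2.2]

end Tm

open Tm

theorem time_stmt (hM : MoStmt) (hS : SnapStmt) : TimeStmt := by
  intro n V Vm hV hVm ψ ψ' C h k hk p hp t
  have hSn := fun t => hS n V Vm hV hVm k hk (ψ t) (ψ' t) (h.h1 t) (h.l6 t)
  obtain ⟨K0, hK0, b0⟩ := kb hM hV hVm h hk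
  obtain ⟨K1, hK1, b1⟩ := vb hM hV hVm h hk
  constructor
  · intro j
    obtain ⟨K2, hK2, b2⟩ := vb hM hV hVm h (hk.pd j)
    refine param hp (K := 2 * (K1 * K0) + 2 * (K0 * K2))
      (G := fun s x => (mo k (ψ s) x).re * (mo k (ψ' s j) x).im
        - (mo k (ψ s) x).im * (mo k (ψ' s j) x).re)
      (G' := fun t x => (vv V k (ψ t) (ψ' t) x).re * (mo k (ψ' t j) x).im
        + (mo k (ψ t) x).re * (ww V k (ψ t) (ψ' t) j x).im
        - (vv V k (ψ t) (ψ' t) x).im * (mo k (ψ' t j) x).re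
        - (mo k (ψ t) x).im * (ww V k (ψ t) (ψ' t) j x).re) (fun t => ?_) (fun t => ?_)
      (fun t x => ?_) (fun t x => ?_) t
    · exact ((hSn t).ca.mul ((hSn t).cb1 j)).sub ((hSn t).cb.mul ((hSn t).ca1 j))
    · exact ((((hSn t).cv1.mul ((hSn t).cb1 j)).add ((hSn t).ca.mul ((hSn t).cw2 j))).sub
        ((hSn t).cv2.mul ((hSn t).ca1 j))).sub ((hSn t).cb.mul ((hSn t).cw1 j))
    · have c0 := (b0 t x).1
      have c1 := (b0 t x).2.1 j
      have c2 := b1 t x
      have c3 : ‖ww V k (ψ t) (ψ' t) j x‖ ≤ K2 := by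
        rw [ww_eq hM hk]
        exact b2 t x
      set U := mo k (ψ t) x with hU
      set U1 := mo k (ψ' t j) x with hU1
      set v := vv V k (ψ t) (ψ' t) x with hv
      set w := ww V k (ψ t) (ψ' t) j x with hw
      have r1 : |v.re * U1.im| ≤ K1 * K0 := by
        rw [abs_mul]
        exact mul_le_mul ((Complex.abs_re_le_norm v).trans c2)
          ((Complex.abs_im_le_norm U1).trans c1) (abs_nonneg _) (by positivity)
      have r2 : |v.im * U1.re| ≤ K1 * K0 := by
        rw [abs_mul]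
        exact mul_le_mul ((Complex.abs_im_le_norm v).trans c2)
          ((Complex.abs_re_le_norm U1).trans c1) (abs_nonneg _) (by positivity)
      have r3 : |U.re * w.im| ≤ K0 * K2 := by
        rw [abs_mul]
        exact mul_le_mul ((Complex.abs_re_le_norm U).trans c0)
          ((Complex.abs_im_le_norm w).trans c3) (abs_nonneg _) (by positivity)
      have r4 : |U.im * w.re| ≤ K0 * K2 := by
        rw [abs_mul]
        exact mul_le_mul ((Complex.abs_im_le_norm U).trans c0)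
          ((Complex.abs_re_le_norm w).trans c3) (abs_nonneg _) (by positivity)
      have := abs_le.1 r1
      have := abs_le.1 r2
      have := abs_le.1 r3
      have := abs_le.1 r4
      rw [abs_le]
      constructor <;> linarith
    · have t0 := mo_time hV hVm h hk x t
      have t1 : HasDerivAt (fun s => mo k (ψ' s j) x) (ww V k (ψ t) (ψ' t) j x) t := by
        have h1 := mo_time hV hVm h (hk.pd j) x t
        rw [← ww_eq hM hk] at h1
        have e : (fun s => mo (pd j k) (ψ s) x) = fun s => mo k (ψ' s j) x := by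
          funext s
          exact (hM n k hk).2.1 _ _ (h.h1 s) j x
        rwa [e] at h1
      have H := ((re_der t0).mul (im_der t1)).sub ((im_der t0).mul (re_der t1))
      refine H.congr_deriv ?_
      ring
  · refine param hp (K := 4 * (K0 * K1))
      (G := fun s x => (mo k (ψ s) x).re ^ 2 + (mo k (ψ s) x).im ^ 2)
      (G' := fun t x => 2 * ((mo k (ψ t) x).re * (vv V k (ψ t) (ψ' t) x).re
        + (mo k (ψ t) x).im * (vv V k (ψ t) (ψ' t) x).im)) (fun t => ?_) (fun t => ?_)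
      (fun t x => ?_) (fun t x => ?_) t
    · exact ((hSn t).ca.pow 2).add ((hSn t).cb.pow 2)
    · exact continuous_const.mul (((hSn t).ca.mul (hSn t).cv1).add ((hSn t).cb.mul (hSn t).cv2))
    · have c0 := (b0 t x).1
      have c2 := b1 t x
      set U := mo k (ψ t) x with hU
      set v := vv V k (ψ t) (ψ' t) x with hv
      have r1 : |U.re * v.re| ≤ K0 * K1 := by
        rw [abs_mul]
        exact mul_le_mul ((Complex.abs_re_le_norm U).trans c0)
          ((Complex.abs_re_le_norm v).trans c2) (abs_nonneg _) (by positivity)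
      have r2 : |U.im * v.im| ≤ K0 * K1 := by
        rw [abs_mul]
        exact mul_le_mul ((Complex.abs_im_le_norm U).trans c0)
          ((Complex.abs_im_le_norm v).trans c2) (abs_nonneg _) (by positivity)
      have := abs_le.1 r1
      have := abs_le.1 r2
      rw [abs_le]
      constructor <;> linarith
    · have t0 := mo_time hV hVm h hk x t
      have H := ((re_der t0).pow 2).add ((im_der t0).pow 2)
      refine H.congr_deriv ?_
      push_cast
      ring

end

end Pool.Agent.Lib_helper40.NLN
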