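import Pool.Agent.Lib_helper40.NLN.Vir2
import Pool.Agent.Lib_helper40.NLN.Mo
import Pool.Agent.Lib_helper40.NLN.ConB
import Pool.Agent.Lib_helper40.NLN.Snap
import Pool.Agent.Lib_helper40.NLN.Time
import Pool.Agent.Lib_helper40.NLN.Mass
import Pool.Agent.Lib_helper40.NLN.Cut
import Pool.Agent.Lib_helper40.NLN.Fld
import Pool.Agent.Lib_helper40.NLN.Err

/-!
# Assembly, part 1: bounds for the mollified solution
-/

namespace Pool.Agent.Lib_helper40.NLN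

open MeasureTheory Set Filter Topology

noncomputable section

variable {n : ℕ}

lemma exists_avg {ε : ℝ} (hε : 0 < ε) : ∃ k : E n → ℝ, Avg k ε := by
  let φ : ContDiffBump (0 : E n) := ⟨ε / 2, ε, by linarith, by linarith⟩
  refine ⟨φ.normed volume, ⟨φ.contDiff_normed, φ.hasCompactSupport_normed⟩,
    φ.nonneg_normed, φ.integral_normed, fun x hx => ?_⟩
  by_contra hc
  have h : x ∈ Function.support (φ.normed volume) := hc
  rw [φ.support_normed_eq, Metric.mem_ball, dist_zero_right] at h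
  have : φ.rOut = ε := rfl
  linarith

lemma sq_re_im (z : ℂ) : z.re ^ 2 + z.im ^ 2 = ‖z‖ ^ 2 := by
  rw [← Complex.normSq_eq_norm_sq, Complex.normSq_apply]; ring

section

variable {V : E n → ℝ} {ψ : ℝ → E n → ℂ} {ψ' : ℝ → Fin n → E n → ℂ} {C : ℝ}

/-- the mollified gradient -/
lemma gsq_eq (k : E n → ℝ) (F : Fin n → E n → ℂ) (x : E n) :
    gsq (fun i x => (mo k (F i) x).re) (fun i x => (mo k (F i) x).im) x =
      ∑ i, ‖mo k (F i) x‖ ^ 2 := by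
  unfold gsq
  exact Finset.sum_congr rfl fun i _ => sq_re_im _

/-- uniform bounds after mollification -/
theorem moll_bd (h : SolN V ψ ψ' C) {k : E n → ℝ} {ε : ℝ} (hk : Avg k ε) (t : ℝ) :
    Integrable (fun x => (mo k (ψ t) x).re ^ 2 + (mo k (ψ t) x).im ^ 2) ∧
    Integrable (gsq (fun i x => (mo k (ψ' t i) x).re) (fun i x => (mo k (ψ' t i) x).im)) ∧
    Integrable (fun x => ((mo k (ψ t) x).re ^ 2 + (mo k (ψ t) x).im ^ 2) ^ 2) ∧
    ((∫ x, ((mo k (ψ t) x).re ^ 2 + (mo k (ψ t) x).im ^ 2)) +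
      ∫ x, gsq (fun i x => (mo k (ψ' t i) x).re) (fun i x => (mo k (ψ' t i) x).im) x ≤ C) ∧
    (∫ x, ((mo k (ψ t) x).re ^ 2 + (mo k (ψ t) x).im ^ 2) ^ 2 ≤ C) ∧
    (∫ x, ((mo k (ψ t) x).re ^ 2 + (mo k (ψ t) x).im ^ 2) ≤ ∫ x, ‖ψ t x‖ ^ 2) := by
  have hc := con_stmt n k ε hk
  have h0 := (hc (ψ t) (h.h1 t).mem).1
  have h4 := (hc (ψ t) (h.h1 t).mem).2 (h.l6 t)
  have h1 := fun i => (hc (ψ' t i) ((h.h1 t).mem' i)).1
  have i0 : Integrable fun x => ‖ψ t x‖ ^ 2 := (h.h1 t).mem.integrable_norm_pow (by norm_num)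
  have i1 : ∀ i, Integrable fun x => ‖ψ' t i x‖ ^ 2 := fun i =>
    ((h.h1 t).mem' i).integrable_norm_pow (by norm_num)
  have iG : Integrable (fun x => ∑ i, ‖mo k (ψ' t i) x‖ ^ 2) :=
    integrable_finsetSum _ fun i _ => (h1 i).1
  have hbd := h.bd t
  rw [integral_add i0 (integrable_finsetSum _ fun i _ => i1 i),
    integral_finsetSum _ fun i _ => i1 i] at hbd
  have hG : ∫ x, ∑ i, ‖mo k (ψ' t i) x‖ ^ 2 ≤ ∑ i, ∫ x, ‖ψ' t i x‖ ^ 2 := by
    rw [integral_finsetSum _ fun i _ => (h1 i).1]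
    exact Finset.sum_le_sum fun i _ => (h1 i).2
  have hGn : 0 ≤ ∑ i, ∫ x, ‖ψ' t i x‖ ^ 2 :=
    Finset.sum_nonneg fun i _ => integral_nonneg fun _ => by positivity
  have e4 : ∀ x, (‖mo k (ψ t) x‖ ^ 2) ^ 2 = ‖mo k (ψ t) x‖ ^ 4 := fun x => by ring
  simp only [sq_re_im, e4]
  have eg : gsq (fun i x => (mo k (ψ' t i) x).re) (fun i x => (mo k (ψ' t i) x).im) =
      fun x => ∑ i, ‖mo k (ψ' t i) x‖ ^ 2 := funext fun x => gsq_eq k (ψ' t) x
  rw [eg]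
  refine ⟨h0.1, iG, h4.1, ?_, ?_, h0.2⟩
  · linarith [h0.2]
  · have h6 := h.bd6 t
    have := h4.2
    linarith

/-- comparison of weighted masses -/
lemma mass_close {f g : E n → ℂ} (hf : Integrable fun x => ‖f x‖ ^ 2)
    (hg : Integrable fun x => ‖g x‖ ^ 2) (cf : AEStronglyMeasurable f volume)
    (cg : AEStronglyMeasurable g volume) {p : E n → ℝ} (hp : Continuous p)
    (hp0 : ∀ x, 0 ≤ p x) (hp1 : ∀ x, p x ≤ 1) {L : ℝ} (hpL : ∀ x, L < ‖x‖ → p x = 0)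
    {α : ℝ} (hα : 0 < α) :
    |(∫ x, p x * ‖f x‖ ^ 2) - ∫ x, p x * ‖g x‖ ^ 2| ≤
      α * ((∫ x, ‖f x‖ ^ 2) + ∫ x, ‖g x‖ ^ 2) +
      α⁻¹ * ∫ x in Metric.closedBall (0 : E n) L, ‖f x - g x‖ ^ 2 := by
  have hd : Integrable fun x => ‖f x - g x‖ ^ 2 := by
    refine ((hf.const_mul 2).add (hg.const_mul 2)).mono' ((cf.sub cg).norm.pow 2)
      (ae_of_all _ fun x => ?_)
    rw [norm_pow, norm_norm]
    have h1 : ‖f x - g x‖ ≤ ‖f x‖ + ‖g x‖ := norm_sub_le _ _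
    simp only [Pi.add_apply]
    nlinarith [norm_nonneg (f x), norm_nonneg (g x), norm_nonneg (f x - g x),
      sq_nonneg (‖f x‖ - ‖g x‖)]
  have ipf : Integrable fun x => p x * ‖f x‖ ^ 2 := by
    refine hf.bdd_mul (c := 1) hp.aestronglyMeasurable (ae_of_all _ fun x => ?_)
    rw [Real.norm_eq_abs, abs_of_nonneg (hp0 x)]; exact hp1 x
  have ipg : Integrable fun x => p x * ‖g x‖ ^ 2 := by
    refine hg.bdd_mul (c := 1) hp.aestronglyMeasurable (ae_of_all _ fun x => ?_)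
    rw [Real.norm_eq_abs, abs_of_nonneg (hp0 x)]; exact hp1 x
  have hdi : Integrable ((Metric.closedBall (0 : E n) L).indicator fun x => ‖f x - g x‖ ^ 2) :=
    hd.indicator measurableSet_closedBall
  rw [← integral_sub ipf ipg, ← Real.norm_eq_abs]
  have hb : Integrable fun x => α * (‖f x‖ ^ 2 + ‖g x‖ ^ 2) + α⁻¹ *
      (Metric.closedBall (0 : E n) L).indicator (fun x => ‖f x - g x‖ ^ 2) x :=
    ((hf.add hg).const_mul _).add (hdi.const_mul _)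
  refine (norm_integral_le_of_norm_le hb (ae_of_all _ fun x => ?_)).trans (le_of_eq ?_)
  · rw [Real.norm_eq_abs]
    have hin : 0 ≤ (Metric.closedBall (0 : E n) L).indicator (fun x => ‖f x - g x‖ ^ 2) x :=
      indicator_nonneg (fun _ _ => by positivity) x
    by_cases hx : L < ‖x‖
    · rw [hpL x hx]
      simp only [zero_mul, sub_zero, abs_zero]
      positivity
    · have hxb : x ∈ Metric.closedBall (0 : E n) L := by
        rw [Metric.mem_closedBall, dist_zero_right]; exact not_lt.1 hx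
      rw [indicator_of_mem hxb, ← mul_sub, abs_mul, abs_of_nonneg (hp0 x)]
      have h1 : |‖f x‖ - ‖g x‖| ≤ ‖f x - g x‖ := abs_norm_sub_norm_le _ _
      have h2 : ‖f x‖ ^ 2 - ‖g x‖ ^ 2 = (‖f x‖ + ‖g x‖) * (‖f x‖ - ‖g x‖) := by ring
      have h3 : |‖f x‖ ^ 2 - ‖g x‖ ^ 2| ≤ (‖f x‖ + ‖g x‖) * ‖f x - g x‖ := by
        rw [h2, abs_mul, abs_of_nonneg (by positivity : 0 ≤ ‖f x‖ + ‖g x‖)]
        gcongr
      have h4 : (‖f x‖ + ‖g x‖) * ‖f x - g x‖ ≤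
          α * (‖f x‖ ^ 2 + ‖g x‖ ^ 2) + α⁻¹ * ‖f x - g x‖ ^ 2 := by
        have h5 : 0 ≤ (α * (‖f x‖ + ‖g x‖) - 2 * ‖f x - g x‖) ^ 2 / (4 * α) := by positivity
        have h6 : (α * (‖f x‖ + ‖g x‖) - 2 * ‖f x - g x‖) ^ 2 / (4 * α) =
            α / 4 * (‖f x‖ + ‖g x‖) ^ 2 - (‖f x‖ + ‖g x‖) * ‖f x - g x‖
              + α⁻¹ * ‖f x - g x‖ ^ 2 := by
          field_simp
          ring
        have h7 : α / 4 * (‖f x‖ + ‖g x‖) ^ 2 ≤ α * (‖f x‖ ^ 2 + ‖g x‖ ^ 2) := by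
          have : 0 ≤ α * ((‖f x‖ - ‖g x‖) ^ 2) := by positivity
          have : 0 ≤ α * (‖f x‖ ^ 2 + ‖g x‖ ^ 2) := by positivity
          nlinarith
        linarith
      calc p x * |‖f x‖ ^ 2 - ‖g x‖ ^ 2| ≤ 1 * |‖f x‖ ^ 2 - ‖g x‖ ^ 2| :=
            mul_le_mul_of_nonneg_right (hp1 x) (abs_nonneg _)
        _ ≤ _ := by rw [one_mul]; exact h3.trans h4
  · have e1 : Integrable fun x => α * (‖f x‖ ^ 2 + ‖g x‖ ^ 2) := (hf.add hg).const_mul _
    rw [integral_add e1 (hdi.const_mul _), integral_const_mul, integral_const_mul,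
      integral_add hf hg, integral_indicator measurableSet_closedBall]

end

end

end Pool.Agent.Lib_helper40.NLN
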