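import Pool.Agent.Lib_helper40.NLN.Defs

/-!
# Partial derivatives
-/

namespace Pool.Agent.Lib_helper40.NLN

open MeasureTheory Set Filter Topology

noncomputable section

variable {n : ℕ}

/-- `f'` is the `i`-th partial derivative of `f` -/
def PD (i : Fin n) (f f' : E n → ℝ) : Prop := ∀ x, HasLineDerivAt ℝ f (f' x) x (bv i)

lemma PD.congr {i : Fin n} {f f' g' : E n → ℝ} (h : PD i f f') (hg : ∀ x, g' x = f' x) :
    PD i f g' := fun x => by rw [hg]; exact h x

lemma PD.mul {i : Fin n} {f f' g g' : E n → ℝ} (hf : PD i f f') (hg : PD i g g') :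
    PD i (fun x => f x * g x) (fun x => f' x * g x + f x * g' x) := fun x => by
  have := HasDerivAt.mul (hf x) (hg x)
  simp only [zero_smul, add_zero] at this
  exact this

lemma PD.add {i : Fin n} {f f' g g' : E n → ℝ} (hf : PD i f f') (hg : PD i g g') :
    PD i (fun x => f x + g x) (fun x => f' x + g' x) := fun x =>
  HasDerivAt.add (hf x) (hg x)

lemma PD.sub {i : Fin n} {f f' g g' : E n → ℝ} (hf : PD i f f') (hg : PD i g g') :
    PD i (fun x => f x - g x) (fun x => f' x - g' x) := fun x =>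
  HasDerivAt.sub (hf x) (hg x)

lemma PD.neg {i : Fin n} {f f' : E n → ℝ} (hf : PD i f f') :
    PD i (fun x => -f x) (fun x => -f' x) := fun x =>
  HasDerivAt.neg (hf x)

lemma PD.const_mul {i : Fin n} {f f' : E n → ℝ} (c : ℝ) (hf : PD i f f') :
    PD i (fun x => c * f x) (fun x => c * f' x) := fun x =>
  HasDerivAt.const_mul c (hf x)

lemma PD.const {i : Fin n} (c : ℝ) : PD i (fun _ : E n => c) (fun _ => 0) := fun _ =>
  hasDerivAt_const _ _

lemma PD.sq {i : Fin n} {f f' : E n → ℝ} (hf : PD i f f') :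
    PD i (fun x => f x ^ 2) (fun x => 2 * f x * f' x) := by
  have e : (fun x => f x ^ 2) = fun x => f x * f x := by funext x; ring
  rw [e]
  exact (hf.mul hf).congr fun x => by ring

lemma PD.sum {ι : Type*} {i : Fin n} (s : Finset ι) {f f' : ι → E n → ℝ}
    (h : ∀ j ∈ s, PD i (f j) (f' j)) :
    PD i (fun x => ∑ j ∈ s, f j x) (fun x => ∑ j ∈ s, f' j x) := fun x => by
  have : HasDerivAt (fun t : ℝ => ∑ j ∈ s, f j (x + t • bv i)) (∑ j ∈ s, f' j x) 0 := by
    refine HasDerivAt.fun_sum fun j hj => h j hj x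
  exact this

lemma PD.coord (i j : Fin n) : PD i (fun x : E n => x j) (fun _ => if j = i then 1 else 0) :=
    fun x => by
  have h : HasDerivAt (fun t : ℝ => (x + t • bv i) j) (if j = i then 1 else 0) 0 := by
    have e : (fun t : ℝ => (x + t • bv i) j) = fun t => x j + t * (if j = i then 1 else 0) := by
      funext t
      simp only [bv, EuclideanSpace.single, PiLp.add_apply, PiLp.smul_apply, PiLp.single_apply, smul_eq_mul]
    rw [e]
    simpa using ((hasDerivAt_id' (0 : ℝ)).mul_const (if j = i then (1 : ℝ) else 0)).const_add (x j)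
  exact h

/-- half of the squared norm -/
def hn (x : E n) : ℝ := ‖x‖ ^ 2 / 2

lemma norm_sq_eq (x : E n) : ‖x‖ ^ 2 = ∑ j, x j ^ 2 := EuclideanSpace.real_norm_sq_eq x

lemma hn_eq (x : E n) : 2 * hn x = ∑ j, x j ^ 2 := by
  rw [hn, ← norm_sq_eq]; ring

lemma PD.hn (i : Fin n) : PD i (hn : E n → ℝ) (fun x => x i) := by
  have h := (PD.sum (i := i) Finset.univ (f := fun j x => x j ^ 2)
    (fun j _ => (PD.coord i j).sq)).const_mul (1 / 2)
  have e : (fun x : E n => (1 / 2 : ℝ) * ∑ j, x j ^ 2) = NLN.hn := by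
    funext x; rw [NLN.hn, norm_sq_eq]; ring
  rw [e] at h
  refine h.congr fun x => ?_
  simp [Finset.sum_ite_eq']

lemma PD.radial {i : Fin n} {f f' : ℝ → ℝ} (h : ∀ τ, HasDerivAt f (f' τ) τ) :
    PD i (fun x : E n => f (NLN.hn x)) (fun x => f' (NLN.hn x) * x i) := fun x => by
  have h1 := PD.hn i x
  have e : HasDerivAt f (f' (NLN.hn x)) (NLN.hn (x + (0 : ℝ) • bv i)) := by
    simp only [zero_smul, add_zero]; exact h _
  exact HasDerivAt.comp (0 : ℝ) e h1

lemma hn_cont : Continuous (hn : E n → ℝ) := by unfold hn; fun_prop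

lemma pd_of_hasFDerivAt {i : Fin n} {f : E n → ℝ} {f' : E n → (E n →L[ℝ] ℝ)}
    (h : ∀ x, HasFDerivAt f (f' x) x) : PD i f (fun x => f' x (bv i)) := fun x =>
  (h x).hasLineDerivAt _

lemma Ker.pd {k : E n → ℝ} (hk : Ker k) (i : Fin n) : Ker (NLN.pd i k) := by
  refine ⟨?_, ?_⟩
  · have h1 : ContDiff ℝ (⊤ : ℕ∞) (fderiv ℝ k) := by
      have := hk.1
      exact this.fderiv_right (by simp)
    exact h1.clm_apply contDiff_const
  · have := hk.2.fderiv (𝕜 := ℝ)
    exact this.comp_left (g := fun L : E n →L[ℝ] ℝ => L (bv i)) (by simp)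

lemma Ker.PD {k : E n → ℝ} (hk : Ker k) (i : Fin n) : NLN.PD i k (NLN.pd i k) :=
  pd_of_hasFDerivAt (f' := fderiv ℝ k) fun x =>
    (hk.1.differentiable (by simp)).differentiableAt.hasFDerivAt

lemma Ker.cont {k : E n → ℝ} (hk : Ker k) : Continuous k := hk.1.continuous

/-- continuous functions with compact support -/
def CK (f : E n → ℝ) : Prop := Continuous f ∧ HasCompactSupport f

lemma CK.int {f : E n → ℝ} (hf : CK f) : Integrable f :=
  hf.1.integrable_of_hasCompactSupport hf.2

/-- the integral of a derivative vanishes -/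
lemma PD.int_zero {i : Fin n} {f f' : E n → ℝ} (h : PD i f f') (hf : CK f) (hf' : CK f') :
    ∫ x, f' x = 0 := by
  have h1 := integral_bilinear_hasLineDerivAt_right_eq_neg_left_of_integrable
    (μ := (volume : Measure (E n))) (f := fun _ : E n => (1 : ℝ)) (f' := fun _ => 0) (g := f)
    (g' := f') (v := bv i) (B := ContinuousLinearMap.mul ℝ ℝ) (by simp)
    (by simpa using hf'.int) (by simpa using hf.int) (fun x _ => by
      have := hasDerivAt_const (0 : ℝ) (1 : ℝ)
      exact this) (fun x _ => h x)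
  simpa using h1

end

end Pool.Agent.Lib_helper40.NLN
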