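import Mathlib

/-!
# Localized solutions of the defocusing NLS in `ℝⁿ`, radial potentials: definitions and statements
-/

namespace Pool.Agent.Lib_helper40.NLN

open MeasureTheory Set Filter Topology

noncomputable section

/-- `n`-dimensional Euclidean space -/
abbrev E (n : ℕ) := EuclideanSpace ℝ (Fin n)

variable {n : ℕ}

/-- the `i`-th basis vector -/
def bv (i : Fin n) : E n := EuclideanSpace.single i (1 : ℝ)

/-- test functions -/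
def Ker (k : E n → ℝ) : Prop := ContDiff ℝ (⊤ : ℕ∞) k ∧ HasCompactSupport k

/-- the `i`-th partial derivative of a smooth function -/
def pd (i : Fin n) (k : E n → ℝ) : E n → ℝ := fun x => fderiv ℝ k x (bv i)

/-- `f ∈ H¹(ℝⁿ)` with weak gradient `F` -/
structure H1n (f : E n → ℂ) (F : Fin n → E n → ℂ) : Prop where
  mem : MemLp f 2 volume
  mem' : ∀ i, MemLp (F i) 2 volume
  weak : ∀ η : E n → ℝ, Ker η → ∀ i, ∫ x, pd i η x • f x = - ∫ x, η x • F i x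

/-- convolution with a kernel -/
def mo (k : E n → ℝ) (f : E n → ℂ) : E n → ℂ :=
  MeasureTheory.convolution k f (ContinuousLinearMap.lsmul ℝ ℝ) volume

/-- an averaging kernel supported in the ball of radius `ε` -/
structure Avg (k : E n → ℝ) (ε : ℝ) : Prop where
  ker : Ker k
  nn : ∀ x, 0 ≤ k x
  int : ∫ x, k x = 1
  supp : ∀ x, ε ≤ ‖x‖ → k x = 0

/-- the zeroth order term of the equation -/
def nl (V : E n → ℝ) (f : E n → ℂ) : E n → ℂ := fun x => (V x + ‖f x‖ ^ 2) • f x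

/-- (SOB) the Sobolev inequality `H¹ ⊂ L⁶` in dimensions `2` and `3`, for weak gradients -/
def SobStmt : Prop :=
  ∀ n : ℕ, (n = 2 ∨ n = 3) → ∃ K : ℝ, ∀ (f : E n → ℂ) (F : Fin n → E n → ℂ), H1n f F →
    MemLp f 6 volume ∧
    ∫ x, ‖f x‖ ^ 6 ≤ K * (∫ x, (‖f x‖ ^ 2 + ∑ i, ‖F i x‖ ^ 2)) ^ 3

/-- (ERR) the regularisation error tends to zero in `L²` on balls, uniformly for times in
compact intervals -/
def ErrStmt : Prop :=
  ∀ (n : ℕ) (V : E n → ℝ) (Vm : ℝ) (ψ : ℝ → E n → ℂ) (C : ℝ), Continuous V →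
    (∀ x, |V x| ≤ Vm) →
    (∀ t, MemLp (ψ t) 2 volume) → (∀ t, MemLp (ψ t) 6 volume) →
    (∀ t, ∫ x, ‖ψ t x‖ ^ 2 ≤ C) →
    (∀ t₀, Tendsto (fun t => ∫ x, ‖ψ t x - ψ t₀ x‖ ^ 2) (𝓝 t₀) (𝓝 0)) →
    (∀ t₀, Tendsto (fun t => ∫ x, ‖ψ t x - ψ t₀ x‖ ^ 6) (𝓝 t₀) (𝓝 0)) →
    ∀ (T L η : ℝ), 0 < η → ∃ ε₀ : ℝ, 0 < ε₀ ∧ ∀ (ε : ℝ) (k : E n → ℝ), 0 < ε → ε < ε₀ →
      Avg k ε → ∀ t ∈ Icc (-T) T,
        (∫ x in Metric.closedBall (0 : E n) L, ‖mo k (ψ t) x - ψ t x‖ ^ 2) ≤ η ∧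
        (∫ x in Metric.closedBall (0 : E n) L,
          ‖mo k (nl V (ψ t)) x - (V x + ‖mo k (ψ t) x‖ ^ 2) • mo k (ψ t) x‖ ^ 2) ≤ η

end

end Pool.Agent.Lib_helper40.NLN
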