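import Pool.Agent.Lib_helper40.NLN.Asm

/-!
# Conservation of mass
-/

namespace Pool.Agent.Lib_helper40.NLN

open MeasureTheory Set Filter Topology

noncomputable section

variable {n : ℕ}

section

variable {V : E n → ℝ} {ψ : ℝ → E n → ℂ} {ψ' : ℝ → Fin n → E n → ℂ} {C : ℝ}

lemma SolN.C0 (h : SolN V ψ ψ' C) : 0 ≤ C :=
  le_trans (integral_nonneg fun _ => by positivity) (h.bd6 0)

lemma SolN.mass (h : SolN V ψ ψ' C) (t : ℝ) : ∫ x, ‖ψ t x‖ ^ 2 ≤ C := by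
  refine le_trans ?_ (h.bd t)
  have i0 : Integrable fun x => ‖ψ t x‖ ^ 2 := (h.h1 t).mem.integrable_norm_pow (by norm_num)
  have i1 : ∀ i, Integrable fun x => ‖ψ' t i x‖ ^ 2 := fun i =>
    ((h.h1 t).mem' i).integrable_norm_pow (by norm_num)
  refine integral_mono i0 (i0.add (integrable_finsetSum _ fun i _ => i1 i)) fun x => ?_
  have : 0 ≤ ∑ i, ‖ψ' t i x‖ ^ 2 := by positivity
  simp only [Pi.add_apply]
  linarith

lemma le_hn {T : ℝ} {x : E n} (h : √(2 * T) ≤ ‖x‖) : T ≤ hn x := by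
  have h1 : 2 * T ≤ ‖x‖ ^ 2 := (Real.sqrt_le_left (norm_nonneg x)).1 h
  unfold hn
  linarith

lemma hn_le {R : ℝ} {x : E n} (h : ‖x‖ ≤ R) : hn x ≤ R ^ 2 / 2 := by
  unfold hn
  have := norm_nonneg x
  gcongr

/-- uniform smallness of the regularisation errors -/
lemma sol_err (hV : Continuous V) {Vm : ℝ} (hVm : ∀ x, |V x| ≤ Vm) (h : SolN V ψ ψ' C)
    (T L : ℝ) {η : ℝ} (hη : 0 < η) : ∃ (ε : ℝ) (k : E n → ℝ), Avg k ε ∧ ∀ t ∈ Icc (-T) T,
      (∫ x in Metric.closedBall (0 : E n) L, ‖mo k (ψ t) x - ψ t x‖ ^ 2) ≤ η ∧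
      (∫ x in Metric.closedBall (0 : E n) L,
        ((ee V k (ψ t) x).re ^ 2 + (ee V k (ψ t) x).im ^ 2)) ≤ η := by
  obtain ⟨ε₀, hε₀, hk⟩ := err n V Vm ψ C hV hVm (fun t => (h.h1 t).mem) h.l6 h.mass h.c2 h.c6
    T L η hη
  obtain ⟨k, hk'⟩ := exists_avg (n := n) (ε := ε₀ / 2) (by positivity)
  refine ⟨ε₀ / 2, k, hk', fun t ht => ?_⟩
  simp only [sq_re_im]
  exact hk (ε₀ / 2) k (by positivity) (by linarith) hk' t ht

theorem mass_cons (hV : Continuous V) {Vm : ℝ} (hVm : ∀ x, |V x| ≤ Vm) (h : SolN V ψ ψ' C)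
    (t₁ t₂ : ℝ) : ∫ x, ‖ψ t₁ x‖ ^ 2 ≤ ∫ x, ‖ψ t₂ x‖ ^ 2 := by
  have hC := h.C0
  refine le_of_forall_pos_le_add fun η hη => ?_
  have i1 : ∀ t, Integrable (fun x => ‖ψ t x‖ ^ 2) := fun t =>
    (h.h1 t).mem.integrable_norm_pow (by norm_num)
  -- radius
  have hlim : Tendsto (fun R : ℝ => ∫ x in Metric.closedBall (0 : E n) R, ‖ψ t₁ x‖ ^ 2) atTop
      (𝓝 (∫ x, ‖ψ t₁ x‖ ^ 2)) :=
    (aecover_closedBall tendsto_id).integral_tendsto_of_countably_generated (i1 t₁)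
  obtain ⟨R, hR⟩ : ∃ R : ℝ, (∫ x, ‖ψ t₁ x‖ ^ 2) - η / 4 <
      ∫ x in Metric.closedBall (0 : E n) R, ‖ψ t₁ x‖ ^ 2 :=
    (hlim.eventually (lt_mem_nhds (by linarith))).exists
  set T0 := |t₁ - t₂| with hT0
  have hT00 : 0 ≤ T0 := abs_nonneg _
  set μ := η / (8 * (C + 1) * (T0 + 1)) with hμ
  have hμ0 : 0 < μ := by positivity
  obtain ⟨b, hb, lam, lam1, lam2, d1, d2, c2, nn, bb1, bb2, hone, hz⟩ := cut_stmt μ (R ^ 2 / 2) hμ0
  have cl : Continuous lam := cont_of_d d1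
  have cl1 : Continuous lam1 := cont_of_d d2
  set L := √(2 * b) with hL
  set α := η / (32 * (C + 1)) with hα
  have hα0 : 0 < α := by positivity
  set η' := min (η * μ / (8 * (T0 + 1))) (α * η / 16) with hη'
  have hη'0 : 0 < η' := by positivity
  set T' := max |t₁| |t₂| with hT'
  obtain ⟨ε, k, hk, herr⟩ := sol_err hV hVm h T' L hη'0
  set p : E n → ℝ := fun x => lam (hn x) with hp
  have hpc : Continuous p := cl.comp hn_cont
  have hpL : ∀ x, L < ‖x‖ → p x = 0 := fun x hx => (hz _ (lt_hn hx).le).1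
  have hpCK : CK p := CK.of_zero hpc hpL
  set N : ℝ → ℝ := fun s => ∫ x, p x * ((mo k (ψ s) x).re ^ 2 + (mo k (ψ s) x).im ^ 2) with hN
  have hder := fun t => (time_stmt mo_stmt (snap_stmt mo_stmt) n V Vm hV hVm ψ ψ' C h k hk.ker p
    hpCK t).2
  have t1m : t₁ ∈ Icc (-T') T' := by
    have := (le_max_left |t₁| |t₂|)
    exact abs_le.1 this
  have t2m : t₂ ∈ Icc (-T') T' := by
    have := (le_max_right |t₁| |t₂|)
    exact abs_le.1 this
  have hbound : |N t₁ - N t₂| ≤ ((μ + μ) * C + μ⁻¹ * η') * T0 := by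
    have hd : ∀ t ∈ Icc (-T') T', |∫ x, p x * (2 * ((mo k (ψ t) x).re * (vv V k (ψ t) (ψ' t) x).re
        + (mo k (ψ t) x).im * (vv V k (ψ t) (ψ' t) x).im))| ≤ (μ + μ) * C + μ⁻¹ * η' := by
      intro t ht
      obtain ⟨iρ, iG, -, hbd, -, -⟩ := moll_bd h hk t
      have hsn := snap_stmt mo_stmt n V Vm hV hVm k hk.ker (ψ t) (ψ' t) (h.h1 t) (h.l6 t)
      have := mass_stmt n V _ _ _ _ _ _ _ _ _ _ _ _ hsn lam lam1 μ μ L hμ0 hμ0 d1 cl1 nn bb1
        (fun x hx => ⟨(hz _ (le_hn hx)).1, (hz _ (le_hn hx)).2.1⟩) iρ iG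
      refine this.trans ?_
      have h2 := (herr t ht).2
      gcongr
    have := Convex.norm_image_sub_le_of_norm_hasDerivWithin_le (f := N) (s := Icc (-T') T')
      (fun t _ => (hder t).hasDerivWithinAt) (fun t ht => by rw [Real.norm_eq_abs]; exact hd t ht)
      (convex_Icc _ _) t2m t1m
    simpa only [Real.norm_eq_abs] using this
  have hcomp : ∀ t ∈ Icc (-T') T', |N t - ∫ x, p x * ‖ψ t x‖ ^ 2| ≤ α * (2 * C) + α⁻¹ * η' := by
    intro t ht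
    obtain ⟨iρ, -, -, -, -, hm⟩ := moll_bd h hk t
    rw [hN]
    simp only [sq_re_im] at iρ hm ⊢
    have cm : Continuous (mo k (ψ t)) :=
      ((mo_stmt n k hk.ker).1 _ ((h.h1 t).mem.locallyIntegrable (by norm_num))).1
    refine (mass_close iρ (i1 t) cm.aestronglyMeasurable (h.h1 t).mem.1 hpc (fun x => (nn _).1)
      (fun x => (nn _).2) hpL hα0).trans ?_
    have h1 := h.mass t
    have h2 := (herr t ht).1
    have h3 : (∫ x, ‖mo k (ψ t) x‖ ^ 2) + ∫ x, ‖ψ t x‖ ^ 2 ≤ 2 * C := by linarith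
    gcongr
  have ip : ∀ t, Integrable fun x => p x * ‖ψ t x‖ ^ 2 := fun t => by
    refine (i1 t).bdd_mul (c := 1) hpc.aestronglyMeasurable (ae_of_all _ fun x => ?_)
    rw [Real.norm_eq_abs, abs_of_nonneg (nn _).1]; exact (nn _).2
  have hlow : (∫ x in Metric.closedBall (0 : E n) R, ‖ψ t₁ x‖ ^ 2) ≤ ∫ x, p x * ‖ψ t₁ x‖ ^ 2 := by
    calc (∫ x in Metric.closedBall (0 : E n) R, ‖ψ t₁ x‖ ^ 2)
        = ∫ x in Metric.closedBall (0 : E n) R, p x * ‖ψ t₁ x‖ ^ 2 := by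
          refine setIntegral_congr_fun measurableSet_closedBall fun x hx => ?_
          rw [Metric.mem_closedBall, dist_zero_right] at hx
          simp only [hp, hone _ (hn_nonneg x) (hn_le hx), one_mul]
      _ ≤ _ := setIntegral_le_integral (ip t₁) (ae_of_all _ fun x =>
          mul_nonneg (nn _).1 (by positivity))
  have hup : ∫ x, p x * ‖ψ t₂ x‖ ^ 2 ≤ ∫ x, ‖ψ t₂ x‖ ^ 2 :=
    integral_mono (ip t₂) (i1 t₂) fun x =>
      mul_le_of_le_one_left (by positivity) (nn _).2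
  have b1 := (abs_le.1 (hcomp t₁ t1m)).1
  have b2 := (abs_le.1 (hcomp t₂ t2m)).2
  have b3 := (abs_le.1 hbound).2
  have w1 : (μ + μ) * C * T0 ≤ η / 4 := by
    have e : μ * (8 * (C + 1) * (T0 + 1)) = η := by rw [hμ]; field_simp
    have : C * T0 ≤ (C + 1) * (T0 + 1) := by nlinarith
    nlinarith
  have w2 : μ⁻¹ * η' * T0 ≤ η / 8 := by
    have h1 : η' ≤ η * μ / (8 * (T0 + 1)) := min_le_left _ _
    calc μ⁻¹ * η' * T0 ≤ μ⁻¹ * (η * μ / (8 * (T0 + 1))) * (T0 + 1) := by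
          gcongr; linarith
      _ = η / 8 := by field_simp
  have w3 : α * (2 * C) ≤ η / 16 := by
    have e : α * (32 * (C + 1)) = η := by rw [hα]; field_simp
    nlinarith
  have w4 : α⁻¹ * η' ≤ η / 16 := by
    have h1 : η' ≤ α * η / 16 := min_le_right _ _
    calc α⁻¹ * η' ≤ α⁻¹ * (α * η / 16) := by gcongr
      _ = η / 16 := by field_simp
  have e5 : ((μ + μ) * C + μ⁻¹ * η') * T0 = (μ + μ) * C * T0 + μ⁻¹ * η' * T0 := by ring
  rw [e5] at b3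
  linarith

end

end

end Pool.Agent.Lib_helper40.NLN
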