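import Pool.Agent.Lib_helper40.NLN.Stmts

/-!
# The repulsive part of the potential (module NLN_REP)
-/

namespace Pool.Agent.Lib_helper40.NLN

open MeasureTheory Set Filter Topology

noncomputable section

namespace RepM

variable {n : ℕ}

lemma sum_bv (x : E n) : x = ∑ i, x i • bv i := by
  ext j
  simp only [bv, WithLp.ofLp_sum, WithLp.ofLp_smul, Finset.sum_apply, Pi.smul_apply, smul_eq_mul]
  rw [Finset.sum_eq_single j]
  · simp
  · intro i _ hij
    simp [hij.symm]
  · simp

lemma fderiv_eq (L : E n →L[ℝ] ℝ) (x : E n) : L x = ∑ i, x i * L (bv i) := by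
  conv_lhs => rw [sum_bv x]
  rw [map_sum]
  refine Finset.sum_congr rfl fun i _ => ?_
  rw [map_smul, smul_eq_mul]

lemma far {L : ℝ} {x : E n} (hx : x ∉ Metric.closedBall (0 : E n) (|L| + 2)) : L ≤ hn x := by
  rw [mem_closedBall_zero_iff, not_le] at hx
  unfold hn
  have h1 : L ≤ |L| := le_abs_self L
  have h2 : 0 ≤ |L| := abs_nonneg L
  nlinarith [norm_nonneg x]

lemma ck_of {L : ℝ} {g : E n → ℝ} (hg : Continuous g) (h0 : ∀ x, L ≤ hn x → g x = 0) : CK g := by
  refine ⟨hg, HasCompactSupport.of_support_subset_isCompact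
    (isCompact_closedBall (0 : E n) (|L| + 2)) fun x hx => ?_⟩
  by_contra h
  exact hx (h0 x (far h))

end RepM

open RepM in
/-- module NLN_REP -/
theorem rep_stmt : RepStmt := by
  intro n U hU hUr a b a1 b1 ha hb ca cb ca1 cb1 c c1 hc cc1 hc0 L hL
  have cc : Continuous c := continuous_iff_continuousAt.2 fun τ => (hc τ).continuousAt
  have cU : Continuous U := hU.continuous
  have cfd : Continuous (fderiv ℝ U) := hU.continuous_fderiv (by norm_num)
  have cU' : ∀ i : Fin n, Continuous fun x => fderiv ℝ U x (bv i) := fun i =>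
    cfd.clm_apply continuous_const
  have dU : ∀ i : Fin n, PD i U (fun x => fderiv ℝ U x (bv i)) := fun i =>
    pd_of_hasFDerivAt (f' := fderiv ℝ U) fun x =>
      (hU.differentiable (by norm_num)).differentiableAt.hasFDerivAt
  have cx : ∀ i : Fin n, Continuous fun x : E n => x i := fun i => by fun_prop
  have ch := hn_cont (n := n)
  -- the field and its derivative
  set Wf : Fin n → E n → ℝ := fun i x => c (hn x) * (x i * ((a x ^ 2 + b x ^ 2) * U x)) with hWf
  set dW : Fin n → E n → ℝ := fun i x => c1 (hn x) * x i * (x i * ((a x ^ 2 + b x ^ 2) * U x)) +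
    c (hn x) * ((a x ^ 2 + b x ^ 2) * U x + x i * ((2 * a x * a1 i x + 2 * b x * b1 i x) * U x +
      (a x ^ 2 + b x ^ 2) * fderiv ℝ U x (bv i))) with hdW
  have hPD : ∀ i, PD i (Wf i) (dW i) := fun i => by
    have H := (PD.radial (i := i) hc).mul
      ((PD.coord i i).mul ((((ha i).sq).add ((hb i).sq)).mul (dU i)))
    refine H.congr fun x => ?_
    simp only [hdW, if_true]
    ring
  have cWf : ∀ i, Continuous (Wf i) := fun i =>
    (cc.comp ch).mul ((cx i).mul (((ca.pow 2).add (cb.pow 2)).mul cU))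
  have cdW : ∀ i, Continuous (dW i) := fun i => by
    have e1 : Continuous fun x => c (hn x) := cc.comp ch
    have e2 : Continuous fun x => c1 (hn x) := cc1.comp ch
    have e3 := cU' i
    have e4 := cx i
    have e5 := ca1 i
    have e6 := cb1 i
    simp only [hdW]
    fun_prop
  have kWf : ∀ i, CK (Wf i) := fun i => ck_of (L := L) (cWf i) fun x hx => by
    simp only [hWf, (hL _ hx).1, zero_mul]
  have kdW : ∀ i, CK (dW i) := fun i => ck_of (L := L) (cdW i) fun x hx => by
    simp only [hdW, (hL _ hx).1, (hL _ hx).2, zero_mul, add_zero]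
  have hz : ∀ i, ∫ x, dW i x = 0 := fun i => (hPD i).int_zero (kWf i) (kdW i)
  have hsum : ∫ x, ∑ i, dW i x = 0 := by
    rw [integral_finsetSum _ fun i _ => (kdW i).int]
    simp [hz]
  -- the divergence identity
  have hdiv : ∀ x, ∑ i, dW i x =
      U x * (2 * c (hn x) * (a x * rad a1 x + b x * rad b1 x)
        + (n * c (hn x) + 2 * hn x * c1 (hn x)) * (a x ^ 2 + b x ^ 2)) +
      c (hn x) * ((a x ^ 2 + b x ^ 2) * fderiv ℝ U x x) := by
    intro x
    have e1 : ∀ i, dW i x = (c1 (hn x) * ((a x ^ 2 + b x ^ 2) * U x)) * x i ^ 2 +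
        c (hn x) * ((a x ^ 2 + b x ^ 2) * U x) +
        (2 * c (hn x) * U x * a x) * (x i * a1 i x) + (2 * c (hn x) * U x * b x) * (x i * b1 i x) +
        (c (hn x) * (a x ^ 2 + b x ^ 2)) * (x i * fderiv ℝ U x (bv i)) := fun i => by
      simp only [hdW]
      ring
    simp only [e1, Finset.sum_add_distrib, ← Finset.mul_sum, Finset.sum_const, Finset.card_univ,
      Fintype.card_fin, nsmul_eq_mul]
    rw [← hn_eq, ← fderiv_eq (fderiv ℝ U x) x, rad, rad]
    ring
  have hI : ∀ x, U x * (2 * c (hn x) * (a x * rad a1 x + b x * rad b1 x)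
        + (n * c (hn x) + 2 * hn x * c1 (hn x)) * (a x ^ 2 + b x ^ 2)) =
      (∑ i, dW i x) - c (hn x) * ((a x ^ 2 + b x ^ 2) * fderiv ℝ U x x) := fun x => by
    rw [hdiv x]
    ring
  have cfx : Continuous fun x : E n => fderiv ℝ U x x := cfd.clm_apply continuous_id
  have kR : CK (fun x : E n => c (hn x) * ((a x ^ 2 + b x ^ 2) * fderiv ℝ U x x)) :=
    ck_of (L := L) ((cc.comp ch).mul (((ca.pow 2).add (cb.pow 2)).mul cfx)) fun x hx => by
      simp only [(hL _ hx).1, zero_mul]
  simp only [hI]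
  rw [MeasureTheory.integral_sub (integrable_finsetSum _ fun i _ => (kdW i).int) kR.int, hsum,
    zero_sub, ← MeasureTheory.integral_neg]
  refine integral_nonneg fun x => ?_
  have h1 : 0 ≤ c (hn x) := hc0 _ (by unfold hn; positivity)
  have h2 : 0 ≤ a x ^ 2 + b x ^ 2 := by positivity
  have h3 := hUr x
  have h4 : (a x ^ 2 + b x ^ 2) * fderiv ℝ U x x ≤ 0 := mul_nonpos_of_nonneg_of_nonpos h2 h3
  have h5 : c (hn x) * ((a x ^ 2 + b x ^ 2) * fderiv ℝ U x x) ≤ 0 :=
    mul_nonpos_of_nonneg_of_nonpos h1 h4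
  show 0 ≤ -(c (hn x) * ((a x ^ 2 + b x ^ 2) * fderiv ℝ U x x))
  linarith

end

end Pool.Agent.Lib_helper40.NLN
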