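import Pool.Agent.Lib_helper40.NLN.Mc
import Pool.Agent.Lib_helper40.NLN.Rep

/-!
# No tight solutions in `ℝⁿ`
-/

namespace Pool.Agent.Lib_helper40.NLN

open MeasureTheory Set Filter Topology

noncomputable section

variable {n : ℕ}

/-- elementary lower bound `∫ρ² ≥ (∫ρ)²/|B|` on a ball -/
lemma sq_lower {ρ : E n → ℝ} (hρ : Continuous ρ) {R m : ℝ} (hR : 0 < R) (hm : 0 ≤ m)
    (h : m ≤ ∫ x in Metric.closedBall (0 : E n) R, ρ x) :
    m ^ 2 / (volume.real (Metric.closedBall (0 : E n) R)) ≤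
      ∫ x in Metric.closedBall (0 : E n) R, ρ x ^ 2 := by
  set B := Metric.closedBall (0 : E n) R with hB
  have hBc : IsCompact B := isCompact_closedBall _ _
  have hBfin : volume B ≠ ⊤ := hBc.measure_lt_top.ne
  have hBpos : 0 < volume.real B :=
    ENNReal.toReal_pos (Metric.measure_closedBall_pos volume _ hR).ne' hBfin
  set l := m / volume.real B with hl
  have hl0 : 0 ≤ l := by positivity
  have i1 : IntegrableOn (fun x => 2 * l * ρ x) B :=
    (by fun_prop : Continuous fun x => 2 * l * ρ x).continuousOn.integrableOn_compact hBc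
  have i2 : IntegrableOn (fun _ : E n => l ^ 2) B :=
    (continuous_const).continuousOn.integrableOn_compact hBc
  have i3 : IntegrableOn (fun x => ρ x ^ 2) B :=
    (by fun_prop : Continuous fun x => ρ x ^ 2).continuousOn.integrableOn_compact hBc
  have h1 : ∫ x in B, (2 * l * ρ x - l ^ 2) ≤ ∫ x in B, ρ x ^ 2 := by
    refine integral_mono (i1.sub i2) i3 fun x => ?_
    simp only
    nlinarith [sq_nonneg (ρ x - l)]
  rw [integral_sub i1 i2, integral_const_mul, setIntegral_const, smul_eq_mul] at h1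
  have h2 : 2 * l * m ≤ 2 * l * ∫ x in B, ρ x := by gcongr
  have h3 : 2 * l * m - volume.real B * l ^ 2 = m ^ 2 / volume.real B := by
    rw [hl]; field_simp; ring
  linarith

lemma ball_vol {R : ℝ} (hR : 0 < R) : 0 < volume.real (Metric.closedBall (0 : E n) R) := by
  exact ENNReal.toReal_pos (Metric.measure_closedBall_pos volume _ hR).ne'
    (isCompact_closedBall _ _).measure_lt_top.ne

/-- numerical bookkeeping -/
lemma num_bd {A C c₀ μ : ℝ} (hA : 0 ≤ A) (hC : 0 ≤ C) (hμ : 0 < μ)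
    (e : μ * (8 * (A + 1) * (C + 1)) = c₀) :
    A * μ * C ≤ c₀ / 8 ∧ μ * C ≤ c₀ / 8 := by
  have h0 : 0 ≤ μ * (A * C) := by positivity
  have h1 : 0 ≤ μ * A := by positivity
  have h2 : 0 ≤ μ * C := by positivity
  constructor <;> nlinarith

section

variable {W : ℝ → ℝ} {U : E n → ℝ} {ψ : ℝ → E n → ℂ} {ψ' : ℝ → Fin n → E n → ℂ} {C : ℝ}

/-- pointwise bound for the current -/
lemma cur_bd {a b : ℝ} (a1 b1 : Fin n → E n → ℝ) (x : E n) {b₀ : ℝ} (hx : hn x ≤ b₀) :
    |∑ j, x j * (a * b1 j x - b * a1 j x)| ≤ √(2 * b₀) * ((a ^ 2 + b ^ 2) + gsq a1 b1 x) := by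
  have e : ∑ j, x j * (a * b1 j x - b * a1 j x) = a * rad b1 x - b * rad a1 x := by
    unfold rad
    rw [Finset.mul_sum, Finset.mul_sum, ← Finset.sum_sub_distrib]
    exact Finset.sum_congr rfl fun j _ => by ring
  rw [e]
  have hr := rad_le a1 b1 x
  have hg := gsq_nonneg a1 b1 x
  have hx0 := hn_nonneg x
  set A := rad a1 x
  set B := rad b1 x
  set G := gsq a1 b1 x
  have h1 : A ^ 2 + B ^ 2 ≤ 2 * b₀ * G := hr.trans (by gcongr)
  set L := √(2 * b₀) with hL
  have hL2 : L ^ 2 = 2 * b₀ := Real.sq_sqrt (by linarith)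
  have hL0 : 0 ≤ L := Real.sqrt_nonneg _
  have h2 : (a * B - b * A) ^ 2 ≤ (L * ((a ^ 2 + b ^ 2) + G)) ^ 2 := by
    have h3 : (a * B - b * A) ^ 2 ≤ (a ^ 2 + b ^ 2) * (A ^ 2 + B ^ 2) := by
      nlinarith [sq_nonneg (a * A + b * B)]
    have h4 : (a ^ 2 + b ^ 2) * (A ^ 2 + B ^ 2) ≤ (a ^ 2 + b ^ 2) * (2 * b₀ * G) := by gcongr
    have h5 : (a ^ 2 + b ^ 2) * (2 * b₀ * G) ≤ (L * ((a ^ 2 + b ^ 2) + G)) ^ 2 := by
      rw [← hL2]
      have : 0 ≤ L ^ 2 * ((a ^ 2 + b ^ 2) ^ 2 + G ^ 2 + (a ^ 2 + b ^ 2) * G) := by positivity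
      nlinarith
    linarith
  exact abs_le_of_sq_le_sq h2 (by positivity)

/-- A solution of constant positive mass is not tight for positive times. -/
theorem no_tight (hn1 : 1 ≤ n) (hW : Continuous W) (hW0 : ∀ r, 0 ≤ W r) {Vm : ℝ}
    (hWm : ∀ x : E n, W ‖x‖ ≤ Vm) (hWi : IntegrableOn (fun r => r * W r) (Ioi 0))
    (hU : ContDiff ℝ 1 U) (hUr : ∀ x, fderiv ℝ U x x ≤ 0) {Um : ℝ} (hUm : ∀ x, |U x| ≤ Um)
    (h : SolN (fun x => W ‖x‖ + U x) ψ ψ' C)
    {m : ℝ} (hm : 0 < m) {R₀ : ℝ} (hR₀ : 0 < R₀)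
    (htight : ∀ t, 0 ≤ t → m ≤ ∫ x in Metric.closedBall (0 : E n) R₀, ‖ψ t x‖ ^ 2) : False := by
  have hC := h.C0
  have hVm0 : 0 ≤ Vm := (hW0 _).trans (hWm 0)
  have hn0 : (0 : ℝ) < n := by exact_mod_cast hn1
  set V : E n → ℝ := fun x => W ‖x‖ + U x with hV
  have cV : Continuous V := (hW.comp continuous_norm).add hU.continuous
  have hVb : ∀ x, |V x| ≤ Vm + Um := fun x => by
    refine (abs_add_le _ _).trans (add_le_add ?_ (hUm x))
    rw [abs_of_nonneg (hW0 _)]; exact hWm x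
  set S := ∫ r in Ioi 0, r * W r with hS
  have hS0 : 0 ≤ S := setIntegral_nonneg measurableSet_Ioi fun r hr =>
    mul_nonneg (le_of_lt hr) (hW0 r)
  set vol := volume.real (Metric.closedBall (0 : E n) R₀) with hvol
  have hvolp : 0 < vol := ball_vol hR₀
  set c₀ := n / 2 * (Real.exp (-S) * ((m / 4) ^ 2 / vol)) with hc₀
  have hc₀p : 0 < c₀ := by positivity
  set A := n + 5 + 2 * S + Vm + S ^ 2 + n * S with hA
  have hA0 : 0 ≤ A := by positivity
  set μ := c₀ / (8 * (A + 1) * (C + 1)) with hμ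
  have hμ0 : 0 < μ := by positivity
  set κ := c₀ / (8 * (Vm + 1) * (C + 1)) with hκ
  have hκ0 : 0 < κ := by positivity
  set θ := c₀ / (8 * (C + 1)) with hθ
  have hθ0 : 0 < θ := by positivity
  obtain ⟨b, hb, lam, lam1, lam2, d1, d2, c2, nn, bb1, bb2, hone, hz⟩ :=
    cut_stmt μ (R₀ ^ 2 / 2) hμ0
  obtain ⟨Vt, Φ, s, f1, f2, f3, f4, f5, f6, f7, f8, f9⟩ := fld_stmt W hW hW0 hWi κ b hκ0 hb
  have hCut : CutN lam lam1 lam2 μ b := ⟨d1, d2, c2, nn, bb1, bb2, hz⟩
  have hFld : FieldN W Vt Φ s κ b S := ⟨f1, f2, f3, f4, f5, f6, f8, f9⟩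
  set L := √(2 * b) with hL
  -- the ball of radius `R₀` is inside the support
  have hbR : R₀ ^ 2 / 2 < b := by
    by_contra hc
    have h1 := hone b hb.le (not_lt.1 hc)
    have h2 := (hz b le_rfl).1
    linarith
  have hRL : R₀ ≤ L := by
    refine Real.le_sqrt_of_sq_le ?_
    linarith
  set KE := θ⁻¹ * (2 * b + (n + μ + 2 * S) ^ 2) with hKE
  have hKE0 : 0 ≤ KE := by positivity
  set Q := L * C with hQ
  have hQ0 : 0 ≤ Q := by positivity
  set T := (2 * Q + 1) / (c₀ / 4) with hT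
  have hT0 : 0 < T := by positivity
  set η := min (c₀ / (8 * (KE + 1))) (m / 4) with hη
  have hη0 : 0 < η := by positivity
  obtain ⟨ε, k, hk, herr⟩ := sol_err cV hVb h T L hη0
  set p : Fin n → E n → ℝ := fun j x => cc Φ lam (hn x) * x j with hp
  have cl : Continuous lam := cont_of_d d1
  have cl1 : Continuous lam1 := cont_of_d d2
  have cΦ : Continuous Φ := cont_of_d f5.dΦ
  have ccc : Continuous fun x : E n => cc Φ lam (hn x) := by
    have := hn_cont (n := n)
    unfold cc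
    fun_prop
  have hpCK : ∀ j, CK (p j) := by
    intro j
    refine CK.of_zero (L := L) (ccc.mul (by fun_prop)) fun x hx => ?_
    have : cc Φ lam (hn x) = 0 := by
      unfold cc; rw [(hz _ (lt_hn hx).le).1, zero_mul]
    simp only [hp, this, zero_mul]
  set M : ℝ → ℝ := fun s => ∑ j, ∫ x, p j x * ((mo k (ψ s) x).re * (mo k (ψ' s j) x).im
        - (mo k (ψ s) x).im * (mo k (ψ' s j) x).re) with hM
  have htime := fun t j => (time_stmt mo_stmt (snap_stmt mo_stmt) n V (Vm + Um) cV hVb ψ ψ' C h k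
    hk.ker (p j) (hpCK j) t).1 j
  have hsnap := fun t => snap_stmt mo_stmt n V (Vm + Um) cV hVb k hk.ker (ψ t) (ψ' t) (h.h1 t)
    (h.l6 t)
  set M' : ℝ → ℝ := fun t => ∑ j, ∫ x, p j x * ((vv V k (ψ t) (ψ' t) x).re * (mo k (ψ' t j) x).im
        + (mo k (ψ t) x).re * (ww V k (ψ t) (ψ' t) j x).im
        - (vv V k (ψ t) (ψ' t) x).im * (mo k (ψ' t j) x).re
        - (mo k (ψ t) x).im * (ww V k (ψ t) (ψ' t) j x).re) with hM'
  have hder : ∀ t, HasDerivAt M (M' t) t := fun t =>
    HasDerivAt.fun_sum fun j _ => htime t j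
  have hM'e : ∀ t, M' t = ∫ x, cc Φ lam (hn x) *
        (∑ i, x i * ((vv V k (ψ t) (ψ' t) x).re * (mo k (ψ' t i) x).im
          + (mo k (ψ t) x).re * (ww V k (ψ t) (ψ' t) i x).im
          - (vv V k (ψ t) (ψ' t) x).im * (mo k (ψ' t i) x).re
          - (mo k (ψ t) x).im * (ww V k (ψ t) (ψ' t) i x).re)) := by
    intro t
    have hs := hsnap t
    rw [hM']
    simp only
    rw [← integral_finsetSum _ fun j _ => ?_]
    · refine integral_congr_ae (ae_of_all _ fun x => ?_)
      simp only [hp, Finset.mul_sum]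
      exact Finset.sum_congr rfl fun j _ => by ring
    · have c1 := hs.cv1
      have c3 := hs.cb1 j
      have c4 := hs.ca
      have c5 := hs.cw2 j
      have c6 := hs.cv2
      have c7 := hs.ca1 j
      have c8 := hs.cb
      have c9 := hs.cw1 j
      refine CK.int ⟨(hpCK j).1.mul (by fun_prop), (hpCK j).2.mul_right⟩
  -- lower bound for the derivative
  have hlow : ∀ t ∈ Icc 0 T, c₀ / 4 ≤ M' t := by
    intro t ht
    have htm : t ∈ Icc (-T) T := ⟨by linarith [ht.1], ht.2⟩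
    obtain ⟨e1, e2⟩ := herr t htm
    obtain ⟨iρ, iG, iρ2, hbd, hbd2, -⟩ := moll_bd h hk t
    have hv := vir_ineq rep_stmt hn1 hκ0 hθ0 hb hCut hFld hW0 hWm hU hUr (hsnap t) iρ iG iρ2
    rw [← hM'e t] at hv
    set ρ : E n → ℝ := fun x => (mo k (ψ t) x).re ^ 2 + (mo k (ψ t) x).im ^ 2 with hρ
    have cρ : Continuous ρ := by
      have c4 := (hsnap t).ca
      have c8 := (hsnap t).cb
      rw [hρ]
      fun_prop
    -- mass in the ball
    have hmass : m / 4 ≤ ∫ x in Metric.closedBall (0 : E n) R₀, ρ x := by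
      have i1 : Integrable fun x => ‖ψ t x‖ ^ 2 := (h.h1 t).mem.integrable_norm_pow (by norm_num)
      have cm : AEStronglyMeasurable (mo k (ψ t)) volume :=
        ((mo_stmt n k hk.ker).1 _ ((h.h1 t).mem.locallyIntegrable
          (by norm_num))).1.aestronglyMeasurable
      have i2 : Integrable fun x => ‖mo k (ψ t) x - ψ t x‖ ^ 2 := by
        have iρ' : Integrable fun x => ‖mo k (ψ t) x‖ ^ 2 := by
          simpa only [hρ, sq_re_im] using iρ
        refine ((iρ'.const_mul 2).add (i1.const_mul 2)).mono'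
          ((cm.sub (h.h1 t).mem.1).norm.pow 2) (ae_of_all _ fun x => ?_)
        rw [norm_pow, norm_norm]
        have h1 : ‖mo k (ψ t) x - ψ t x‖ ≤ ‖mo k (ψ t) x‖ + ‖ψ t x‖ := norm_sub_le _ _
        simp only [Pi.add_apply]
        nlinarith [norm_nonneg (mo k (ψ t) x), norm_nonneg (ψ t x),
          norm_nonneg (mo k (ψ t) x - ψ t x), sq_nonneg (‖mo k (ψ t) x‖ - ‖ψ t x‖)]
      have e3 : (∫ x in Metric.closedBall (0 : E n) R₀, ‖mo k (ψ t) x - ψ t x‖ ^ 2) ≤ m / 4 := by
        have : (∫ x in Metric.closedBall (0 : E n) R₀, ‖mo k (ψ t) x - ψ t x‖ ^ 2) ≤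
            ∫ x in Metric.closedBall (0 : E n) L, ‖mo k (ψ t) x - ψ t x‖ ^ 2 :=
          setIntegral_mono_set i2.integrableOn (ae_of_all _ fun x => by positivity)
            (Metric.closedBall_subset_closedBall hRL).eventuallyLE
        exact this.trans (e1.trans (min_le_right _ _))
      have e4 := htight t ht.1
      have e5 : ∫ x in Metric.closedBall (0 : E n) R₀, ‖ψ t x‖ ^ 2 ≤
          ∫ x in Metric.closedBall (0 : E n) R₀, (2 * ρ x + 2 * ‖mo k (ψ t) x - ψ t x‖ ^ 2) := by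
        refine integral_mono i1.integrableOn
          ((iρ.const_mul 2).add (i2.const_mul 2)).integrableOn fun x => ?_
        simp only [hρ, sq_re_im]
        have h1 : ‖ψ t x‖ ≤ ‖mo k (ψ t) x‖ + ‖mo k (ψ t) x - ψ t x‖ := by
          calc ‖ψ t x‖ = ‖mo k (ψ t) x - (mo k (ψ t) x - ψ t x)‖ := by congr 1; ring
            _ ≤ _ := norm_sub_le _ _
        nlinarith [norm_nonneg (mo k (ψ t) x), norm_nonneg (ψ t x),
          norm_nonneg (mo k (ψ t) x - ψ t x),
          sq_nonneg (‖mo k (ψ t) x‖ - ‖mo k (ψ t) x - ψ t x‖)]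
      rw [integral_add (iρ.integrableOn.const_mul 2) (i2.integrableOn.const_mul 2),
        integral_const_mul, integral_const_mul] at e5
      linarith
    have hsq := sq_lower cρ hR₀ (by positivity) hmass
    have hmain : Real.exp (-S) * ((m / 4) ^ 2 / vol) ≤
        ∫ x, lam (hn x) * Φ (hn x) * (ρ x) ^ 2 := by
      have iq : Integrable fun x : E n => lam (hn x) * Φ (hn x) * (ρ x) ^ 2 := by
        have := hn_cont (n := n)
        refine CK.int (CK.of_zero (L := L) (by fun_prop) fun x hx => ?_)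
        rw [(hz _ (lt_hn hx).le).1]
        ring
      calc Real.exp (-S) * ((m / 4) ^ 2 / vol)
          ≤ Real.exp (-S) * ∫ x in Metric.closedBall (0 : E n) R₀, ρ x ^ 2 := by gcongr
        _ = ∫ x in Metric.closedBall (0 : E n) R₀, Real.exp (-S) * ρ x ^ 2 :=
            (integral_const_mul _ _).symm
        _ ≤ ∫ x in Metric.closedBall (0 : E n) R₀, lam (hn x) * Φ (hn x) * (ρ x) ^ 2 := by
            refine setIntegral_mono_on ((iρ2.const_mul _).integrableOn) iq.integrableOn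
              measurableSet_closedBall fun x hx => ?_
            rw [Metric.mem_closedBall, dist_zero_right] at hx
            have h1 := hn_le hx
            rw [hone _ (hn_nonneg x) h1, one_mul]
            have h2 := f7 (hn x) (hn_nonneg x) (h1.trans hbR.le)
            gcongr
        _ ≤ _ := setIntegral_le_integral iq (ae_of_all _ fun x => by
            have := (nn (hn x)).1
            have := (f6 (hn x)).1
            simp only [Pi.zero_apply]
            positivity)
    have t1 : c₀ ≤ n / 2 * ∫ x, lam (hn x) * Φ (hn x) * (ρ x) ^ 2 := by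
      rw [hc₀]; gcongr
    have t2 : μ / 2 * (∫ x, ρ x ^ 2) ≤ c₀ / 16 := by
      have e : μ * (8 * (A + 1) * (C + 1)) = c₀ := by rw [hμ]; field_simp
      calc μ / 2 * (∫ x, ρ x ^ 2) ≤ μ / 2 * C := by gcongr
        _ ≤ c₀ / 16 := by linarith [(num_bd hA0 hC hμ0 e).2]
    have t3 : (A * μ + Vm * κ + θ) * ((∫ x, ρ x) + ∫ x, gsq (fun i x => (mo k (ψ' t i) x).re)
        (fun i x => (mo k (ψ' t i) x).im) x) ≤ 3 * (c₀ / 8) := by
      have e : μ * (8 * (A + 1) * (C + 1)) = c₀ := by rw [hμ]; field_simp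
      have e' : κ * (8 * (Vm + 1) * (C + 1)) = c₀ := by rw [hκ]; field_simp
      have e'' : θ * (8 * (C + 1)) = c₀ := by rw [hθ]; field_simp
      have w1 : A * μ * C ≤ c₀ / 8 := (num_bd hA0 hC hμ0 e).1
      have w2 : Vm * κ * C ≤ c₀ / 8 := (num_bd hVm0 hC hκ0 e').1
      have w3 : θ * C ≤ c₀ / 8 := by
        have : 0 ≤ θ := hθ0.le
        linarith
      calc _ ≤ (A * μ + Vm * κ + θ) * C := by gcongr
        _ = A * μ * C + Vm * κ * C + θ * C := by ring
        _ ≤ _ := by linarith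
    have t4 : KE * (∫ x in Metric.closedBall (0 : E n) L,
        ((ee V k (ψ t) x).re ^ 2 + (ee V k (ψ t) x).im ^ 2)) ≤ c₀ / 8 := by
      have h1 : η ≤ c₀ / (8 * (KE + 1)) := min_le_left _ _
      calc _ ≤ KE * η := by gcongr
        _ ≤ KE * (c₀ / (8 * (KE + 1))) := by gcongr
        _ ≤ (KE + 1) * (c₀ / (8 * (KE + 1))) := by gcongr; linarith
        _ = c₀ / 8 := by field_simp
    linarith
  -- the functional is bounded
  have hMb : ∀ t, |M t| ≤ Q := by
    intro t
    obtain ⟨iρ, iG, iρ2, hbd, hbd2, -⟩ := moll_bd h hk t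
    have hs := hsnap t
    have hMe : M t = ∫ x, cc Φ lam (hn x) * ∑ j, x j * ((mo k (ψ t) x).re * (mo k (ψ' t j) x).im
        - (mo k (ψ t) x).im * (mo k (ψ' t j) x).re) := by
      rw [hM]
      simp only
      rw [← integral_finsetSum _ fun j _ => ?_]
      · refine integral_congr_ae (ae_of_all _ fun x => ?_)
        simp only [hp, Finset.mul_sum]
        exact Finset.sum_congr rfl fun j _ => by ring
      · have c3 := hs.cb1 j
        have c4 := hs.ca
        have c7 := hs.ca1 j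
        have c8 := hs.cb
        refine CK.int ⟨(hpCK j).1.mul (by fun_prop), (hpCK j).2.mul_right⟩
    rw [hMe, ← Real.norm_eq_abs]
    refine (norm_integral_le_of_norm_le ((iρ.add iG).const_mul L) (ae_of_all _ fun x => ?_)).trans
      ?_
    · rw [Real.norm_eq_abs, abs_mul]
      simp only [Pi.add_apply]
      have hc0 : 0 ≤ cc Φ lam (hn x) := mul_nonneg (nn _).1 (f6 _).1
      have hc1 : cc Φ lam (hn x) ≤ 1 := mul_le_one₀ (nn _).2 (f6 _).1 (f6 _).2
      have hρ0 : 0 ≤ (mo k (ψ t) x).re ^ 2 + (mo k (ψ t) x).im ^ 2 := by positivity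
      have hG0 := gsq_nonneg (fun i x => (mo k (ψ' t i) x).re) (fun i x => (mo k (ψ' t i) x).im) x
      rw [abs_of_nonneg hc0]
      by_cases hx : b < hn x
      · have : cc Φ lam (hn x) = 0 := by unfold cc; rw [(hz _ hx.le).1, zero_mul]
        rw [this, zero_mul]
        positivity
      · have hcb := cur_bd (a := (mo k (ψ t) x).re) (b := (mo k (ψ t) x).im)
          (fun i x => (mo k (ψ' t i) x).re) (fun i x => (mo k (ψ' t i) x).im) x (not_lt.1 hx)
        calc _ ≤ 1 * |∑ j, x j * ((mo k (ψ t) x).re * (mo k (ψ' t j) x).im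
                - (mo k (ψ t) x).im * (mo k (ψ' t j) x).re)| :=
              mul_le_mul_of_nonneg_right hc1 (abs_nonneg _)
          _ ≤ _ := by rw [one_mul]; exact hcb
    · rw [integral_const_mul]
      simp only [Pi.add_apply]
      rw [integral_add iρ iG]
      exact mul_le_mul_of_nonneg_left hbd (Real.sqrt_nonneg _)
  -- conclusion
  have hmono : MonotoneOn (fun t => M t - c₀ / 4 * t) (Icc 0 T) := by
    refine monotoneOn_of_deriv_nonneg (convex_Icc 0 T) (fun t ht => ?_) (fun t ht => ?_)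
      (fun t ht => ?_)
    · exact ((hder t).continuousAt.sub (by fun_prop)).continuousWithinAt
    · exact ((hder t).differentiableAt.sub (by fun_prop)).differentiableWithinAt
    · rw [interior_Icc] at ht
      have : HasDerivAt (fun t => M t - c₀ / 4 * t) (M' t - c₀ / 4 * 1) t :=
        (hder t).sub ((hasDerivAt_id' t).const_mul _)
      rw [this.deriv]
      have := hlow t ⟨ht.1.le, ht.2.le⟩
      linarith
  have h1 := hmono (left_mem_Icc.2 hT0.le) (right_mem_Icc.2 hT0.le) hT0.le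
  simp only [mul_zero, sub_zero] at h1
  have h2 := (abs_le.1 (hMb T)).2
  have h3 := (abs_le.1 (hMb 0)).1
  have h4 : c₀ / 4 * T = 2 * Q + 1 := by
    rw [hT]; field_simp
  linarith

end

end

end Pool.Agent.Lib_helper40.NLN
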