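import Pool.Agent.Lib_helper40.NLN.Virial

/-!
# Statements of the modules
-/

namespace Pool.Agent.Lib_helper40.NLN

open MeasureTheory Set Filter Topology

noncomputable section

variable {n : ℕ}

/-- time derivative of the mollified solution -/
def vv (V : E n → ℝ) (k : E n → ℝ) (f : E n → ℂ) (F : Fin n → E n → ℂ) (x : E n) : ℂ :=
  Complex.I * ∑ i, mo (pd i k) (F i) x - Complex.I * mo k (nl V f) x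

/-- spatial derivative of `vv` -/
def ww (V : E n → ℝ) (k : E n → ℝ) (f : E n → ℂ) (F : Fin n → E n → ℂ) (j : Fin n) (x : E n) : ℂ :=
  Complex.I * ∑ i, mo (pd j (pd i k)) (F i) x - Complex.I * mo (pd j k) (nl V f) x

/-- the regularisation error -/
def ee (V : E n → ℝ) (k : E n → ℝ) (f : E n → ℂ) (x : E n) : ℂ :=
  mo k (nl V f) x - (V x + ‖mo k f x‖ ^ 2) • mo k f x

/-- a bounded solution, with the equation tested at every time -/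
structure SolN (V : E n → ℝ) (ψ : ℝ → E n → ℂ) (ψ' : ℝ → Fin n → E n → ℂ) (C : ℝ) : Prop where
  h1 : ∀ t, H1n (ψ t) (ψ' t)
  l6 : ∀ t, MemLp (ψ t) 6 volume
  bd : ∀ t, ∫ x, (‖ψ t x‖ ^ 2 + ∑ i, ‖ψ' t i x‖ ^ 2) ≤ C
  bd6 : ∀ t, ∫ x, ‖ψ t x‖ ^ 6 ≤ C
  c2 : ∀ t₀, Tendsto (fun t => ∫ x, ‖ψ t x - ψ t₀ x‖ ^ 2) (𝓝 t₀) (𝓝 0)
  c6 : ∀ t₀, Tendsto (fun t => ∫ x, ‖ψ t x - ψ t₀ x‖ ^ 6) (𝓝 t₀) (𝓝 0)
  eqn : ∀ η : E n → ℝ, Ker η → ∀ t,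
    HasDerivAt (fun s => ∫ x, η x • ψ s x)
      (-Complex.I * ∫ x, (∑ i, pd i η x • ψ' t i x + η x • nl V (ψ t) x)) t

/-- (NLN_MO) calculus of mollification: derivatives of `mo k f`, integration by parts for
`H¹` functions, a sup bound, symmetry of the second derivatives of the kernel -/
def MoStmt : Prop :=
  ∀ (n : ℕ) (k : E n → ℝ), Ker k →
    (∀ f : E n → ℂ, LocallyIntegrable f volume → Continuous (mo k f) ∧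
      ∀ i x, HasLineDerivAt ℝ (mo k f) (mo (pd i k) f x) x (bv i)) ∧
    (∀ (f : E n → ℂ) (F : Fin n → E n → ℂ), H1n f F → ∀ i x, mo (pd i k) f x = mo k (F i) x) ∧
    (∀ f : E n → ℂ, MemLp f 2 volume → ∀ x, ‖mo k f x‖ ≤ (∫ y, k y ^ 2) + ∫ y, ‖f y‖ ^ 2) ∧
    (∀ i j, pd i (pd j k) = pd j (pd i k))

/-- (NLN_CON) contraction properties of averages in `L²` and `L⁴` -/
def ConStmt : Prop :=
  ∀ (n : ℕ) (k : E n → ℝ) (ε : ℝ), Avg k ε → ∀ f : E n → ℂ, MemLp f 2 volume →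
    (Integrable (fun x => ‖mo k f x‖ ^ 2) ∧ ∫ x, ‖mo k f x‖ ^ 2 ≤ ∫ x, ‖f x‖ ^ 2) ∧
    (MemLp f 6 volume → Integrable (fun x => ‖mo k f x‖ ^ 4) ∧
      ∫ x, ‖mo k f x‖ ^ 4 ≤ 1 / 2 * ((∫ x, ‖f x‖ ^ 2) + ∫ x, ‖f x‖ ^ 6))

/-- (NLN_SNAP) the mollified solution at a fixed time, in real and imaginary parts -/
def SnapStmt : Prop :=
  ∀ (n : ℕ) (V : E n → ℝ) (Vm : ℝ), Continuous V → (∀ x, |V x| ≤ Vm) →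
  ∀ (k : E n → ℝ), Ker k → ∀ (f : E n → ℂ) (F : Fin n → E n → ℂ), H1n f F → MemLp f 6 volume →
    SnapN V (fun x => (mo k f x).re) (fun x => (mo k f x).im)
      (fun i x => (mo k (F i) x).re) (fun i x => (mo k (F i) x).im)
      (fun i j x => (mo (pd i k) (F j) x).re) (fun i j x => (mo (pd i k) (F j) x).im)
      (fun x => (vv V k f F x).re) (fun x => (vv V k f F x).im)
      (fun j x => (ww V k f F j x).re) (fun j x => (ww V k f F j x).im)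
      (fun x => (ee V k f x).re) (fun x => (ee V k f x).im)

/-- (NLN_TIME) time derivatives of localized virial functionals and masses -/
def TimeStmt : Prop :=
  ∀ (n : ℕ) (V : E n → ℝ) (Vm : ℝ), Continuous V → (∀ x, |V x| ≤ Vm) →
  ∀ (ψ : ℝ → E n → ℂ) (ψ' : ℝ → Fin n → E n → ℂ) (C : ℝ), SolN V ψ ψ' C →
  ∀ (k : E n → ℝ), Ker k → ∀ p : E n → ℝ, CK p → ∀ t : ℝ,
    (∀ j, HasDerivAt (fun s => ∫ x, p x * ((mo k (ψ s) x).re * (mo k (ψ' s j) x).im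
        - (mo k (ψ s) x).im * (mo k (ψ' s j) x).re))
      (∫ x, p x * ((vv V k (ψ t) (ψ' t) x).re * (mo k (ψ' t j) x).im
        + (mo k (ψ t) x).re * (ww V k (ψ t) (ψ' t) j x).im
        - (vv V k (ψ t) (ψ' t) x).im * (mo k (ψ' t j) x).re
        - (mo k (ψ t) x).im * (ww V k (ψ t) (ψ' t) j x).re)) t) ∧
    HasDerivAt (fun s => ∫ x, p x * ((mo k (ψ s) x).re ^ 2 + (mo k (ψ s) x).im ^ 2))
      (∫ x, p x * (2 * ((mo k (ψ t) x).re * (vv V k (ψ t) (ψ' t) x).re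
        + (mo k (ψ t) x).im * (vv V k (ψ t) (ψ' t) x).im))) t

/-- (NLN_WEAK) from distributional solutions in `C(ℝ; H¹) ∩ C(ℝ; L⁶)` to `SolN` -/
def WeakStmt : Prop :=
  ∀ (n : ℕ) (V : E n → ℝ) (Vm : ℝ), Continuous V → (∀ x, |V x| ≤ Vm) →
  ∀ (ψ : ℝ → E n → ℂ) (ψ' : ℝ → Fin n → E n → ℂ) (C : ℝ),
    (∀ t, H1n (ψ t) (ψ' t)) →
    (∀ t, MemLp (ψ t) 6 volume) →
    (∀ t, ∫ x, (‖ψ t x‖ ^ 2 + ∑ i, ‖ψ' t i x‖ ^ 2) ≤ C) →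
    (∀ t, ∫ x, ‖ψ t x‖ ^ 6 ≤ C) →
    (∀ t₀, Tendsto (fun t => ∫ x, (‖ψ t x - ψ t₀ x‖ ^ 2 + ∑ i, ‖ψ' t i x - ψ' t₀ i x‖ ^ 2))
      (𝓝 t₀) (𝓝 0)) →
    (∀ t₀, Tendsto (fun t => ∫ x, ‖ψ t x - ψ t₀ x‖ ^ 6) (𝓝 t₀) (𝓝 0)) →
    (∀ θ : ℝ → E n → ℝ, ContDiff ℝ (⊤ : ℕ∞) (fun p : ℝ × E n => θ p.1 p.2) →
      HasCompactSupport (fun p : ℝ × E n => θ p.1 p.2) →
      ∫ t, ∫ x, (Complex.I * ψ t x * ((deriv (fun s => θ s x) t : ℝ) : ℂ)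
        + ∑ i, ψ' t i x * ((fderiv ℝ (θ t) x (EuclideanSpace.single i 1) : ℝ) : ℂ)
        + ((V x + ‖ψ t x‖ ^ 2 : ℝ) : ℂ) * ψ t x * ((θ t x : ℝ) : ℂ)) = 0) →
    SolN V ψ ψ' C

/-- the one-dimensional field `Φ' = -2 s Φ`, `s' = Vt - s²` -/
structure FldN (Vt Φ s : ℝ → ℝ) : Prop where
  dΦ : ∀ x, HasDerivAt Φ (-2 * s x * Φ x) x
  ds : ∀ x, HasDerivAt s (Vt x - s x ^ 2) x

/-- (NLN_FLD) the radial multiplier; `τ = |x|²/2` -/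
def FldStmt : Prop :=
  ∀ (W : ℝ → ℝ), Continuous W → (∀ r, 0 ≤ W r) → IntegrableOn (fun r => r * W r) (Ioi 0) →
  ∀ κ b : ℝ, 0 < κ → 0 < b →
    ∃ Vt Φ s : ℝ → ℝ, Continuous Vt ∧ (∀ τ, 0 ≤ Vt τ) ∧
      (∀ τ, 0 ≤ τ → 2 * τ * Vt τ ≤ W (√(2 * τ))) ∧
      (∀ τ, κ ^ 2 < 2 * τ → W (√(2 * τ)) = 2 * τ * Vt τ) ∧
      FldN Vt Φ s ∧ (∀ τ, 0 ≤ Φ τ ∧ Φ τ ≤ 1) ∧
      (∀ τ, 0 ≤ τ → τ ≤ b → Real.exp (-∫ r in Ioi 0, r * W r) ≤ Φ τ) ∧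
      (∀ τ ≤ b, s τ ≤ 0) ∧
      (∀ τ, 0 ≤ τ → τ ≤ b → -s τ * (2 * τ) ≤ ∫ r in Ioi 0, r * W r)

/-- (NLN_CUT) the logarithmic cutoff -/
def CutStmt : Prop :=
  ∀ μ R : ℝ, 0 < μ → ∃ b : ℝ, 0 < b ∧ ∃ lam lam1 lam2 : ℝ → ℝ,
    (∀ τ, HasDerivAt lam (lam1 τ) τ) ∧ (∀ τ, HasDerivAt lam1 (lam2 τ) τ) ∧ Continuous lam2 ∧
    (∀ τ, 0 ≤ lam τ ∧ lam τ ≤ 1) ∧
    (∀ τ, 0 ≤ τ → (1 + 2 * τ) * |lam1 τ| ≤ μ) ∧ (∀ τ, 0 ≤ τ → (1 + 2 * τ) ^ 2 * |lam2 τ| ≤ μ) ∧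
    (∀ τ, 0 ≤ τ → τ ≤ R → lam τ = 1) ∧
    (∀ τ, b ≤ τ → lam τ = 0 ∧ lam1 τ = 0 ∧ lam2 τ = 0)

section

variable {V a b v1 v2 e1 e2 : E n → ℝ} {a1 b1 w1 w2 : Fin n → E n → ℝ}
  {a2 b2 : Fin n → Fin n → E n → ℝ}

end

/-- (NLN_REP) the repulsive part of the potential -/
def RepStmt : Prop :=
  ∀ (n : ℕ) (U : E n → ℝ), ContDiff ℝ 1 U → (∀ x, fderiv ℝ U x x ≤ 0) →
  ∀ (a b : E n → ℝ) (a1 b1 : Fin n → E n → ℝ), (∀ i, PD i a (a1 i)) → (∀ i, PD i b (b1 i)) →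
    Continuous a → Continuous b → (∀ i, Continuous (a1 i)) → (∀ i, Continuous (b1 i)) →
  ∀ (c c1 : ℝ → ℝ), (∀ τ, HasDerivAt c (c1 τ) τ) → Continuous c1 → (∀ τ, 0 ≤ τ → 0 ≤ c τ) →
  ∀ L : ℝ, (∀ τ, L ≤ τ → c τ = 0 ∧ c1 τ = 0) →
    0 ≤ ∫ x, U x * (2 * c (hn x) * (a x * rad a1 x + b x * rad b1 x)
      + (n * c (hn x) + 2 * hn x * c1 (hn x)) * (a x ^ 2 + b x ^ 2))

/-- (NLN_MASS) the local mass inequality -/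
def MassStmt : Prop :=
  ∀ (n : ℕ) (V a b v1 v2 e1 e2 : E n → ℝ) (a1 b1 w1 w2 : Fin n → E n → ℝ)
    (a2 b2 : Fin n → Fin n → E n → ℝ), SnapN V a b a1 b1 a2 b2 v1 v2 w1 w2 e1 e2 →
  ∀ (lam lam1 : ℝ → ℝ) (μ θ L : ℝ), 0 < μ → 0 < θ →
    (∀ τ, HasDerivAt lam (lam1 τ) τ) → Continuous lam1 → (∀ τ, 0 ≤ lam τ ∧ lam τ ≤ 1) →
    (∀ τ, 0 ≤ τ → (1 + 2 * τ) * |lam1 τ| ≤ μ) →
    (∀ x : E n, L ≤ ‖x‖ → lam (hn x) = 0 ∧ lam1 (hn x) = 0) →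
    Integrable (fun x => a x ^ 2 + b x ^ 2) → Integrable (gsq a1 b1) →
    |∫ x, lam (hn x) * (2 * (a x * v1 x + b x * v2 x))| ≤
      (μ + θ) * ((∫ x, (a x ^ 2 + b x ^ 2)) + ∫ x, gsq a1 b1 x) +
      θ⁻¹ * ∫ x in Metric.closedBall (0 : E n) L, (e1 x ^ 2 + e2 x ^ 2)

end

end Pool.Agent.Lib_helper40.NLN
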