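import Pool.Agent.Lib_helper40.NLN.Stmts
import Pool.Agent.Lib_helper40.NLN.Alg

/-!
# The integrated virial inequality
-/

namespace Pool.Agent.Lib_helper40.NLN

open MeasureTheory Set Filter Topology

noncomputable section

variable {n : ℕ}

lemma CK.of_zero {f : E n → ℝ} (hf : Continuous f) {L : ℝ} (h : ∀ x, L < ‖x‖ → f x = 0) :
    CK f := by
  refine ⟨hf, HasCompactSupport.intro (isCompact_closedBall (0 : E n) L) fun x hx => h x ?_⟩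
  rw [Metric.mem_closedBall, dist_zero_right, not_le] at hx
  exact hx

lemma rad_cont {f1 : Fin n → E n → ℝ} (h : ∀ j, Continuous (f1 j)) : Continuous (rad f1) := by
  unfold rad
  refine continuous_finsetSum _ fun j _ => ?_
  have := h j
  fun_prop

lemma gsq_cont {a1 b1 : Fin n → E n → ℝ} (h : ∀ j, Continuous (a1 j))
    (h' : ∀ j, Continuous (b1 j)) : Continuous (gsq a1 b1) := by
  unfold gsq
  refine continuous_finsetSum _ fun j _ => ?_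
  have := h j
  have := h' j
  fun_prop

lemma gsq_nonneg (a1 b1 : Fin n → E n → ℝ) (x : E n) : 0 ≤ gsq a1 b1 x := by
  unfold gsq; positivity

/-- Cauchy-Schwarz -/
lemma rad_le (a1 b1 : Fin n → E n → ℝ) (x : E n) :
    rad a1 x ^ 2 + rad b1 x ^ 2 ≤ 2 * hn x * gsq a1 b1 x := by
  have h1 : rad a1 x ^ 2 ≤ (∑ j, x j ^ 2) * ∑ j, a1 j x ^ 2 := by
    unfold rad
    exact Finset.sum_mul_sq_le_sq_mul_sq _ _ _
  have h2 : rad b1 x ^ 2 ≤ (∑ j, x j ^ 2) * ∑ j, b1 j x ^ 2 := by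
    unfold rad
    exact Finset.sum_mul_sq_le_sq_mul_sq _ _ _
  have e : gsq a1 b1 x = ∑ j, a1 j x ^ 2 + ∑ j, b1 j x ^ 2 := by
    unfold gsq; rw [Finset.sum_add_distrib]
  rw [hn_eq, e, mul_add]
  linarith

lemma hn_nonneg (x : E n) : 0 ≤ hn x := by unfold hn; positivity

lemma sqrt_hn (x : E n) : √(2 * hn x) = ‖x‖ := by
  unfold hn
  rw [show 2 * (‖x‖ ^ 2 / 2) = ‖x‖ ^ 2 by ring, Real.sqrt_sq (norm_nonneg x)]

lemma lt_hn {T : ℝ} {x : E n} (h : √(2 * T) < ‖x‖) : T < hn x := by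
  have h1 : 2 * T < ‖x‖ ^ 2 := (Real.sqrt_lt' ((Real.sqrt_nonneg _).trans_lt h)).1 h
  unfold hn
  linarith

/-- the cutoff data -/
structure CutN (lam lam1 lam2 : ℝ → ℝ) (μ T : ℝ) : Prop where
  d1 : ∀ τ, HasDerivAt lam (lam1 τ) τ
  d2 : ∀ τ, HasDerivAt lam1 (lam2 τ) τ
  c2 : Continuous lam2
  nn : ∀ τ, 0 ≤ lam τ ∧ lam τ ≤ 1
  b1 : ∀ τ, 0 ≤ τ → (1 + 2 * τ) * |lam1 τ| ≤ μ
  b2 : ∀ τ, 0 ≤ τ → (1 + 2 * τ) ^ 2 * |lam2 τ| ≤ μ
  z : ∀ τ, T ≤ τ → lam τ = 0 ∧ lam1 τ = 0 ∧ lam2 τ = 0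

/-- the field data -/
structure FieldN (W : ℝ → ℝ) (Vt Φ s : ℝ → ℝ) (κ T S : ℝ) : Prop where
  cV : Continuous Vt
  V0 : ∀ τ, 0 ≤ Vt τ
  V1 : ∀ τ, 0 ≤ τ → 2 * τ * Vt τ ≤ W (√(2 * τ))
  V2 : ∀ τ, κ ^ 2 < 2 * τ → W (√(2 * τ)) = 2 * τ * Vt τ
  F : FldN Vt Φ s
  Φ01 : ∀ τ, 0 ≤ Φ τ ∧ Φ τ ≤ 1
  s0 : ∀ τ ≤ T, s τ ≤ 0
  sS : ∀ τ, 0 ≤ τ → τ ≤ T → -s τ * (2 * τ) ≤ S

section

variable (m : ℝ) (Vt Φ s lam lam1 lam2 : ℝ → ℝ)

/-- the multiplier and its derivatives -/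
def cc (τ : ℝ) : ℝ := lam τ * Φ τ
def cc1 (τ : ℝ) : ℝ := lam1 τ * Φ τ - 2 * s τ * lam τ * Φ τ
def cc2 (τ : ℝ) : ℝ := lam2 τ * Φ τ - 4 * s τ * lam1 τ * Φ τ
  + lam τ * (6 * s τ ^ 2 - 2 * Vt τ) * Φ τ
def ff (τ : ℝ) : ℝ := -(lam τ * Φ τ * (2 * τ * s τ ^ 2 - m * s τ))
def ff1 (τ : ℝ) : ℝ := -(lam1 τ * Φ τ * (2 * τ * s τ ^ 2 - m * s τ))
  + lam τ * Φ τ * (4 * (2 * τ) * s τ ^ 3 - (3 * m + 2) * s τ ^ 2 - 2 * (2 * τ) * s τ * Vt τ
    + m * Vt τ)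

end

section

variable {m μ T : ℝ} {Vt Φ s lam lam1 lam2 : ℝ → ℝ}

lemma cc_d (hF : FldN Vt Φ s) (h1 : ∀ τ, HasDerivAt lam (lam1 τ) τ) (τ : ℝ) :
    HasDerivAt (cc Φ lam) (cc1 Φ s lam lam1 τ) τ := by
  have := (h1 τ).mul (hF.dΦ τ)
  refine this.congr_deriv ?_
  unfold cc1
  ring

lemma cc1_d (hF : FldN Vt Φ s) (h1 : ∀ τ, HasDerivAt lam (lam1 τ) τ)
    (h2 : ∀ τ, HasDerivAt lam1 (lam2 τ) τ) (τ : ℝ) :
    HasDerivAt (cc1 Φ s lam lam1) (cc2 Vt Φ s lam lam1 lam2 τ) τ := by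
  have := ((h2 τ).mul (hF.dΦ τ)).sub (((((hF.ds τ).const_mul 2).mul (h1 τ))).mul (hF.dΦ τ))
  refine this.congr_deriv ?_
  unfold cc2
  simp only [Pi.mul_apply]
  ring

lemma ff_d (hF : FldN Vt Φ s) (h1 : ∀ τ, HasDerivAt lam (lam1 τ) τ) (τ : ℝ) :
    HasDerivAt (ff m Φ s lam) (ff1 m Vt Φ s lam lam1 τ) τ := by
  have := (((h1 τ).mul (hF.dΦ τ)).mul
    ((((hasDerivAt_id' τ).const_mul 2).mul ((hF.ds τ).pow 2)).sub
      ((hF.ds τ).const_mul m))).neg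
  refine this.congr_deriv ?_
  unfold ff1
  simp only [Pi.mul_apply, Pi.pow_apply, Pi.sub_apply]
  push_cast
  ring

lemma cont_of_d {f f' : ℝ → ℝ} (h : ∀ x, HasDerivAt f (f' x) x) : Continuous f :=
  continuous_iff_continuousAt.2 fun x => (h x).continuousAt

end

section

variable {V a b v1 v2 e1 e2 : E n → ℝ} {a1 b1 w1 w2 : Fin n → E n → ℝ}
  {a2 b2 : Fin n → Fin n → E n → ℝ}

/-- the integrated identity for general radial multipliers vanishing outside a ball -/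
theorem vir_id {c c1 c2 f f1 : ℝ → ℝ} (hc : ∀ τ, HasDerivAt c (c1 τ) τ)
    (hc1 : ∀ τ, HasDerivAt c1 (c2 τ) τ) (hf : ∀ τ, HasDerivAt f (f1 τ) τ)
    (cc2 : Continuous c2) (cf1 : Continuous f1) {T : ℝ}
    (hz : ∀ τ, T ≤ τ → c τ = 0 ∧ c1 τ = 0 ∧ c2 τ = 0 ∧ f τ = 0 ∧ f1 τ = 0)
    (hS : SnapN V a b a1 b1 a2 b2 v1 v2 w1 w2 e1 e2) :
    CK (fun x => c (hn x) * (∑ i, x i * (v1 x * b1 i x + a x * w2 i x - v2 x * a1 i x
      - b x * w1 i x))) ∧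
    Integrable (fun x => ∑ i, dWW c c1 c2 f f1 a b a1 b1 a2 b2 v1 v2 w1 w2 i x) ∧
    ∫ x, ∑ i, dWW c c1 c2 f f1 a b a1 b1 a2 b2 v1 v2 w1 w2 i x = 0 := by
  have ca := hS.ca
  have cb := hS.cb
  have ca1 := hS.ca1
  have cb1 := hS.cb1
  have ca2 := hS.ca2
  have cb2 := hS.cb2
  have cv1 := hS.cv1
  have cv2 := hS.cv2
  have cw1 := hS.cw1
  have cw2 := hS.cw2
  have k0 : Continuous c := cont_of_d hc
  have k1 : Continuous c1 := cont_of_d hc1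
  have k3 : Continuous f := cont_of_d hf
  have kh : Continuous (hn : E n → ℝ) := hn_cont
  have kra := rad_cont ca1
  have krb := rad_cont cb1
  have kg := gsq_cont ca1 cb1
  have hzx : ∀ x : E n, √(2 * T) < ‖x‖ → c (hn x) = 0 ∧ c1 (hn x) = 0 ∧ c2 (hn x) = 0 ∧
      f (hn x) = 0 ∧ f1 (hn x) = 0 := fun x hx => hz _ (lt_hn hx).le
  have K1 : CK (fun x => c (hn x) * (∑ i, x i * (v1 x * b1 i x + a x * w2 i x - v2 x * a1 i x
      - b x * w1 i x))) := by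
    refine CK.of_zero (L := √(2 * T)) ?_ fun x hx => by rw [(hzx x hx).1, zero_mul]
    refine (k0.comp kh).mul (continuous_finsetSum _ fun i _ => ?_)
    have := ca1 i
    have := cb1 i
    have := cw1 i
    have := cw2 i
    fun_prop
  have K2 : ∀ i, CK (WW c c1 f a b a1 b1 v1 v2 i) := by
    intro i
    refine CK.of_zero (L := √(2 * T)) ?_ fun x hx => ?_
    · unfold WW
      have := ca1 i
      have := cb1 i
      fun_prop
    · obtain ⟨z0, z1, -, z3, -⟩ := hzx x hx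
      unfold WW
      rw [z0, z1, z3]
      ring
  have K3 : ∀ i, CK (dWW c c1 c2 f f1 a b a1 b1 a2 b2 v1 v2 w1 w2 i) := by
    intro i
    refine CK.of_zero (L := √(2 * T)) ?_ fun x hx => ?_
    · unfold dWW
      have := ca1 i
      have := cb1 i
      have := cw1 i
      have := cw2 i
      have := ca2 i i
      have := cb2 i i
      have s1 : Continuous fun x : E n => ∑ j, (a1 j x * a2 i j x + b1 j x * b2 i j x) :=
        continuous_finsetSum _ fun j _ => by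
          have := ca1 j
          have := cb1 j
          have := ca2 i j
          have := cb2 i j
          fun_prop
      have s2 : Continuous fun x : E n => ∑ j, x j * a2 i j x :=
        continuous_finsetSum _ fun j _ => by
          have := ca2 i j
          fun_prop
      have s3 : Continuous fun x : E n => ∑ j, x j * b2 i j x :=
        continuous_finsetSum _ fun j _ => by
          have := cb2 i j
          fun_prop
      fun_prop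
    · obtain ⟨z0, z1, z2, z3, z4⟩ := hzx x hx
      unfold dWW
      rw [z0, z1, z2, z3, z4]
      ring
  refine ⟨K1, integrable_finsetSum _ fun i _ => (K3 i).int, ?_⟩
  rw [integral_finsetSum _ fun i _ => (K3 i).int]
  exact Finset.sum_eq_zero fun i _ => (PD.WW hc hc1 hf hS i).int_zero (K2 i) (K3 i)

/-- the pointwise lower bound -/
theorem vir_pt (hn1 : 1 ≤ n) {Φ s Vt lam lam1 lam2 W : ℝ → ℝ} {κ T S μ θ Vm : ℝ}
    (hκ : 0 < κ) (hθ : 0 < θ) (hT0 : 0 < T) (hC : CutN lam lam1 lam2 μ T)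
    (hF : FieldN W Vt Φ s κ T S)
    (hW0 : ∀ r, 0 ≤ W r) (x : E n) (hWm : W ‖x‖ ≤ Vm) (A B G p q z1 z2 : ℝ) (hG : 0 ≤ G)
    (hAB : A ^ 2 + B ^ 2 ≤ 2 * hn x * G) :
    n / 2 * (lam (hn x) * Φ (hn x) * (p ^ 2 + q ^ 2) ^ 2) - μ / 2 * (p ^ 2 + q ^ 2) ^ 2
      - ((n + 5 + 2 * S + Vm + S ^ 2 + n * S) * μ + Vm * κ + θ) * ((p ^ 2 + q ^ 2) + G)
      - θ⁻¹ * (2 * T + (n + μ + 2 * S) ^ 2) *
        (Metric.closedBall (0 : E n) (√(2 * T))).indicator (fun _ => z1 ^ 2 + z2 ^ 2) x ≤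
      2 * cc1 Φ s lam lam1 (hn x) * (A ^ 2 + B ^ 2) + 2 * cc Φ lam (hn x) * G
        + ((n + 2) * cc1 Φ s lam lam1 (hn x) + 2 * hn x * cc2 Vt Φ s lam lam1 lam2 (hn x))
          * (p * A + q * B)
        + W ‖x‖ * (2 * cc Φ lam (hn x) * (p * A + q * B)
          + (n * cc Φ lam (hn x) + 2 * hn x * cc1 Φ s lam lam1 (hn x)) * (p ^ 2 + q ^ 2))
        - 2 * ff n Φ s lam (hn x) * (p * A + q * B)
        - (n * ff n Φ s lam (hn x) + 2 * hn x * ff1 n Vt Φ s lam lam1 (hn x)) * (p ^ 2 + q ^ 2)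
        + 1 / 2 * (n * cc Φ lam (hn x) + 2 * hn x * cc1 Φ s lam lam1 (hn x)) *
          (p ^ 2 + q ^ 2) ^ 2
        + 2 * cc Φ lam (hn x) * (z1 * A + z2 * B)
        + (n * cc Φ lam (hn x) + 2 * hn x * cc1 Φ s lam lam1 (hn x)) * (p * z1 + q * z2) := by
  have hx0 := hn_nonneg x
  have hμ : 0 ≤ μ := le_trans (by positivity) (hC.b1 (hn x) hx0)
  have hVm0 : 0 ≤ Vm := (hW0 _).trans hWm
  have hn1' : (1 : ℝ) ≤ n := by exact_mod_cast hn1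
  have hρ0 : 0 ≤ p ^ 2 + q ^ 2 := by positivity
  have hS0 : 0 ≤ S := by
    have := hF.sS 0 le_rfl hT0.le
    simpa using this
  by_cases hT : T < hn x
  · -- outside everything vanishes
    obtain ⟨l0, l1, l2⟩ := hC.z _ hT.le
    have e0 : cc Φ lam (hn x) = 0 := by unfold cc; rw [l0, zero_mul]
    have e1 : cc1 Φ s lam lam1 (hn x) = 0 := by unfold cc1; rw [l0, l1]; ring
    have e2 : cc2 Vt Φ s lam lam1 lam2 (hn x) = 0 := by unfold cc2; rw [l0, l1, l2]; ring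
    have e3 : ff n Φ s lam (hn x) = 0 := by unfold ff; rw [l0]; ring
    have e4 : ff1 n Vt Φ s lam lam1 (hn x) = 0 := by unfold ff1; rw [l0, l1]; ring
    rw [e0, e1, e2, e3, e4, l0]
    have hind : 0 ≤ (Metric.closedBall (0 : E n) (√(2 * T))).indicator
        (fun _ => z1 ^ 2 + z2 ^ 2) x := indicator_nonneg (fun _ _ => by positivity) x
    have t1 : 0 ≤ μ / 2 * (p ^ 2 + q ^ 2) ^ 2 := by positivity
    have t2 : 0 ≤ ((n + 5 + 2 * S + Vm + S ^ 2 + n * S) * μ + Vm * κ + θ) *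
        ((p ^ 2 + q ^ 2) + G) := by positivity
    have t3 : 0 ≤ θ⁻¹ * (2 * T + (n + μ + 2 * S) ^ 2) *
        (Metric.closedBall (0 : E n) (√(2 * T))).indicator (fun _ => z1 ^ 2 + z2 ^ 2) x := by
      positivity
    simp only [mul_zero, zero_mul, add_zero, sub_zero]
    linarith
  · have hT' := not_lt.1 hT
    have hxb : x ∈ Metric.closedBall (0 : E n) (√(2 * T)) := by
      rw [Metric.mem_closedBall, dist_zero_right]
      refine Real.le_sqrt_of_sq_le ?_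
      unfold hn at hT'
      linarith
    rw [indicator_of_mem hxb]
    set τ := hn x with hτ
    have hsN := hF.sS τ hx0 hT'
    have hs0 := hF.s0 τ hT'
    obtain ⟨Φ0, Φ1⟩ := hF.Φ01 τ
    obtain ⟨l0, l1⟩ := hC.nn τ
    have b1 := hC.b1 τ hx0
    have b2 := hC.b2 τ hx0
    have hV1 := hF.V1 τ hx0
    have hV2 := hF.V2 τ
    rw [hτ, sqrt_hn, ← hτ] at hV1 hV2
    have hmain := alg_ineq (n := (n : ℝ)) (N := 2 * τ) (s := s τ) (Φ := Φ τ) (lam := lam τ)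
      (lam1 := lam1 τ) (lam2 := lam2 τ) (W := Vt τ) (V := W ‖x‖) (Vm := Vm) (S := S) (μ := μ)
      (κ := κ) (a := p) (b := q) (A := A) (B := B) (G := G) hn1' (by positivity) hs0 hsN Φ0 Φ1
      l0 l1 b1 b2 (hW0 _) hV1 hWm hκ hV2 (hF.V0 τ) hG hAB
    have hcc : cc Φ lam τ = lam τ * Φ τ := rfl
    have hcc1 : cc1 Φ s lam lam1 τ = lam1 τ * Φ τ - 2 * s τ * lam τ * Φ τ := rfl
    have hcc2 : cc2 Vt Φ s lam lam1 lam2 τ = lam2 τ * Φ τ - 4 * s τ * lam1 τ * Φ τ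
      + lam τ * (6 * s τ ^ 2 - 2 * Vt τ) * Φ τ := rfl
    have hff : ff n Φ s lam τ = -(lam τ * Φ τ * (2 * τ * s τ ^ 2 - n * s τ)) := rfl
    have hff1 : ff1 n Vt Φ s lam lam1 τ = -(lam1 τ * Φ τ * (2 * τ * s τ ^ 2 - n * s τ))
      + lam τ * Φ τ * (4 * (2 * τ) * s τ ^ 3 - (3 * n + 2) * s τ ^ 2 - 2 * (2 * τ) * s τ * Vt τ
        + n * Vt τ) := rfl
    rw [← hff, ← hff1, ← hcc2, ← hcc1, ← hcc] at hmain
    set c := cc Φ lam τ with hc
    set D := n * c + 2 * τ * cc1 Φ s lam lam1 τ with hD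
    have hc0 : 0 ≤ c := mul_nonneg l0 Φ0
    have hc1 : c ≤ 1 := mul_le_one₀ l1 Φ0 Φ1
    -- the divergence
    have hl1 : |lam1 τ * (2 * τ)| ≤ μ := by
      rw [abs_mul, abs_of_nonneg (by positivity : 0 ≤ 2 * τ)]
      refine le_trans ?_ b1
      have := abs_nonneg (lam1 τ)
      nlinarith
    have hDe : D = n * c + (lam1 τ * (2 * τ)) * Φ τ + 2 * (-s τ * (2 * τ)) * c := by
      rw [hD, hcc1, hcc]; ring
    have hsN0 : 0 ≤ -s τ * (2 * τ) := mul_nonneg (by linarith) (by positivity)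
    have hl2 : |lam1 τ * (2 * τ) * Φ τ| ≤ μ := by
      rw [abs_mul, abs_of_nonneg Φ0]
      exact (mul_le_of_le_one_right (abs_nonneg _) Φ1).trans hl1
    have hD1 : n * c - μ ≤ D := by
      have := (abs_le.1 hl2).1
      have : 0 ≤ 2 * (-s τ * (2 * τ)) * c := by positivity
      rw [hDe]; linarith
    have hD2 : |D| ≤ n + μ + 2 * S := by
      have h1 := abs_le.1 hl2
      have h2 : 0 ≤ 2 * (-s τ * (2 * τ)) * c := by positivity
      have h3 : 2 * (-s τ * (2 * τ)) * c ≤ 2 * S * 1 := by gcongr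
      have h4 : n * c ≤ n * 1 := by gcongr
      have h5 : 0 ≤ n * c := by positivity
      rw [hDe, abs_le]
      constructor <;> linarith [h1.1, h1.2]
    -- the quartic term
    have hq4 : n / 2 * (lam τ * Φ τ * (p ^ 2 + q ^ 2) ^ 2) - μ / 2 * (p ^ 2 + q ^ 2) ^ 2 ≤
        1 / 2 * D * (p ^ 2 + q ^ 2) ^ 2 := by
      have h1 : (n * c - μ) * (p ^ 2 + q ^ 2) ^ 2 ≤ D * (p ^ 2 + q ^ 2) ^ 2 := by gcongr
      rw [← hcc]
      linarith
    -- the error terms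
    have hZ0 : 0 ≤ z1 ^ 2 + z2 ^ 2 := by positivity
    have he1 : -(θ⁻¹ * (2 * T) * (z1 ^ 2 + z2 ^ 2)) - θ * G ≤ 2 * c * (z1 * A + z2 * B) := by
      set α := 2 * T / θ with hα
      have hα0 : 0 < α := by positivity
      have h0 : 0 ≤ ((α * z1 + A) ^ 2 + (α * z2 + B) ^ 2) / α := by positivity
      have h1 : ((α * z1 + A) ^ 2 + (α * z2 + B) ^ 2) / α =
          α * (z1 ^ 2 + z2 ^ 2) + (A ^ 2 + B ^ 2) / α + 2 * (z1 * A + z2 * B) := by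
        field_simp
        ring
      have h2 : (A ^ 2 + B ^ 2) / α ≤ θ * G := by
        rw [div_le_iff₀ hα0]
        have e : θ * G * α = 2 * T * G := by rw [hα]; field_simp
        rw [e]
        exact hAB.trans (by gcongr)
      have h3 : -(α * (z1 ^ 2 + z2 ^ 2) + θ * G) ≤ 2 * (z1 * A + z2 * B) := by linarith
      have h4 : 0 ≤ α * (z1 ^ 2 + z2 ^ 2) + θ * G := by positivity
      have e : θ⁻¹ * (2 * T) = α := by rw [hα]; field_simp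
      rw [e]
      calc -(α * (z1 ^ 2 + z2 ^ 2)) - θ * G = -(α * (z1 ^ 2 + z2 ^ 2) + θ * G) := by ring
        _ ≤ c * (-(α * (z1 ^ 2 + z2 ^ 2) + θ * G)) := by nlinarith
        _ ≤ c * (2 * (z1 * A + z2 * B)) := mul_le_mul_of_nonneg_left h3 hc0
        _ = _ := by ring
    have he2 : -(θ⁻¹ * (n + μ + 2 * S) ^ 2 * (z1 ^ 2 + z2 ^ 2)) - θ * (p ^ 2 + q ^ 2) ≤
        D * (p * z1 + q * z2) := by
      have h0 : 0 ≤ ((θ * p + D * z1) ^ 2 + (θ * q + D * z2) ^ 2) / (2 * θ) := by positivity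
      have h1 : ((θ * p + D * z1) ^ 2 + (θ * q + D * z2) ^ 2) / (2 * θ) =
          θ / 2 * (p ^ 2 + q ^ 2) + θ⁻¹ / 2 * D ^ 2 * (z1 ^ 2 + z2 ^ 2)
            + D * (p * z1 + q * z2) := by
        field_simp
        ring
      have h2 : D ^ 2 ≤ (n + μ + 2 * S) ^ 2 := sq_le_sq' (by have := (abs_le.1 hD2).1; linarith)
        (abs_le.1 hD2).2
      have h3 : θ⁻¹ / 2 * D ^ 2 * (z1 ^ 2 + z2 ^ 2) ≤
          θ⁻¹ / 2 * (n + μ + 2 * S) ^ 2 * (z1 ^ 2 + z2 ^ 2) := by gcongr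
      have h4 : 0 ≤ θ⁻¹ / 2 * (n + μ + 2 * S) ^ 2 * (z1 ^ 2 + z2 ^ 2) := by positivity
      have h5 : 0 ≤ θ / 2 * (p ^ 2 + q ^ 2) := by positivity
      have e : θ⁻¹ * (n + μ + 2 * S) ^ 2 * (z1 ^ 2 + z2 ^ 2) =
        2 * (θ⁻¹ / 2 * (n + μ + 2 * S) ^ 2 * (z1 ^ 2 + z2 ^ 2)) := by ring
      rw [e]
      linarith
    have e1 : θ⁻¹ * (2 * T + (n + μ + 2 * S) ^ 2) * (z1 ^ 2 + z2 ^ 2) =
        θ⁻¹ * (2 * T) * (z1 ^ 2 + z2 ^ 2) + θ⁻¹ * (n + μ + 2 * S) ^ 2 * (z1 ^ 2 + z2 ^ 2) := by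
      ring
    have e2 : ((n + 5 + 2 * S + Vm + S ^ 2 + n * S) * μ + Vm * κ + θ) * ((p ^ 2 + q ^ 2) + G) =
        ((n + 5 + 2 * S + Vm + S ^ 2 + n * S) * μ + Vm * κ) * ((p ^ 2 + q ^ 2) + G)
          + (θ * (p ^ 2 + q ^ 2) + θ * G) := by ring
    rw [e1, e2]
    rw [neg_mul] at hmain
    linarith

end

end

end Pool.Agent.Lib_helper40.NLN
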