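import Pool.Agent.Lib_helper40.NLN.Vir

/-!
# The integrated virial inequality, conclusion
-/

namespace Pool.Agent.Lib_helper40.NLN

open MeasureTheory Set Filter Topology

noncomputable section

variable {n : ℕ}

section

variable {a b v1 v2 e1 e2 : E n → ℝ} {a1 b1 w1 w2 : Fin n → E n → ℝ}
  {a2 b2 : Fin n → Fin n → E n → ℝ}

/-- The virial inequality. -/
theorem vir_ineq (rep : RepStmt) (hn1 : 1 ≤ n) {Φ s Vt lam lam1 lam2 W : ℝ → ℝ} {U : E n → ℝ}
    {κ T S μ θ Vm : ℝ} (hκ : 0 < κ) (hθ : 0 < θ) (hT0 : 0 < T) (hC : CutN lam lam1 lam2 μ T)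
    (hF : FieldN W Vt Φ s κ T S) (hW0 : ∀ r, 0 ≤ W r)
    (hWm : ∀ x : E n, W ‖x‖ ≤ Vm) (hU : ContDiff ℝ 1 U) (hUr : ∀ x, fderiv ℝ U x x ≤ 0)
    (hS : SnapN (fun x => W ‖x‖ + U x) a b a1 b1 a2 b2 v1 v2 w1 w2 e1 e2)
    (iρ : Integrable (fun x => a x ^ 2 + b x ^ 2)) (iG : Integrable (gsq a1 b1))
    (iρ2 : Integrable (fun x => (a x ^ 2 + b x ^ 2) ^ 2)) :
    n / 2 * (∫ x, lam (hn x) * Φ (hn x) * (a x ^ 2 + b x ^ 2) ^ 2)
      - μ / 2 * (∫ x, (a x ^ 2 + b x ^ 2) ^ 2)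
      - ((n + 5 + 2 * S + Vm + S ^ 2 + n * S) * μ + Vm * κ + θ) *
        ((∫ x, (a x ^ 2 + b x ^ 2)) + ∫ x, gsq a1 b1 x)
      - θ⁻¹ * (2 * T + (n + μ + 2 * S) ^ 2) *
        (∫ x in Metric.closedBall (0 : E n) (√(2 * T)), (e1 x ^ 2 + e2 x ^ 2)) ≤
      ∫ x, cc Φ lam (hn x) *
        (∑ i, x i * (v1 x * b1 i x + a x * w2 i x - v2 x * a1 i x - b x * w1 i x)) := by
  have ca := hS.ca
  have cb := hS.cb
  have cU := hU.continuous
  have kh : Continuous (hn : E n → ℝ) := hn_cont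
  have kra := rad_cont hS.ca1
  have krb := rad_cont hS.cb1
  have kg := gsq_cont hS.ca1 hS.cb1
  have cΦ : Continuous Φ := cont_of_d hF.F.dΦ
  have cs : Continuous s := cont_of_d hF.F.ds
  have cV := hF.cV
  have cl : Continuous lam := cont_of_d hC.d1
  have cl1 : Continuous lam1 := cont_of_d hC.d2
  have cl2 := hC.c2
  have q0 := cc_d hF.F hC.d1
  have q1 := cc1_d hF.F hC.d1 hC.d2
  have q2 := ff_d (m := n) hF.F hC.d1
  have k1 : Continuous (cc Φ lam) := cont_of_d q0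
  have k2 : Continuous (cc1 Φ s lam lam1) := cont_of_d q1
  have hz : ∀ τ, T ≤ τ → cc Φ lam τ = 0 ∧ cc1 Φ s lam lam1 τ = 0 ∧
      cc2 Vt Φ s lam lam1 lam2 τ = 0 ∧ ff n Φ s lam τ = 0 ∧ ff1 n Vt Φ s lam lam1 τ = 0 := by
    intro τ hτ
    obtain ⟨l0, l1, l2⟩ := hC.z _ hτ
    refine ⟨?_, ?_, ?_, ?_, ?_⟩
    · unfold cc; rw [l0, zero_mul]
    · unfold cc1; rw [l0, l1]; ring
    · unfold cc2; rw [l0, l1, l2]; ring
    · unfold ff; rw [l0]; ring
    · unfold ff1; rw [l0, l1]; ring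
  obtain ⟨K1, K2, K3⟩ := vir_id q0 q1 q2 (by unfold cc2; fun_prop) (by unfold ff1; fun_prop) hz hS
  have hrep := rep n U hU hUr a b a1 b1 hS.da hS.db ca cb hS.ca1 hS.cb1 (cc Φ lam)
    (cc1 Φ s lam lam1) q0 k2 (fun τ _ => mul_nonneg (hC.nn τ).1 (hF.Φ01 τ).1) T
    (fun τ hτ => ⟨(hz τ hτ).1, (hz τ hτ).2.1⟩)
  set J : E n → ℝ := fun x => cc Φ lam (hn x) *
      (∑ i, x i * (v1 x * b1 i x + a x * w2 i x - v2 x * a1 i x - b x * w1 i x))
      - ∑ i, dWW (cc Φ lam) (cc1 Φ s lam lam1) (cc2 Vt Φ s lam lam1 lam2) (ff n Φ s lam)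
        (ff1 n Vt Φ s lam lam1) a b a1 b1 a2 b2 v1 v2 w1 w2 i x with hJ
  have iJ : Integrable J := K1.int.sub K2
  have hJe : ∫ x, J x = ∫ x, cc Φ lam (hn x) *
      (∑ i, x i * (v1 x * b1 i x + a x * w2 i x - v2 x * a1 i x - b x * w1 i x)) := by
    rw [hJ, integral_sub K1.int K2, K3, sub_zero]
  rw [← hJe]
  set P : E n → ℝ := fun x => U x * (2 * cc Φ lam (hn x) * (a x * rad a1 x + b x * rad b1 x)
      + (n * cc Φ lam (hn x) + 2 * hn x * cc1 Φ s lam lam1 (hn x)) * (a x ^ 2 + b x ^ 2)) with hP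
  have iP : Integrable P := by
    refine CK.int (CK.of_zero (L := √(2 * T)) (by fun_prop) fun x hx => ?_)
    obtain ⟨z0, z1, -⟩ := hz _ (lt_hn hx).le
    rw [hP]
    simp only [z0, z1]
    ring
  -- the lower bound is integrable
  have iq : Integrable fun x : E n => lam (hn x) * Φ (hn x) * (a x ^ 2 + b x ^ 2) ^ 2 := by
    refine CK.int (CK.of_zero (L := √(2 * T)) (by fun_prop) fun x hx => ?_)
    rw [(hC.z _ (lt_hn hx).le).1]
    ring
  have ie : IntegrableOn (fun x : E n => e1 x ^ 2 + e2 x ^ 2)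
      (Metric.closedBall (0 : E n) (√(2 * T))) := by
    have := hS.ce1
    have := hS.ce2
    exact (by fun_prop : Continuous fun x : E n => e1 x ^ 2 + e2 x ^ 2).continuousOn.integrableOn_compact
      (isCompact_closedBall _ _)
  have ie' : Integrable ((Metric.closedBall (0 : E n) (√(2 * T))).indicator
      (fun x => e1 x ^ 2 + e2 x ^ 2)) := ie.integrable_indicator measurableSet_closedBall
  have hpt : ∀ x, n / 2 * (lam (hn x) * Φ (hn x) * (a x ^ 2 + b x ^ 2) ^ 2)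
      - μ / 2 * (a x ^ 2 + b x ^ 2) ^ 2
      - ((n + 5 + 2 * S + Vm + S ^ 2 + n * S) * μ + Vm * κ + θ) *
        ((a x ^ 2 + b x ^ 2) + gsq a1 b1 x)
      - θ⁻¹ * (2 * T + (n + μ + 2 * S) ^ 2) *
        (Metric.closedBall (0 : E n) (√(2 * T))).indicator (fun x => e1 x ^ 2 + e2 x ^ 2) x ≤
      J x - P x := by
    intro x
    have h := vir_pt hn1 hκ hθ hT0 hC hF hW0 x (hWm x) (rad a1 x) (rad b1 x) (gsq a1 b1 x)
      (a x) (b x) (e1 x) (e2 x) (gsq_nonneg _ _ _) (rad_le a1 b1 x)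
    have e0 : (Metric.closedBall (0 : E n) (√(2 * T))).indicator (fun x => e1 x ^ 2 + e2 x ^ 2) x
      = (Metric.closedBall (0 : E n) (√(2 * T))).indicator (fun _ => e1 x ^ 2 + e2 x ^ 2) x := by
      by_cases hx : x ∈ Metric.closedBall (0 : E n) (√(2 * T))
      · rw [indicator_of_mem hx, indicator_of_mem hx]
      · rw [indicator_of_notMem hx, indicator_of_notMem hx]
    rw [e0]
    refine h.trans (le_of_eq ?_)
    rw [hJ, hP]
    simp only
    rw [div_WW hS x]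
    ring
  have iA : Integrable fun x : E n => (n : ℝ) / 2 * (lam (hn x) * Φ (hn x) *
      (a x ^ 2 + b x ^ 2) ^ 2) := iq.const_mul _
  have iB : Integrable fun x : E n => μ / 2 * (a x ^ 2 + b x ^ 2) ^ 2 := iρ2.const_mul _
  have iD : Integrable fun x : E n => ((n + 5 + 2 * S + Vm + S ^ 2 + n * S) * μ + Vm * κ + θ) *
        ((a x ^ 2 + b x ^ 2) + gsq a1 b1 x) := (iρ.add iG).const_mul _
  have iE : Integrable fun x : E n => θ⁻¹ * (2 * T + (n + μ + 2 * S) ^ 2) *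
        (Metric.closedBall (0 : E n) (√(2 * T))).indicator (fun x => e1 x ^ 2 + e2 x ^ 2) x :=
    ie'.const_mul _
  have iAB : Integrable fun x : E n => (n : ℝ) / 2 * (lam (hn x) * Φ (hn x) *
      (a x ^ 2 + b x ^ 2) ^ 2) - μ / 2 * (a x ^ 2 + b x ^ 2) ^ 2 := iA.sub iB
  have iABD : Integrable fun x : E n => (n : ℝ) / 2 * (lam (hn x) * Φ (hn x) *
      (a x ^ 2 + b x ^ 2) ^ 2) - μ / 2 * (a x ^ 2 + b x ^ 2) ^ 2
      - ((n + 5 + 2 * S + Vm + S ^ 2 + n * S) * μ + Vm * κ + θ) *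
        ((a x ^ 2 + b x ^ 2) + gsq a1 b1 x) := iAB.sub iD
  have hm := integral_mono (iABD.sub iE) (iJ.sub iP) hpt
  simp only [Pi.sub_apply] at hm
  rw [integral_sub iJ iP, integral_sub iABD iE, integral_sub iAB iD, integral_sub iA iB,
    integral_const_mul, integral_const_mul, integral_const_mul,
    integral_const_mul, integral_add iρ iG, integral_indicator measurableSet_closedBall] at hm
  linarith

end

end

end Pool.Agent.Lib_helper40.NLN
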