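import Pool.Agent.Lib_helper40.NLN.Calc

/-!
# The virial identity in `ℝⁿ` for radial multipliers
-/

namespace Pool.Agent.Lib_helper40.NLN

open MeasureTheory Set Filter Topology

noncomputable section

variable {n : ℕ}

/-- A smooth function `u = a + i b` on `ℝⁿ` and its time derivative `v = i Δu - i G`,
`G = (V + |u|²) u + e`, in real and imaginary parts. -/
structure SnapN (V a b : E n → ℝ) (a1 b1 : Fin n → E n → ℝ) (a2 b2 : Fin n → Fin n → E n → ℝ)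
    (v1 v2 : E n → ℝ) (w1 w2 : Fin n → E n → ℝ) (e1 e2 : E n → ℝ) : Prop where
  da : ∀ i, PD i a (a1 i)
  da1 : ∀ i j, PD i (a1 j) (a2 i j)
  sa : ∀ i j x, a2 i j x = a2 j i x
  db : ∀ i, PD i b (b1 i)
  db1 : ∀ i j, PD i (b1 j) (b2 i j)
  sb : ∀ i j x, b2 i j x = b2 j i x
  dv1 : ∀ i, PD i v1 (w1 i)
  dv2 : ∀ i, PD i v2 (w2 i)
  hv1 : ∀ x, v1 x = -∑ i, b2 i i x + ((V x + (a x ^ 2 + b x ^ 2)) * b x + e2 x)
  hv2 : ∀ x, v2 x = ∑ i, a2 i i x - ((V x + (a x ^ 2 + b x ^ 2)) * a x + e1 x)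
  ca : Continuous a
  cb : Continuous b
  ca1 : ∀ i, Continuous (a1 i)
  cb1 : ∀ i, Continuous (b1 i)
  ca2 : ∀ i j, Continuous (a2 i j)
  cb2 : ∀ i j, Continuous (b2 i j)
  cv1 : Continuous v1
  cv2 : Continuous v2
  cw1 : ∀ i, Continuous (w1 i)
  cw2 : ∀ i, Continuous (w2 i)
  ce1 : Continuous e1
  ce2 : Continuous e2

section

variable {V a b v1 v2 e1 e2 : E n → ℝ} {a1 b1 w1 w2 : Fin n → E n → ℝ}
  {a2 b2 : Fin n → Fin n → E n → ℝ}

/-- `x · ∇ f` -/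
def rad (f1 : Fin n → E n → ℝ) (x : E n) : ℝ := ∑ j, x j * f1 j x

/-- `|∇ f|²` -/
def gsq (a1 b1 : Fin n → E n → ℝ) (x : E n) : ℝ := ∑ j, (a1 j x ^ 2 + b1 j x ^ 2)

lemma PD.rad {f1 : Fin n → E n → ℝ} {f2 : Fin n → Fin n → E n → ℝ}
    (h : ∀ i j, PD i (f1 j) (f2 i j)) (i : Fin n) :
    PD i (NLN.rad f1) (fun x => f1 i x + ∑ j, x j * f2 i j x) := by
  have h1 := PD.sum (i := i) Finset.univ (f := fun j x => x j * f1 j x)
    (fun j _ => (PD.coord i j).mul (h i j))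
  refine h1.congr fun x => ?_
  rw [Finset.sum_add_distrib]
  simp [Finset.sum_ite_eq']

lemma PD.gsq {a1 b1 : Fin n → E n → ℝ} {a2 b2 : Fin n → Fin n → E n → ℝ}
    (ha : ∀ i j, PD i (a1 j) (a2 i j)) (hb : ∀ i j, PD i (b1 j) (b2 i j)) (i : Fin n) :
    PD i (NLN.gsq a1 b1) (fun x => 2 * ∑ j, (a1 j x * a2 i j x + b1 j x * b2 i j x)) := by
  have h1 := PD.sum (i := i) Finset.univ (f := fun j x => a1 j x ^ 2 + b1 j x ^ 2)
    (fun j _ => (ha i j).sq.add (hb i j).sq)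
  refine h1.congr fun x => ?_
  rw [Finset.mul_sum]
  exact Finset.sum_congr rfl fun j _ => by ring

/-- swapping the Hessian -/
lemma hess_swap {f1 : Fin n → E n → ℝ} {f2 : Fin n → Fin n → E n → ℝ}
    (hs : ∀ i j x, f2 i j x = f2 j i x) (x : E n) :
    ∑ i, x i * (∑ j, f1 j x * f2 i j x) = ∑ i, (∑ j, x j * f2 i j x) * f1 i x := by
  simp only [Finset.mul_sum, Finset.sum_mul]
  rw [Finset.sum_comm]
  refine Finset.sum_congr rfl fun i _ => Finset.sum_congr rfl fun j _ => ?_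
  rw [hs i j]; ring

/-- the vector field of the virial identity -/
def WW (c c1 f : ℝ → ℝ) (a b : E n → ℝ) (a1 b1 : Fin n → E n → ℝ) (v1 v2 : E n → ℝ)
    (i : Fin n) (x : E n) : ℝ :=
  c (hn x) * x i * (a x * v2 x - b x * v1 x) + c (hn x) * x i * gsq a1 b1 x
    - 2 * c (hn x) * (rad a1 x * a1 i x + rad b1 x * b1 i x)
    - (n * c (hn x) + 2 * hn x * c1 (hn x)) * (a x * a1 i x + b x * b1 i x)
    + f (hn x) * ((a x ^ 2 + b x ^ 2) * x i)
    + 1 / 2 * (c (hn x) * ((a x ^ 2 + b x ^ 2) ^ 2 * x i))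

/-- the derivative of `WW` -/
def dWW (c c1 c2 f f1 : ℝ → ℝ) (a b : E n → ℝ) (a1 b1 : Fin n → E n → ℝ)
    (a2 b2 : Fin n → Fin n → E n → ℝ) (v1 v2 : E n → ℝ) (w1 w2 : Fin n → E n → ℝ)
    (i : Fin n) (x : E n) : ℝ :=
  (c1 (hn x) * x i * x i + c (hn x)) * (a x * v2 x - b x * v1 x)
    + c (hn x) * x i * (a1 i x * v2 x + a x * w2 i x - b1 i x * v1 x - b x * w1 i x)
    + (c1 (hn x) * x i * x i + c (hn x)) * gsq a1 b1 x
    + c (hn x) * x i * (2 * ∑ j, (a1 j x * a2 i j x + b1 j x * b2 i j x))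
    - (2 * c1 (hn x) * x i * (rad a1 x * a1 i x + rad b1 x * b1 i x)
      + 2 * c (hn x) * ((a1 i x + ∑ j, x j * a2 i j x) * a1 i x + rad a1 x * a2 i i x
        + (b1 i x + ∑ j, x j * b2 i j x) * b1 i x + rad b1 x * b2 i i x))
    - (((n + 2) * c1 (hn x) + 2 * hn x * c2 (hn x)) * x i * (a x * a1 i x + b x * b1 i x)
      + (n * c (hn x) + 2 * hn x * c1 (hn x)) *
        (a1 i x ^ 2 + a x * a2 i i x + b1 i x ^ 2 + b x * b2 i i x))
    + (f1 (hn x) * x i * ((a x ^ 2 + b x ^ 2) * x i)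
      + f (hn x) * (2 * (a x * a1 i x + b x * b1 i x) * x i + (a x ^ 2 + b x ^ 2)))
    + 1 / 2 * (c1 (hn x) * x i * ((a x ^ 2 + b x ^ 2) ^ 2 * x i)
      + c (hn x) * (4 * (a x ^ 2 + b x ^ 2) * (a x * a1 i x + b x * b1 i x) * x i
        + (a x ^ 2 + b x ^ 2) ^ 2))

lemma PD.WW {c c1 c2 f f1 : ℝ → ℝ} (hc : ∀ τ, HasDerivAt c (c1 τ) τ)
    (hc1 : ∀ τ, HasDerivAt c1 (c2 τ) τ) (hf : ∀ τ, HasDerivAt f (f1 τ) τ)
    (hS : SnapN V a b a1 b1 a2 b2 v1 v2 w1 w2 e1 e2) (i : Fin n) :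
    PD i (NLN.WW c c1 f a b a1 b1 v1 v2 i) (dWW c c1 c2 f f1 a b a1 b1 a2 b2 v1 v2 w1 w2 i) := by
  have xi := PD.coord i i
  have hC := PD.radial (i := i) hc
  have hC1 := PD.radial (i := i) hc1
  have hF := PD.radial (i := i) hf
  have hh := PD.hn i
  have ha := hS.da i
  have hb := hS.db i
  have ha1 := hS.da1 i i
  have hb1 := hS.db1 i i
  have hv1 := hS.dv1 i
  have hv2 := hS.dv2 i
  have hA := PD.rad hS.da1 i
  have hB := PD.rad hS.db1 i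
  have hG := PD.gsq hS.da1 hS.db1 i
  have hρ := ha.sq.add hb.sq
  have H := ((((((hC.mul xi).mul ((ha.mul hv2).sub (hb.mul hv1))).add
    ((hC.mul xi).mul hG)).sub ((hC.const_mul 2).mul ((hA.mul ha1).add (hB.mul hb1)))).sub
    (((hC.const_mul (n : ℝ)).add ((hh.const_mul 2).mul hC1)).mul
      ((ha.mul ha1).add (hb.mul hb1)))).add (hF.mul (hρ.mul xi))).add
    ((hC.mul (hρ.sq.mul xi)).const_mul (1 / 2))
  refine PD.congr H fun x => ?_
  simp only [dWW, if_true]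
  ring

/-- the divergence identity -/
lemma div_WW {c c1 c2 f f1 : ℝ → ℝ}
    (hS : SnapN V a b a1 b1 a2 b2 v1 v2 w1 w2 e1 e2) (x : E n) :
    ∑ i, dWW c c1 c2 f f1 a b a1 b1 a2 b2 v1 v2 w1 w2 i x =
      c (hn x) * (∑ i, x i * (v1 x * b1 i x + a x * w2 i x - v2 x * a1 i x - b x * w1 i x))
      - (2 * c1 (hn x) * (rad a1 x ^ 2 + rad b1 x ^ 2) + 2 * c (hn x) * gsq a1 b1 x
        + ((n + 2) * c1 (hn x) + 2 * hn x * c2 (hn x)) * (a x * rad a1 x + b x * rad b1 x)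
        + V x * (2 * c (hn x) * (a x * rad a1 x + b x * rad b1 x)
          + (n * c (hn x) + 2 * hn x * c1 (hn x)) * (a x ^ 2 + b x ^ 2))
        - 2 * f (hn x) * (a x * rad a1 x + b x * rad b1 x)
        - (n * f (hn x) + 2 * hn x * f1 (hn x)) * (a x ^ 2 + b x ^ 2)
        + 1 / 2 * (n * c (hn x) + 2 * hn x * c1 (hn x)) * (a x ^ 2 + b x ^ 2) ^ 2
        + 2 * c (hn x) * (e1 x * rad a1 x + e2 x * rad b1 x)
        + (n * c (hn x) + 2 * hn x * c1 (hn x)) * (a x * e1 x + b x * e2 x)) := by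
  -- abbreviations
  set C := c (hn x)
  set C1 := c1 (hn x)
  set C2 := c2 (hn x)
  set F := f (hn x)
  set F1 := f1 (hn x)
  set N := 2 * hn x with hN
  set ρ := a x ^ 2 + b x ^ 2 with hρ
  have s1 : ∑ i, x i * x i = N := by
    rw [hN, hn_eq]; exact Finset.sum_congr rfl fun i _ => by ring
  have s2 : ∑ i, x i * a1 i x = rad a1 x := rfl
  have s3 : ∑ i, x i * b1 i x = rad b1 x := rfl
  have s4 : ∑ i, (a1 i x ^ 2 + b1 i x ^ 2) = gsq a1 b1 x := rfl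
  have s5 := hess_swap (f1 := a1) hS.sa x
  have s6 := hess_swap (f1 := b1) hS.sb x
  -- linear decomposition of each term
  have hdec : ∀ i, dWW c c1 c2 f f1 a b a1 b1 a2 b2 v1 v2 w1 w2 i x =
      (C1 * (a x * v2 x - b x * v1 x) + C1 * gsq a1 b1 x + F1 * ρ + 1 / 2 * C1 * ρ ^ 2)
        * (x i * x i)
      + (C * (a x * v2 x - b x * v1 x) + C * gsq a1 b1 x + F * ρ + 1 / 2 * C * ρ ^ 2) * 1
      + (C * v2 x - 2 * C1 * rad a1 x - ((n + 2) * C1 + N * C2) * a x + 2 * F * a x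
          + 2 * C * ρ * a x) * (x i * a1 i x)
      + (-(C * v1 x) - 2 * C1 * rad b1 x - ((n + 2) * C1 + N * C2) * b x + 2 * F * b x
          + 2 * C * ρ * b x) * (x i * b1 i x)
      + C * (x i * (a x * w2 i x - b x * w1 i x))
      + (2 * C) * (x i * (∑ j, a1 j x * a2 i j x)) + (2 * C) * (x i * (∑ j, b1 j x * b2 i j x))
      + (-(2 * C)) * ((∑ j, x j * a2 i j x) * a1 i x)
      + (-(2 * C)) * ((∑ j, x j * b2 i j x) * b1 i x)
      + (-(2 * C) - (n * C + N * C1)) * (a1 i x ^ 2 + b1 i x ^ 2)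
      + (-(2 * C * rad a1 x) - (n * C + N * C1) * a x) * a2 i i x
      + (-(2 * C * rad b1 x) - (n * C + N * C1) * b x) * b2 i i x := by
    intro i
    simp only [dWW]
    rw [Finset.sum_add_distrib]
    ring
  simp only [hdec, Finset.sum_add_distrib, ← Finset.mul_sum]
  rw [s1, s2, s3, s5, s6]
  have s4' : ∑ i, a1 i x ^ 2 + ∑ i, b1 i x ^ 2 = gsq a1 b1 x := by
    rw [← Finset.sum_add_distrib]; rfl
  rw [s4']
  have hcard : ∑ _i : Fin n, (1 : ℝ) = n := by simp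
  rw [hcard]
  have hd : ∑ i, x i * (v1 x * b1 i x + a x * w2 i x - v2 x * a1 i x - b x * w1 i x) =
      v1 x * rad b1 x - v2 x * rad a1 x + ∑ i, x i * (a x * w2 i x - b x * w1 i x) := by
    rw [← s2, ← s3, Finset.mul_sum, Finset.mul_sum, ← Finset.sum_sub_distrib,
      ← Finset.sum_add_distrib]
    exact Finset.sum_congr rfl fun i _ => by ring
  rw [hd]
  have e1' := hS.hv1 x
  have e2' := hS.hv2 x
  rw [← hρ] at e1' e2'
  rw [e1', e2']
  ring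

end

end

end Pool.Agent.Lib_helper40.NLN
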